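import Mathlib

/-!
Kruskal's theorem for binary trees with labels in a well quasi order.
-/

namespace Pool.Agent.Lib.P675cc6

universe u

/-- Binary trees with labels at the inner nodes. -/
inductive BTree (L : Type u)
  | leaf : BTree L
  | node (l : L) (a b : BTree L) : BTree L

namespace BTree

variable {L : Type u}

/-- Homeomorphic embedding of trees (left and right are respected). -/
inductive Emb (rl : L → L → Prop) : BTree L → BTree L → Prop
  | leaf (t : BTree L) : Emb rl .leaf t
  | node {l l' : L} {a a' b b' : BTree L} : rl l l' → Emb rl a a' → Emb rl b b' →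
      Emb rl (.node l a b) (.node l' a' b')
  | left {t : BTree L} {l' : L} {a' b' : BTree L} : Emb rl t a' → Emb rl t (.node l' a' b')
  | right {t : BTree L} {l' : L} {a' b' : BTree L} : Emb rl t b' → Emb rl t (.node l' a' b')

/-- Number of nodes. -/
def size : BTree L → ℕ
  | .leaf => 0
  | .node _ a b => a.size + b.size + 1

/-- All labels lie in `s`. -/
def Over (s : Set L) : BTree L → Prop
  | .leaf => True
  | .node l a b => l ∈ s ∧ a.Over s ∧ b.Over s

theorem Emb.refl {rl : L → L → Prop} (hr : ∀ l, rl l l) (t : BTree L) : Emb rl t t := by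
  induction t with
  | leaf => exact .leaf _
  | node l a b iha ihb => exact .node (hr l) iha ihb

theorem Emb.trans {rl : L → L → Prop} (ht : ∀ x y z, rl x y → rl y z → rl x z)
    {t u v : BTree L} (h : Emb rl t u) (h' : Emb rl u v) : Emb rl t v := by
  induction h' generalizing t with
  | leaf => cases h; exact .leaf _
  | left _ ih => exact .left (ih h)
  | right _ ih => exact .right (ih h)
  | node hl _ _ iha ihb =>
    cases h with
    | leaf => exact .leaf _
    | node hl' ha hb => exact .node (ht _ _ _ hl' hl) (iha ha) (ihb hb)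
    | left h => exact .left (iha h)
    | right h => exact .right (ihb h)

instance (rl : L → L → Prop) [IsPreorder L rl] : IsPreorder (BTree L) (Emb rl) where
  refl := Emb.refl (fun l => refl_of rl l)
  trans := fun _ _ _ => Emb.trans (rl := rl) (fun _ _ _ => trans_of rl)

open Set

/-- Kruskal's theorem for binary trees. -/
theorem kruskal (rl : L → L → Prop) [IsPreorder L rl] {s : Set L}
    (hs : s.PartiallyWellOrderedOn rl) :
    {t : BTree L | t.Over s}.PartiallyWellOrderedOn (Emb rl) := by
  classical
  have hrefl : ∀ l, rl l l := fun l => refl_of rl l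
  have htrans : ∀ x y z, rl x y → rl y z → rl x z := fun x y z => trans_of rl
  rw [PartiallyWellOrderedOn.iff_not_exists_isMinBadSeq size]
  rintro ⟨f, hf1, hf2⟩
  have hnode : ∀ n, ∃ l a b, f n = .node l a b := by
    intro n
    cases h : f n with
    | leaf =>
      exfalso
      apply hf1.2 n (n + 1) n.lt_succ_self
      rw [h]
      exact .leaf _
    | node l a b => exact ⟨l, a, b, rfl⟩
  choose l a b hlab using hnode
  have hover : ∀ n, l n ∈ s ∧ (a n).Over s ∧ (b n).Over s := by
    intro n
    have := hf1.1 n
    rw [hlab n] at this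
    exact this
  -- the set of immediate subtrees
  have hsub : {t : BTree L | ∃ n, t = a n ∨ t = b n}.PartiallyWellOrderedOn (Emb rl) := by
    rw [PartiallyWellOrderedOn.iff_forall_not_isBadSeq]
    intro g hg
    have hidx : ∀ k, ∃ n, g k = a n ∨ g k = b n := fun k => hg.1 k
    choose i hi using hidx
    -- position with the least index
    obtain ⟨k0, hk0⟩ : ∃ k0, ∀ k, i k0 ≤ i k := by
      obtain ⟨m, hm⟩ := WellFounded.has_min (wellFounded_lt (α := ℕ)) (Set.range i)
        ⟨i 0, 0, rfl⟩
      obtain ⟨⟨k0, rfl⟩, hmin⟩ := hm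
      exact ⟨k0, fun k => not_lt.1 (hmin _ ⟨k, rfl⟩)⟩
    have hemb : ∀ k, Emb rl (g k) (f (i k)) := by
      intro k
      rw [hlab]
      rcases hi k with h | h
      · rw [h]; exact .left (Emb.refl hrefl _)
      · rw [h]; exact .right (Emb.refl hrefl _)
    have hsize : ∀ k, (g k).size < (f (i k)).size := by
      intro k
      rw [hlab]
      rcases hi k with h | h
      · rw [h]; simp only [size]; omega
      · rw [h]; simp only [size]; omega
    have hgover : ∀ k, (g k).Over s := by
      intro k
      rcases hi k with h | h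
      · rw [h]; exact (hover _).2.1
      · rw [h]; exact (hover _).2.2
    refine hf2 (i k0) (fun m => if m < i k0 then f m else g (k0 + (m - i k0)))
      (fun m hm => (if_pos hm).symm) ?_ ⟨?_, ?_⟩
    · simp only [lt_irrefl, if_false, Nat.sub_self, Nat.add_zero]
      exact hsize k0
    · intro m
      dsimp only
      split_ifs
      · exact hf1.1 m
      · exact hgover _
    · intro m n hmn
      dsimp only
      split_ifs with h1 h2 h2
      · exact hf1.2 m n hmn
      · intro h
        refine hf1.2 m (i (k0 + (n - i k0))) (lt_of_lt_of_le h1 (hk0 _)) ?_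
        exact Emb.trans htrans h (hemb _)
      · omega
      · exact hg.2 _ _ (by omega)
  -- monotone subsequences
  obtain ⟨g1, hg1⟩ := hs.exists_monotone_subseq fun n => (hover n).1
  obtain ⟨g2, hg2⟩ := hsub.exists_monotone_subseq (f := fun n => a (g1 n))
    fun n => ⟨g1 n, Or.inl rfl⟩
  obtain ⟨m, n, hmn, hb⟩ := hsub.exists_lt (f := fun n => b (g1 (g2 n)))
    fun n => ⟨g1 (g2 n), Or.inr rfl⟩
  apply hf1.2 (g1 (g2 m)) (g1 (g2 n)) (g1.strictMono (g2.strictMono hmn))
  rw [hlab, hlab (g1 (g2 n))]
  exact .node (hg1 _ _ (g2.monotone hmn.le)) (hg2 _ _ hmn.le) hb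

end BTree

end Pool.Agent.Lib.P675cc6
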