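import Mathlib

/-!
Saturation of submonoids and semilinearity.
-/

namespace Pool.Agent.Lib.P675cc6

open Set Pointwise AddSubmonoid

variable {M N : Type*} [AddCommMonoid M] [AddCommMonoid N]

/-- The saturation: all elements with a positive multiple in `P`. -/
def Sat (P : Set M) : Set M := {z | ∃ n : ℕ, 0 < n ∧ n • z ∈ P}

theorem subset_sat (P : Set M) : P ⊆ Sat P := fun z hz => ⟨1, one_pos, by simpa using hz⟩

theorem sat_mono {P Q : Set M} (h : P ⊆ Q) : Sat P ⊆ Sat Q :=
  fun _ ⟨n, hn, hz⟩ => ⟨n, hn, h hz⟩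

theorem sat_sat (P : Set M) : Sat (Sat P) = Sat P := by
  apply Subset.antisymm
  · rintro z ⟨n, hn, m, hm, hz⟩
    exact ⟨m * n, Nat.mul_pos hm hn, by rwa [mul_smul]⟩
  · exact subset_sat _

theorem sat_smul_mem (P : AddSubmonoid M) {z : M} (hz : z ∈ Sat (P : Set M)) (k : ℕ) :
    k • z ∈ Sat (P : Set M) := by
  obtain ⟨n, hn, h⟩ := hz
  refine ⟨n, hn, ?_⟩
  rw [smul_comm]
  exact P.nsmul_mem h k

/-- The saturation as a submonoid. -/
def satSub (P : AddSubmonoid M) : AddSubmonoid M where
  carrier := Sat (P : Set M)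
  zero_mem' := ⟨1, one_pos, by simp⟩
  add_mem' := by
    rintro x y ⟨n, hn, hx⟩ ⟨m, hm, hy⟩
    refine ⟨n * m, Nat.mul_pos hn hm, ?_⟩
    rw [smul_add, mul_comm n m, mul_smul, mul_comm m n, mul_smul]
    exact P.add_mem (P.nsmul_mem hx m) (P.nsmul_mem hy n)

@[simp] theorem coe_satSub (P : AddSubmonoid M) : (satSub P : Set M) = Sat (P : Set M) := rfl

theorem mem_satSub {P : AddSubmonoid M} {x : M} : x ∈ satSub P ↔ x ∈ Sat (P : Set M) := Iff.rfl

theorem sat_preimage {F : Type*} [FunLike F M N] [AddMonoidHomClass F M N] (f : F) (P : Set N) :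
    Sat (f ⁻¹' P) = f ⁻¹' (Sat P) := by
  ext z
  simp [Sat, map_nsmul]

theorem sat_inter_eq (P : Set M) (Q : Set M) (hQ : ∀ n : ℕ, 0 < n → ∀ z, n • z ∈ Q ↔ z ∈ Q) :
    Sat (P ∩ Q) = Sat P ∩ Q := by
  ext z
  constructor
  · rintro ⟨n, hn, h1, h2⟩
    exact ⟨⟨n, hn, h1⟩, (hQ n hn z).1 h2⟩
  · rintro ⟨⟨n, hn, h1⟩, h2⟩
    exact ⟨n, hn, h1, (hQ n hn z).2 h2⟩

/-- Saturation of a linear set inside a free commutative monoid. -/
theorem sat_linear_semilinear {ι : Type*} [Finite ι] (c : ι → ℕ) (t : Finset (ι → ℕ)) :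
    IsSemilinearSet {x : ι → ℕ | ∃ n l : ℕ, 0 < n ∧ 0 < l ∧ ∃ k : (ι → ℕ) → ℕ,
      n • x = l • c + ∑ p ∈ t, k p • p} := by
  classical
  have := Fintype.ofFinite ι
  set A : Set (ι → ℕ) := {x : ι → ℕ | ∃ n l : ℕ, 0 < n ∧ 0 < l ∧ ∃ k : (ι → ℕ) → ℕ,
      n • x = l • c + ∑ p ∈ t, k p • p} with hA
  set F : Set (ι → ℕ) := {x ∈ A | x ≤ c + ∑ p ∈ t, p} with hF
  have hFfin : F.Finite := (Set.finite_Iic (c + ∑ p ∈ t, p)).subset fun x hx => hx.2
  have hAeq : A = F + (AddSubmonoid.closure ((insert c t : Finset (ι → ℕ)) : Set (ι → ℕ)) : Set (ι → ℕ)) := by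
    ext x
    constructor
    · rintro ⟨n, l, hn, hl, k, hx⟩
      -- split the coefficients
      obtain ⟨l0, l1, hl01, hl1, hl1'⟩ : ∃ l0 l1, l = l0 * n + l1 ∧ 0 < l1 ∧ l1 ≤ n := by
        refine ⟨(l - 1) / n, (l - 1) % n + 1, ?_, Nat.succ_pos _, Nat.mod_lt _ hn⟩
        have := Nat.div_add_mod (l - 1) n
        have h2 : n * ((l - 1) / n) = (l - 1) / n * n := Nat.mul_comm _ _
        omega
      set y : ι → ℕ := l0 • c + ∑ p ∈ t, (k p / n) • p with hy
      have key : n • x = n • y + (l1 • c + ∑ p ∈ t, (k p % n) • p) := by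
        rw [hx, hy, smul_add, Finset.smul_sum, hl01, add_smul, mul_comm l0 n, mul_smul]
        have : ∑ p ∈ t, k p • p = ∑ p ∈ t, n • (k p / n) • p + ∑ p ∈ t, (k p % n) • p := by
          rw [← Finset.sum_add_distrib]
          refine Finset.sum_congr rfl fun p _ => ?_
          rw [← mul_smul, ← add_smul, Nat.div_add_mod]
        rw [this]
        abel
      have hyx : y ≤ x := by
        intro i
        have h1 := congrFun key i
        simp only [Pi.add_apply, Pi.smul_apply, smul_eq_mul] at h1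
        have h2 : n * y i ≤ n * x i := by rw [h1]; exact Nat.le_add_right _ _
        exact Nat.le_of_mul_le_mul_left h2 hn
      obtain ⟨x', rfl⟩ := exists_add_of_le hyx
      have key' : n • x' = l1 • c + ∑ p ∈ t, (k p % n) • p := by
        rw [smul_add] at key
        exact add_left_cancel key
      refine ⟨x', ⟨⟨n, l1, hn, hl1, fun p => k p % n, key'⟩, ?_⟩, y, ?_, add_comm _ _⟩
      · intro i
        have h1 : (n • x') i ≤ (n • (c + ∑ p ∈ t, p)) i := by
          rw [key', smul_add, Finset.smul_sum]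
          simp only [Pi.add_apply, Finset.sum_apply, Pi.smul_apply, smul_eq_mul]
          exact Nat.add_le_add (Nat.mul_le_mul_right _ hl1') (Finset.sum_le_sum fun p _ =>
            Nat.mul_le_mul_right _ (Nat.mod_lt _ hn).le)
        exact Nat.le_of_mul_le_mul_left (by simpa using h1) hn
      · rw [SetLike.mem_coe, hy]
        refine add_mem (nsmul_mem (mem_closure_of_mem (by simp)) _) (sum_mem fun p hp =>
          nsmul_mem (mem_closure_of_mem (by simp [hp])) _)
    · rintro ⟨x', ⟨⟨n, l, hn, hl, k, hx⟩, -⟩, y, hy, rfl⟩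
      rw [SetLike.mem_coe, mem_closure_finset] at hy
      obtain ⟨g, -, rfl⟩ := hy
      refine ⟨n, l + n * g c, hn, by omega, fun p => k p + (if p = c then 0 else n * g p), ?_⟩
      dsimp only
      rw [smul_add, hx, Finset.smul_sum]
      have h1 : ∑ p ∈ insert c t, n • g p • p =
          n • g c • c + ∑ p ∈ t, (if p = c then 0 else n * g p) • p := by
        by_cases hc : c ∈ t
        · rw [Finset.insert_eq_of_mem hc, ← Finset.add_sum_erase t _ hc,
            ← Finset.add_sum_erase t (fun p => (if p = c then 0 else n * g p) • p) hc]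
          simp only [if_true, zero_smul, zero_add]
          congr 1
          refine Finset.sum_congr rfl fun p hp => ?_
          rw [if_neg (Finset.ne_of_mem_erase hp), mul_smul]
        · rw [Finset.sum_insert hc]
          congr 1
          refine Finset.sum_congr rfl fun p hp => ?_
          rw [if_neg (show ¬ p = c from fun h => hc (h ▸ hp)), mul_smul]
      rw [h1]
      simp only [add_smul, mul_smul, Finset.sum_add_distrib]
      abel
  rw [hAeq]
  exact (IsSemilinearSet.of_finite hFfin).add (IsSemilinearSet.closure_finset _)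

/-- Saturations of semilinear submonoids are semilinear (free case). -/
theorem sat_semilinear_free {ι : Type*} [Finite ι] (P : AddSubmonoid (ι → ℕ))
    (hP : IsSemilinearSet (P : Set (ι → ℕ))) : IsSemilinearSet (Sat (P : Set (ι → ℕ))) := by
  classical
  obtain ⟨S, hS, hlin, hPS⟩ := hP
  simp only [isLinearSet_iff] at hlin
  choose! c t hct using hlin
  have hmem : ∀ L ∈ S, ∀ k : (ι → ℕ) → ℕ, c L + ∑ p ∈ t L, k p • p ∈ P := by
    intro L hL k
    rw [← SetLike.mem_coe, hPS]
    exact ⟨L, hL, (Set.ext_iff.1 (hct L hL) _).2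
      ⟨_, sum_mem fun p hp => nsmul_mem (mem_closure_of_mem hp) _, rfl⟩⟩
  have key : Sat (P : Set (ι → ℕ)) = ⋃ L ∈ S, {x : ι → ℕ | ∃ n l : ℕ, 0 < n ∧ 0 < l ∧
      ∃ k : (ι → ℕ) → ℕ, n • x = l • c L + ∑ p ∈ t L, k p • p} := by
    ext x
    simp only [mem_iUnion, mem_ofPred_eq]
    constructor
    · rintro ⟨n, hn, hx⟩
      rw [hPS] at hx
      obtain ⟨L, hL, hx⟩ := hx
      obtain ⟨y, hy, hyx⟩ := (Set.ext_iff.1 (hct L hL) _).1 hx
      rw [SetLike.mem_coe, mem_closure_finset] at hy
      obtain ⟨g, -, rfl⟩ := hy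
      refine ⟨L, hL, n, 1, hn, one_pos, g, ?_⟩
      rw [one_smul]
      exact hyx.symm
    · rintro ⟨L, hL, n, l, hn, hl, k, hx⟩
      refine ⟨n, hn, ?_⟩
      rw [hx, SetLike.mem_coe]
      obtain ⟨l, rfl⟩ : ∃ l', l = l' + 1 := ⟨l - 1, by omega⟩
      have h1 := hmem L hL k
      have h2 := hmem L hL 0
      simp only [Pi.zero_apply, zero_smul, Finset.sum_const_zero, add_zero] at h2
      have h3 := P.add_mem (P.nsmul_mem h2 l) h1
      rw [← add_assoc, ← succ_nsmul] at h3
      exact h3
  rw [key]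
  exact IsSemilinearSet.biUnion hS fun L _ => sat_linear_semilinear (c L) (t L)

/-- Saturations of semilinear submonoids are semilinear. -/
theorem sat_semilinear [AddMonoid.FG M] (P : AddSubmonoid M)
    (hP : IsSemilinearSet (P : Set M)) : IsSemilinearSet (Sat (P : Set M)) := by
  rcases AddSubmonoid.fg_iff_exists_fin_addMonoidHom.1 (AddMonoid.FG.fg_top (M := M)) with
    ⟨n, f, hf⟩
  rw [AddMonoidHom.mrange_eq_top] at hf
  rw [← image_preimage_eq (Sat (P : Set M)) hf]
  apply IsSemilinearSet.image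
  rw [← sat_preimage]
  exact sat_semilinear_free (P.comap f) (hP.preimage f)

/-- Faces of semilinear submonoids are semilinear. -/
theorem face_semilinear (C : AddSubmonoid M) (hC : IsSemilinearSet (C : Set M)) (C' : Set M)
    (hsub : C' ⊆ C) (hadd : ∀ x ∈ C', ∀ y ∈ C, x + y ∈ C')
    (hsat : ∀ x ∈ C, ∀ n : ℕ, 0 < n → n • x ∈ C' → x ∈ C') : IsSemilinearSet C' := by
  classical
  obtain ⟨S, hS, hlin, hCS⟩ := hC
  simp only [isLinearSet_iff] at hlin
  choose! c t hct using hlin
  have hmem : ∀ L ∈ S, ∀ k : M → ℕ, c L + ∑ p ∈ t L, k p • p ∈ C := by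
    intro L hL k
    rw [← SetLike.mem_coe, hCS]
    exact ⟨L, hL, (Set.ext_iff.1 (hct L hL) _).2
      ⟨_, sum_mem fun p hp => nsmul_mem (mem_closure_of_mem hp) _, rfl⟩⟩
  -- the good supports
  let good : Set M → Finset M → Prop := fun L J => ∃ k : M → ℕ, (∀ p ∈ J, 0 < k p) ∧
    c L + ∑ p ∈ J, k p • p ∈ C'
  have key : C' = ⋃ L ∈ S, ⋃ J ∈ (t L).powerset.filter (good L),
      ((c L + ∑ p ∈ J, p) +ᵥ (AddSubmonoid.closure (J : Set M) : Set M)) := by
    ext x
    simp only [mem_iUnion]
    constructor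
    · intro hx
      have hxC := hsub hx
      rw [hCS] at hxC
      obtain ⟨L, hL, hxL⟩ := hxC
      obtain ⟨y, hy, rfl⟩ := (Set.ext_iff.1 (hct L hL) _).1 hxL
      rw [SetLike.mem_coe, mem_closure_finset] at hy
      obtain ⟨g, -, rfl⟩ := hy
      set J := (t L).filter (fun p => 0 < g p) with hJ
      have hsum : ∑ p ∈ t L, g p • p = ∑ p ∈ J, g p • p := by
        rw [hJ, Finset.sum_filter]
        refine Finset.sum_congr rfl fun p _ => ?_
        split_ifs with h
        · rfl
        · rw [Nat.eq_zero_of_not_pos h, zero_smul]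
      refine ⟨L, hL, J, ?_, ?_⟩
      · rw [Finset.mem_filter, Finset.mem_powerset]
        refine ⟨Finset.filter_subset _ _, g, fun p hp => (Finset.mem_filter.1 hp).2, ?_⟩
        dsimp only at hx
        rw [vadd_eq_add, hsum] at hx
        exact hx
      · dsimp only
        rw [vadd_eq_add, hsum]
        refine ⟨∑ p ∈ J, (g p - 1) • p, ?_, ?_⟩
        · exact sum_mem fun p hp => nsmul_mem (mem_closure_of_mem hp) _
        · dsimp only
          rw [vadd_eq_add, add_assoc, ← Finset.sum_add_distrib]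
          congr 1
          refine Finset.sum_congr rfl fun p hp => ?_
          have hp' := (Finset.mem_filter.1 hp).2
          nth_rewrite 1 [← one_smul ℕ p]
          rw [← add_smul]
          congr 1
          omega
    · rintro ⟨L, hL, J, hJ, y, hy, rfl⟩
      rw [Finset.mem_filter, Finset.mem_powerset] at hJ
      obtain ⟨hJt, k, hk, hkC⟩ := hJ
      rw [SetLike.mem_coe, mem_closure_finset] at hy
      obtain ⟨g, -, rfl⟩ := hy
      dsimp only
      rw [vadd_eq_add]
      have hform : ∀ h : M → ℕ, c L + ∑ p ∈ J, h p • p ∈ C := by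
        intro h
        have := hmem L hL (fun p => if p ∈ J then h p else 0)
        simpa [ite_smul, Finset.sum_ite_mem, Finset.inter_eq_right.2 hJt] using this
      have hx' : c L + ∑ p ∈ J, p + ∑ p ∈ J, g p • p = c L + ∑ p ∈ J, (g p + 1) • p := by
        rw [add_assoc, ← Finset.sum_add_distrib]
        congr 1
        refine Finset.sum_congr rfl fun p _ => ?_
        rw [add_smul, one_smul, add_comm]
      rw [hx']
      -- a large multiple
      set n := (∑ p ∈ J, k p) + 2 with hn
      have hkn : ∀ p ∈ J, k p ≤ n * (g p + 1) := by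
        intro p hp
        have h1 : k p ≤ ∑ p ∈ J, k p := Finset.single_le_sum (fun _ _ => Nat.zero_le _) hp
        calc k p ≤ n := by omega
          _ ≤ n * (g p + 1) := Nat.le_mul_of_pos_right _ (Nat.succ_pos _)
      refine hsat _ (hform _) n (by omega) ?_
      have heq : n • (c L + ∑ p ∈ J, (g p + 1) • p) = (c L + ∑ p ∈ J, k p • p) +
          ((n - 2) • c L + (c L + ∑ p ∈ J, (n * (g p + 1) - k p) • p)) := by
        rw [smul_add, Finset.smul_sum]
        have h1 : ∑ p ∈ J, n • (g p + 1) • p =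
            ∑ p ∈ J, k p • p + ∑ p ∈ J, (n * (g p + 1) - k p) • p := by
          rw [← Finset.sum_add_distrib]
          refine Finset.sum_congr rfl fun p hp => ?_
          rw [← add_smul, Nat.add_sub_cancel' (hkn p hp), mul_smul]
        have h2 : n • c L = c L + (n - 2) • c L + c L := by
          have : n = 1 + (n - 2) + 1 := by omega
          nth_rewrite 1 [this]
          rw [add_smul, add_smul, one_smul]
        rw [h1, h2]
        abel
      rw [heq]
      refine hadd _ hkC _ (C.add_mem (C.nsmul_mem ?_ _) (hform _))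
      have := hform 0
      simpa using this
  rw [key]
  exact IsSemilinearSet.biUnion hS fun L _ => IsSemilinearSet.biUnion_finset fun J _ =>
    (IsSemilinearSet.closure_finset _).vadd _

end Pool.Agent.Lib.P675cc6
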