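import Mathlib
import Pool.Agent.Lib.P675cc6.Sat

/-!
Good sets: sets parametrised by amalgamation systems with semilinear saturations.
-/

namespace Pool.Agent.Lib.P675cc6

open Set Pointwise AddSubmonoid

/-- An amalgamation system for a set `E` in a commutative monoid. -/
structure GoodSys {M : Type} [AddCommMonoid M] (E : Set M) where
  O : Type
  le : O → O → Prop
  pre : IsPreorder O le
  wqo : WellQuasiOrdered le
  obs : O → M
  P : O → AddSubmonoid M
  mem : ∀ o, ∀ y ∈ P o, obs o + y ∈ E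
  surj : ∀ x ∈ E, ∃ o, obs o = x
  incr : ∀ o o', le o o' → ∃ y ∈ P o, obs o' = obs o + y
  semi : ∀ o, IsSemilinearSet (Sat (P o : Set M))

/-- Good sets. -/
def Good {M : Type} [AddCommMonoid M] (E : Set M) : Prop := Nonempty (GoodSys E)

section

variable {M N K : Type} [AddCommMonoid M] [AddCommMonoid N] [AddCommMonoid K]

theorem GoodSys.obs_mem {E : Set M} (S : GoodSys E) (o : S.O) : S.obs o ∈ E := by
  simpa using S.mem o 0 (S.P o).zero_mem

theorem good_linear [AddMonoid.FG M] (c : M) (t : Finset M) :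
    Good (c +ᵥ (AddSubmonoid.closure (t : Set M) : Set M)) := by
  classical
  refine ⟨{ O := t → ℕ, le := (· ≤ ·), pre := inferInstance, wqo := wellQuasiOrdered_le,
            obs := fun k => c + ∑ p : t, k p • (p : M)
            P := fun _ => AddSubmonoid.closure (t : Set M)
            mem := ?_, surj := ?_, incr := ?_, semi := ?_ }⟩
  · intro k y hy
    refine ⟨∑ p : t, k p • (p : M) + y, ?_, ?_⟩
    · exact add_mem (sum_mem fun p _ => nsmul_mem (mem_closure_of_mem p.2) _) hy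
    · dsimp only
      rw [vadd_eq_add, add_assoc]
  · rintro x ⟨y, hy, rfl⟩
    rw [SetLike.mem_coe, mem_closure_finset] at hy
    obtain ⟨g, -, rfl⟩ := hy
    refine ⟨fun p => g p, ?_⟩
    dsimp only
    rw [vadd_eq_add]
    congr 1
    exact Finset.sum_coe_sort t (fun p => g p • p)
  · intro k k' hk
    refine ⟨∑ p : t, (k' p - k p) • (p : M), ?_, ?_⟩
    · exact sum_mem fun p _ => nsmul_mem (mem_closure_of_mem p.2) _
    · rw [add_assoc, ← Finset.sum_add_distrib]
      congr 1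
      refine Finset.sum_congr rfl fun p _ => ?_
      rw [← add_smul, Nat.add_sub_cancel' (hk p)]
  · intro _
    exact sat_semilinear _ (IsSemilinearSet.closure_finset _)

theorem good_empty : Good (∅ : Set M) := by
  refine ⟨{ O := Empty, le := fun _ _ => True,
            pre := { refl := fun x => x.elim, trans := fun x => x.elim }
            wqo := fun f => (f 0).elim
            obs := fun x => x.elim
            P := fun x => x.elim
            mem := fun x => x.elim, surj := fun x hx => hx.elim, incr := fun x => x.elim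
            semi := fun x => x.elim }⟩

theorem Good.union {E F : Set M} (hE : Good E) (hF : Good F) : Good (E ∪ F) := by
  obtain ⟨S⟩ := hE
  obtain ⟨T⟩ := hF
  have := S.pre
  have := T.pre
  refine ⟨{ O := S.O ⊕ T.O, le := Sum.LiftRel S.le T.le,
            pre := { refl := ?_, trans := ?_ }
            wqo := ?_
            obs := Sum.elim S.obs T.obs
            P := Sum.elim S.P T.P
            mem := ?_, surj := ?_, incr := ?_, semi := ?_ }⟩
  · rintro (x | x)
    · exact .inl (refl_of S.le x)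
    · exact .inr (refl_of T.le x)
  · rintro (x | x) (y | y) (z | z) hxy hyz <;> cases hxy <;> cases hyz
    · exact .inl (trans_of S.le ‹_› ‹_›)
    · exact .inr (trans_of T.le ‹_› ‹_›)
  · intro f
    -- pigeonhole
    by_cases h : ∀ n, ∃ m, n ≤ m ∧ (f m).isLeft
    · obtain ⟨φ, hφ⟩ : ∃ φ : ℕ → ℕ, StrictMono φ ∧ ∀ n, (f (φ n)).isLeft := by
        obtain ⟨φ, h1, h2⟩ := Nat.exists_strictMono_subsequence (P := fun n => (f n).isLeft)
          (fun n => by obtain ⟨m, hm, h⟩ := h (n + 1); exact ⟨m, hm, h⟩)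
        exact ⟨φ, h1, h2⟩
      obtain ⟨i, j, hij, hle⟩ := S.wqo (fun n => (f (φ n)).getLeft (hφ.2 n))
      refine ⟨φ i, φ j, hφ.1 hij, ?_⟩
      rw [← Sum.inl_getLeft _ (hφ.2 i), ← Sum.inl_getLeft _ (hφ.2 j)]
      exact .inl hle
    · push Not at h
      obtain ⟨n, hn⟩ := h
      have hr : ∀ m, (f (n + m)).isRight := by
        intro m
        have := hn (n + m) (Nat.le_add_right _ _)
        simpa using this
      obtain ⟨i, j, hij, hle⟩ := T.wqo (fun m => (f (n + m)).getRight (hr m))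
      refine ⟨n + i, n + j, by omega, ?_⟩
      rw [← Sum.inr_getRight _ (hr i), ← Sum.inr_getRight _ (hr j)]
      exact .inr hle
  · rintro (x | x) y hy
    · exact Or.inl (S.mem x y hy)
    · exact Or.inr (T.mem x y hy)
  · rintro x (hx | hx)
    · obtain ⟨o, rfl⟩ := S.surj x hx
      exact ⟨.inl o, rfl⟩
    · obtain ⟨o, rfl⟩ := T.surj x hx
      exact ⟨.inr o, rfl⟩
  · rintro (x | x) (y | y) hxy <;> cases hxy
    · exact S.incr _ _ ‹_›
    · exact T.incr _ _ ‹_›
  · rintro (x | x)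
    · exact S.semi x
    · exact T.semi x

theorem Good.of_eq {E F : Set M} (hE : Good E) (h : E = F) : Good F := h ▸ hE

theorem good_semilinear [AddMonoid.FG M] {E : Set M} (hE : IsSemilinearSet E) : Good E := by
  obtain ⟨S, hS, hlin, rfl⟩ := hE
  induction S, hS using Set.Finite.induction_on with
  | empty => simpa using good_empty
  | @insert L S _ _ ih =>
    rw [sUnion_insert]
    refine Good.union ?_ (ih fun t ht => hlin t (mem_insert_of_mem _ ht))
    obtain ⟨c, t, rfl⟩ := isLinearSet_iff.1 (hlin L (mem_insert _ _))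
    exact good_linear c t

theorem semilinear_prod [AddMonoid.FG M] [AddMonoid.FG N] {A : Set M} {B : Set N}
    (hA : IsSemilinearSet A) (hB : IsSemilinearSet B) : IsSemilinearSet (A ×ˢ B) := by
  have h1 := hA.preimage (AddMonoidHom.fst M N)
  have h2 := hB.preimage (AddMonoidHom.snd M N)
  exact h1.inter h2

theorem Good.prod [AddMonoid.FG M] [AddMonoid.FG N] {E : Set M} {F : Set N} (hE : Good E)
    (hF : Good F) : Good (E ×ˢ F) := by
  obtain ⟨S⟩ := hE
  obtain ⟨T⟩ := hF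
  have := S.pre
  have := T.pre
  refine ⟨{ O := S.O × T.O, le := fun x y => S.le x.1 y.1 ∧ T.le x.2 y.2,
            pre := { refl := fun x => ⟨refl_of S.le x.1, refl_of T.le x.2⟩
                     trans := fun x y z h h' =>
                      ⟨trans_of S.le h.1 h'.1, trans_of T.le h.2 h'.2⟩ }
            wqo := S.wqo.prod T.wqo
            obs := fun x => (S.obs x.1, T.obs x.2)
            P := fun x => (S.P x.1).prod (T.P x.2)
            mem := ?_, surj := ?_, incr := ?_, semi := ?_ }⟩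
  · rintro ⟨x, x'⟩ ⟨y, y'⟩ ⟨h1, h2⟩
    exact ⟨S.mem x y h1, T.mem x' y' h2⟩
  · rintro ⟨x, y⟩ ⟨hx, hy⟩
    obtain ⟨o, rfl⟩ := S.surj x hx
    obtain ⟨o', rfl⟩ := T.surj y hy
    exact ⟨(o, o'), rfl⟩
  · rintro ⟨x, x'⟩ ⟨y, y'⟩ ⟨h1, h2⟩
    obtain ⟨u, hu, h3⟩ := S.incr _ _ h1
    obtain ⟨v, hv, h4⟩ := T.incr _ _ h2
    exact ⟨(u, v), ⟨hu, hv⟩, Prod.ext h3 h4⟩
  · rintro ⟨x, x'⟩
    have : Sat (((S.P x).prod (T.P x') : AddSubmonoid (M × N)) : Set (M × N)) =
        Sat (S.P x : Set M) ×ˢ Sat (T.P x' : Set N) := by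
      ext ⟨a, b⟩
      constructor
      · rintro ⟨n, hn, h1, h2⟩
        exact ⟨⟨n, hn, h1⟩, ⟨n, hn, h2⟩⟩
      · rintro ⟨⟨n, hn, h1⟩, ⟨m, hm, h2⟩⟩
        refine ⟨n * m, Nat.mul_pos hn hm, ?_, ?_⟩
        · change (n * m) • a ∈ S.P x
          rw [mul_comm, mul_smul]
          exact nsmul_mem h1 _
        · change (n * m) • b ∈ T.P x'
          rw [mul_smul]
          exact nsmul_mem h2 _
    rw [this]
    exact semilinear_prod (S.semi x) (T.semi x')

theorem Good.image [AddMonoid.FG N] {E : Set M} (hE : Good E) (f : M →+ N) :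
    Good (f '' E) := by
  obtain ⟨S⟩ := hE
  have := S.pre
  refine ⟨{ O := S.O, le := S.le, pre := S.pre, wqo := S.wqo, obs := fun o => f (S.obs o)
            P := fun o => (S.P o).map f
            mem := ?_, surj := ?_, incr := ?_, semi := ?_ }⟩
  · rintro o _ ⟨y, hy, rfl⟩
    exact ⟨_, S.mem o y hy, map_add f _ _⟩
  · rintro _ ⟨x, hx, rfl⟩
    obtain ⟨o, rfl⟩ := S.surj x hx
    exact ⟨o, rfl⟩
  · intro o o' h
    obtain ⟨y, hy, h⟩ := S.incr _ _ h
    exact ⟨f y, ⟨y, hy, rfl⟩, by rw [h, map_add]⟩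
  · intro o
    have h1 : Sat (((S.P o).map f : AddSubmonoid N) : Set N) =
        Sat (((satSub (S.P o)).map f : AddSubmonoid N) : Set N) := by
      apply Subset.antisymm
      · apply sat_mono
        rintro _ ⟨y, hy, rfl⟩
        exact ⟨y, subset_sat _ hy, rfl⟩
      · rintro z ⟨n, hn, y, ⟨m, hm, hy⟩, hyz⟩
        refine ⟨m * n, Nat.mul_pos hm hn, m • y, hy, ?_⟩
        rw [map_nsmul, hyz, mul_smul]
    rw [h1]
    refine sat_semilinear _ ?_
    exact (S.semi o).image f

theorem Good.constraint [IsCancelAdd K] [IsAddTorsionFree K] [AddMonoid.FG M] {E : Set M}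
    (hE : Good E) (a b : K) (f g : M →+ K) : Good (E ∩ {x | a + f x = b + g x}) := by
  obtain ⟨S⟩ := hE
  have := S.pre
  refine ⟨{ O := {o : S.O // a + f (S.obs o) = b + g (S.obs o)}
            le := fun x y => S.le x.1 y.1
            pre := { refl := fun x => refl_of S.le x.1
                     trans := fun _ _ _ h h' => trans_of S.le h h' }
            wqo := fun f => S.wqo (fun n => (f n).1)
            obs := fun o => S.obs o.1
            P := fun o => S.P o.1 ⊓ AddMonoidHom.eqLocusM f g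
            mem := ?_, surj := ?_, incr := ?_, semi := ?_ }⟩
  · rintro ⟨o, ho⟩ y ⟨hy, hy'⟩
    refine ⟨S.mem o y hy, ?_⟩
    have hy'' : f y = g y := hy'
    simp only [mem_ofPred_eq, map_add, ← add_assoc, ho, hy'']
  · rintro x ⟨hx, hx'⟩
    obtain ⟨o, rfl⟩ := S.surj x hx
    exact ⟨⟨o, hx'⟩, rfl⟩
  · rintro ⟨o, ho⟩ ⟨o', ho'⟩ h
    obtain ⟨y, hy, h⟩ := S.incr _ _ h
    refine ⟨y, ⟨hy, ?_⟩, h⟩
    change f y = g y
    rw [h, map_add, map_add, ← add_assoc, ← add_assoc, ho] at ho'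
    exact add_left_cancel ho'
  · rintro ⟨o, ho⟩
    have h1 : ((S.P o ⊓ AddMonoidHom.eqLocusM f g : AddSubmonoid M) : Set M) =
        (S.P o : Set M) ∩ {x | f x = g x} := rfl
    have h2 : ∀ n : ℕ, 0 < n → ∀ z : M, n • z ∈ {x | f x = g x} ↔ z ∈ {x | f x = g x} := by
      intro n hn z
      simp only [mem_ofPred_eq, map_nsmul]
      constructor
      · intro h
        exact nsmul_right_injective hn.ne' h
      · intro h; rw [h]
    rw [h1, sat_inter_eq _ _ h2]
    refine (S.semi o).inter ?_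
    have := isSemilinearSet_setOfPred_eq (M := M) (0 : K) 0 f g
    simpa using this

theorem Good.inter [IsCancelAdd M] [IsAddTorsionFree M] [AddMonoid.FG M] {E F : Set M}
    (hE : Good E) (hF : Good F) : Good (E ∩ F) := by
  have h := ((hE.prod hF).constraint 0 0 (AddMonoidHom.fst M M) (AddMonoidHom.snd M M)).image
    (AddMonoidHom.fst M M)
  refine h.of_eq ?_
  ext x
  constructor
  · rintro ⟨⟨y, z⟩, ⟨⟨h1, h2⟩, h3⟩, rfl⟩
    simp only [mem_ofPred_eq, zero_add, AddMonoidHom.coe_fst, AddMonoidHom.coe_snd] at h1 h2 h3 ⊢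
    subst h3
    exact ⟨h1, h2⟩
  · rintro ⟨h1, h2⟩
    exact ⟨(x, x), ⟨⟨h1, h2⟩, rfl⟩, rfl⟩

/-- Composition of relations. -/
def relComp {X Y Z : Type} (A : Set (X × Y)) (B : Set (Y × Z)) : Set (X × Z) :=
  {p | ∃ m, (p.1, m) ∈ A ∧ (m, p.2) ∈ B}

theorem Good.comp [IsCancelAdd N] [IsAddTorsionFree N] [AddMonoid.FG M] [AddMonoid.FG N]
    [AddMonoid.FG K] {A : Set (M × N)} {B : Set (N × K)} (hA : Good A) (hB : Good B) :
    Good (relComp A B) := by
  have h := ((hA.prod hB).constraint 0 0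
    ((AddMonoidHom.snd M N).comp (AddMonoidHom.fst (M × N) (N × K)))
    ((AddMonoidHom.fst N K).comp (AddMonoidHom.snd (M × N) (N × K)))).image
    (((AddMonoidHom.fst M N).comp (AddMonoidHom.fst (M × N) (N × K))).prod
      ((AddMonoidHom.snd N K).comp (AddMonoidHom.snd (M × N) (N × K))))
  refine h.of_eq ?_
  ext ⟨x, z⟩
  constructor
  · rintro ⟨⟨⟨x', y⟩, ⟨y', z'⟩⟩, ⟨⟨h1, h2⟩, h3⟩, h4⟩
    simp only [mem_ofPred_eq, zero_add, AddMonoidHom.coe_comp, Function.comp_apply,
      AddMonoidHom.coe_fst, AddMonoidHom.coe_snd, AddMonoidHom.prod_apply, Prod.mk.injEq]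
      at h1 h2 h3 h4
    obtain ⟨rfl, rfl⟩ := h4
    subst h3
    exact ⟨y, h1, h2⟩
  · rintro ⟨m, h1, h2⟩
    exact ⟨((x, m), (m, z)), ⟨⟨h1, h2⟩, rfl⟩, rfl⟩

theorem semilinear_comp [AddMonoid.FG M] [AddMonoid.FG N]
    [AddMonoid.FG K] {A : Set (M × N)} {B : Set (N × K)} (hA : IsSemilinearSet A)
    (hB : IsSemilinearSet B) : IsSemilinearSet (relComp A B) := by
  have h := (((hA.preimage (((AddMonoidHom.fst M (N × K))).prod
      ((AddMonoidHom.fst N K).comp (AddMonoidHom.snd M (N × K))))).inter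
    (hB.preimage (AddMonoidHom.snd M (N × K))))).image
    ((AddMonoidHom.fst M (N × K)).prod ((AddMonoidHom.snd N K).comp
      (AddMonoidHom.snd M (N × K))))
  convert h using 1
  ext ⟨x, z⟩
  constructor
  · rintro ⟨m, h1, h2⟩
    exact ⟨(x, (m, z)), ⟨h1, h2⟩, rfl⟩
  · rintro ⟨⟨x', y, z'⟩, ⟨h1, h2⟩, h4⟩
    simp only [mem_preimage, AddMonoidHom.coe_comp, Function.comp_apply,
      AddMonoidHom.coe_fst, AddMonoidHom.coe_snd, AddMonoidHom.prod_apply, Prod.mk.injEq]
      at h1 h2 h4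
    obtain ⟨rfl, rfl⟩ := h4
    exact ⟨y, h1, h2⟩

/-- The finite decomposition of a good set. -/
theorem Good.decomp {E : Set M} (hE : Good E) : ∃ F : Set (M × AddSubmonoid M), F.Finite ∧
    (∀ x ∈ F, IsSemilinearSet (Sat (x.2 : Set M)) ∧ ∀ y ∈ x.2, x.1 + y ∈ E) ∧
    ∀ z ∈ E, ∃ x ∈ F, ∃ y ∈ x.2, z = x.1 + y := by
  classical
  obtain ⟨S⟩ := hE
  obtain ⟨F, hF⟩ : ∃ F : Finset S.O, ∀ y, ∃ x ∈ F, S.le x y := by
    by_contra hcon
    push Not at hcon
    obtain ⟨f, -, hf⟩ := exists_seq_of_forall_finset_exists (fun _ : S.O => True)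
      (fun x y => ¬ S.le x y) (fun F _ => by
        obtain ⟨y, hy⟩ := hcon F
        exact ⟨y, trivial, hy⟩)
    obtain ⟨m, n, hmn, h⟩ := S.wqo f
    exact hf m n hmn h
  refine ⟨(fun o => (S.obs o, S.P o)) '' (F : Set S.O), F.finite_toSet.image _, ?_, ?_⟩
  · rintro _ ⟨o, _, rfl⟩
    exact ⟨S.semi o, S.mem o⟩
  · intro z hz
    obtain ⟨o', rfl⟩ := S.surj z hz
    obtain ⟨o, ho, hle⟩ := hF o'
    obtain ⟨y, hy, h⟩ := S.incr _ _ hle
    exact ⟨_, ⟨o, ho, rfl⟩, y, hy, h⟩

/-- Good sets of natural numbers are semilinear. -/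
theorem Good.nat {E : Set ℕ} (hE : Good E) : IsSemilinearSet E := by
  obtain ⟨F, hF, h1, h2⟩ := hE.decomp
  have : E = ⋃ x ∈ F, (x.1 +ᵥ (x.2 : Set ℕ)) := by
    ext z
    simp only [mem_iUnion]
    constructor
    · intro hz
      obtain ⟨x, hx, y, hy, rfl⟩ := h2 z hz
      exact ⟨x, hx, y, hy, rfl⟩
    · rintro ⟨x, hx, y, hy, rfl⟩
      exact (h1 x hx).2 y hy
  rw [this]
  exact IsSemilinearSet.biUnion hF fun x _ =>
    (IsSemilinearSet.of_fg (Nat.addSubmonoid_fg x.2)).vadd _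

end

end Pool.Agent.Lib.P675cc6
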