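import Mathlib
import Pool.Agent.Lib.P675cc6.Good

/-!
Semilinearity of transitive saturated submonoids which agree with a semilinear one inside.
-/

namespace Pool.Agent.Lib.P675cc6

open Set Pointwise AddSubmonoid

theorem semilinear_of_pieces {M : Type} [AddCommMonoid M] {K : Set M} (F : Set (Set M))
    (hF : F.Finite) (hs : ∀ S ∈ F, IsSemilinearSet S) (hcov : ∀ x ∈ K, ∃ S ∈ F, x ∈ S)
    (hdich : ∀ S ∈ F, (S ∩ K).Nonempty → S ⊆ K) : IsSemilinearSet K := by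
  have : K = ⋃ S ∈ {S ∈ F | (S ∩ K).Nonempty}, S := by
    ext x
    simp only [mem_iUnion, mem_ofPred_eq]
    constructor
    · intro hx
      obtain ⟨S, hS, hxS⟩ := hcov x hx
      exact ⟨S, ⟨hS, ⟨x, hxS, hx⟩⟩, hxS⟩
    · rintro ⟨S, ⟨hS, hne⟩, hx⟩
      exact hdich S hS hne hx
  rw [this]
  exact IsSemilinearSet.biUnion (hF.subset fun S hS => hS.1) fun S hS => hs S hS.1

theorem line_up (K : AddSubmonoid (ℕ × ℕ)) (hrefl : ∀ a, (a, a) ∈ K)
    (htrans : ∀ a b c, (a, b) ∈ K → (b, c) ∈ K → (a, c) ∈ K)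
    (hsat : ∀ n : ℕ, 0 < n → ∀ p, n • p ∈ K → p ∈ K) {a b : ℕ} (hab : (a, b) ∈ K) (ha : 0 < a)
    (hlt : a < b) {a' b' : ℕ} (ha' : 0 < a') (hlt' : a' < b') : (a', b') ∈ K := by
  obtain ⟨d, rfl⟩ := Nat.exists_eq_add_of_lt hlt
  obtain ⟨e, rfl⟩ := Nat.exists_eq_add_of_lt hlt'
  have h1 : ∀ v, a ≤ v → (v, v + (d + 1)) ∈ K := by
    intro v hv
    obtain ⟨w, rfl⟩ := Nat.exists_eq_add_of_le hv
    have := K.add_mem hab (hrefl w)
    rwa [Prod.mk_add_mk, show a + d + 1 + w = a + w + (d + 1) by ring] at this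
  have h2 : ∀ k v, a ≤ v → (v, v + k * (d + 1)) ∈ K := by
    intro k
    induction k with
    | zero => intro v _; simpa using hrefl v
    | succ k ih =>
      intro v hv
      have := htrans _ _ _ (ih v hv) (h1 (v + k * (d + 1)) (by omega))
      rwa [show v + k * (d + 1) + (d + 1) = v + (k + 1) * (d + 1) by ring] at this
  refine hsat (a * (d + 1)) (Nat.mul_pos ha (Nat.succ_pos _)) _ ?_
  have := h2 (a * (e + 1)) (a * (d + 1) * a') (by
    calc a = a * 1 * 1 := by ring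
      _ ≤ a * (d + 1) * a' := Nat.mul_le_mul (Nat.mul_le_mul le_rfl (by omega)) ha')
  rw [Prod.smul_mk, smul_eq_mul, smul_eq_mul]
  rwa [show a * (d + 1) * a' + a * (e + 1) * (d + 1) = a * (d + 1) * (a' + e + 1) by ring] at this

/-- Pairs of monoid homomorphism type. -/
def homNN (a b c d : ℕ) : ℕ × ℕ →+ ℕ × ℕ where
  toFun p := (a * p.1 + b * p.2, c * p.1 + d * p.2)
  map_zero' := by simp
  map_add' x y := by ext <;> simp <;> ring

theorem line_semilinear (K : AddSubmonoid (ℕ × ℕ)) (hrefl : ∀ a, (a, a) ∈ K)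
    (htrans : ∀ a b c, (a, b) ∈ K → (b, c) ∈ K → (a, c) ∈ K)
    (hsat : ∀ n : ℕ, 0 < n → ∀ p, n • p ∈ K → p ∈ K) : IsSemilinearSet (K : Set (ℕ × ℕ)) := by
  classical
  let A1 : Set (ℕ × ℕ) := {p | 0 < p.1 ∧ p.1 < p.2}
  let A2 : Set (ℕ × ℕ) := {p | 0 < p.2 ∧ p.2 < p.1}
  let A3 : Set (ℕ × ℕ) := {p | p.1 = 0 ∧ 0 < p.2}
  let A4 : Set (ℕ × ℕ) := {p | 0 < p.1 ∧ p.2 = 0}
  let A5 : Set (ℕ × ℕ) := {p | p.1 = p.2}
  have s1 : IsSemilinearSet A1 := by
    convert ((IsSemilinearSet.univ (M := ℕ × ℕ)).image (homNN 1 0 1 1)).vadd ((1, 2) : ℕ × ℕ)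
      using 1
    ext ⟨x, y⟩
    constructor
    · rintro ⟨h1, h2⟩
      dsimp only at h1 h2
      exact ⟨_, ⟨(x - 1, y - x - 1), mem_univ _, rfl⟩, by
        simp only [homNN, AddMonoidHom.coe_mk, ZeroHom.coe_mk, vadd_eq_add, Prod.mk_add_mk,
          Prod.mk.injEq]
        omega⟩
    · rintro ⟨_, ⟨⟨u, v⟩, -, rfl⟩, h⟩
      simp only [homNN, AddMonoidHom.coe_mk, ZeroHom.coe_mk, vadd_eq_add, Prod.mk_add_mk,
          Prod.mk.injEq] at h
      change 0 < x ∧ x < y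
      omega
  have s2 : IsSemilinearSet A2 := by
    convert ((IsSemilinearSet.univ (M := ℕ × ℕ)).image (homNN 1 1 1 0)).vadd ((2, 1) : ℕ × ℕ)
      using 1
    ext ⟨x, y⟩
    constructor
    · rintro ⟨h1, h2⟩
      dsimp only at h1 h2
      exact ⟨_, ⟨(y - 1, x - y - 1), mem_univ _, rfl⟩, by
        simp only [homNN, AddMonoidHom.coe_mk, ZeroHom.coe_mk, vadd_eq_add, Prod.mk_add_mk,
          Prod.mk.injEq]
        omega⟩
    · rintro ⟨_, ⟨⟨u, v⟩, -, rfl⟩, h⟩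
      simp only [homNN, AddMonoidHom.coe_mk, ZeroHom.coe_mk, vadd_eq_add, Prod.mk_add_mk,
          Prod.mk.injEq] at h
      change 0 < y ∧ y < x
      omega
  have s3 : IsSemilinearSet A3 := by
    convert ((IsSemilinearSet.univ (M := ℕ × ℕ)).image (homNN 0 0 1 0)).vadd ((0, 1) : ℕ × ℕ)
      using 1
    ext ⟨x, y⟩
    constructor
    · rintro ⟨h1, h2⟩
      dsimp only at h1 h2
      exact ⟨_, ⟨(y - 1, 0), mem_univ _, rfl⟩, by
        simp only [homNN, AddMonoidHom.coe_mk, ZeroHom.coe_mk, vadd_eq_add, Prod.mk_add_mk,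
          Prod.mk.injEq]
        omega⟩
    · rintro ⟨_, ⟨⟨u, v⟩, -, rfl⟩, h⟩
      simp only [homNN, AddMonoidHom.coe_mk, ZeroHom.coe_mk, vadd_eq_add, Prod.mk_add_mk,
          Prod.mk.injEq] at h
      change x = 0 ∧ 0 < y
      omega
  have s4 : IsSemilinearSet A4 := by
    convert ((IsSemilinearSet.univ (M := ℕ × ℕ)).image (homNN 1 0 0 0)).vadd ((1, 0) : ℕ × ℕ)
      using 1
    ext ⟨x, y⟩
    constructor
    · rintro ⟨h1, h2⟩
      dsimp only at h1 h2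
      exact ⟨_, ⟨(x - 1, 0), mem_univ _, rfl⟩, by
        simp only [homNN, AddMonoidHom.coe_mk, ZeroHom.coe_mk, vadd_eq_add, Prod.mk_add_mk,
          Prod.mk.injEq]
        omega⟩
    · rintro ⟨_, ⟨⟨u, v⟩, -, rfl⟩, h⟩
      simp only [homNN, AddMonoidHom.coe_mk, ZeroHom.coe_mk, vadd_eq_add, Prod.mk_add_mk,
          Prod.mk.injEq] at h
      change 0 < x ∧ y = 0
      omega
  have s5 : IsSemilinearSet A5 := by
    have := isSemilinearSet_setOfPred_eq (M := ℕ × ℕ) (0 : ℕ) 0 (AddMonoidHom.fst ℕ ℕ)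
      (AddMonoidHom.snd ℕ ℕ)
    simpa using this
  refine semilinear_of_pieces {A1, A2, A3, A4, A5} (by simp) ?_ ?_ ?_
  · rintro S (rfl | rfl | rfl | rfl | rfl) <;> assumption
  · rintro ⟨x, y⟩ -
    rcases lt_trichotomy x y with h | h | h
    · rcases Nat.eq_zero_or_pos x with hx | hx
      · exact ⟨A3, by simp, hx, show 0 < y by omega⟩
      · exact ⟨A1, by simp, hx, h⟩
    · exact ⟨A5, by simp, h⟩
    · rcases Nat.eq_zero_or_pos y with hx | hx
      · exact ⟨A4, by simp, show 0 < x by omega, hx⟩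
      · exact ⟨A2, by simp, hx, h⟩
  · rintro S (rfl | rfl | rfl | rfl | rfl) ⟨⟨a, b⟩, hab, hK⟩ ⟨a', b'⟩ hab'
    · exact line_up K hrefl htrans hsat hK hab.1 hab.2 hab'.1 hab'.2
    · have hK' : (b, a) ∈ K.comap (homNN 0 1 1 0) := by
        rw [mem_comap]; simpa [homNN] using hK
      have := line_up (K.comap (homNN 0 1 1 0)) (by
          intro a; rw [mem_comap]; simpa [homNN] using hrefl a) (by
          intro a b c h1 h2
          rw [mem_comap] at *
          simp only [homNN, AddMonoidHom.coe_mk, ZeroHom.coe_mk, zero_mul, one_mul, zero_add,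
            add_zero] at *
          exact htrans _ _ _ h2 h1) (by
          intro n hn p hp
          rw [mem_comap, map_nsmul] at hp
          exact hsat n hn _ hp) hK' hab.1 hab.2 hab'.1 hab'.2
      rw [mem_comap] at this
      simpa [homNN] using this
    · obtain ⟨h1, h2⟩ := hab
      obtain ⟨h3, h4⟩ := hab'
      dsimp only at h1 h2 h3 h4
      subst h1 h3
      refine hsat b h2 _ ?_
      have := K.nsmul_mem hK b'
      rw [Prod.smul_mk, smul_zero, smul_eq_mul] at this ⊢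
      rwa [mul_comm]
    · obtain ⟨h1, h2⟩ := hab
      obtain ⟨h3, h4⟩ := hab'
      dsimp only at h1 h2 h3 h4
      subst h2 h4
      refine hsat a h1 _ ?_
      have := K.nsmul_mem hK a'
      rw [Prod.smul_mk, smul_zero, smul_eq_mul] at this ⊢
      rwa [mul_comm]
    · obtain rfl : a' = b' := hab'
      exact hrefl _

/-- The configurations. -/
abbrev V := ℕ × ℕ

theorem cone_semilinear (K W : AddSubmonoid (V × V)) (hWs : IsSemilinearSet (W : Set (V × V)))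
    (hKW : K ≤ W) (hrefl : ∀ x, (x, x) ∈ K)
    (htrans : ∀ x y z, (x, y) ∈ K → (y, z) ∈ K → (x, z) ∈ K)
    (hsat : ∀ n : ℕ, 0 < n → ∀ p, n • p ∈ K → p ∈ K)
    (hint : ∀ p ∈ W, 0 < p.1.1 → 0 < p.1.2 → 0 < p.2.1 → 0 < p.2.2 → p ∈ K) :
    IsSemilinearSet (K : Set (V × V)) := by
  -- the part of `K` with interior target
  have hT : IsSemilinearSet {p : V × V | p ∈ K ∧ 0 < p.2.1 ∧ 0 < p.2.2} := by
    refine face_semilinear W hWs _ (fun p hp => hKW hp.1) ?_ ?_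
    · rintro ⟨x, y⟩ ⟨hK, h1, h2⟩ ⟨u, v⟩ huv
      refine ⟨?_, Nat.add_pos_left h1 _, Nat.add_pos_left h2 _⟩
      refine htrans _ (y + u) _ (K.add_mem hK (hrefl u)) ?_
      refine hint _ ?_ (Nat.add_pos_left h1 _) (Nat.add_pos_left h2 _)
        (Nat.add_pos_left h1 _) (Nat.add_pos_left h2 _)
      exact W.add_mem (hKW (hrefl y)) huv
    · rintro ⟨x, y⟩ hp n hn ⟨h1, h2, h3⟩
      refine ⟨hsat n hn _ h1, ?_, ?_⟩
      · have h2' : 0 < n * y.1 := h2
        exact Nat.pos_of_ne_zero (right_ne_zero_of_mul h2'.ne')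
      · have h3' : 0 < n * y.2 := h3
        exact Nat.pos_of_ne_zero (right_ne_zero_of_mul h3'.ne')
  have hS : IsSemilinearSet {p : V × V | p ∈ K ∧ 0 < p.1.1 ∧ 0 < p.1.2} := by
    refine face_semilinear W hWs _ (fun p hp => hKW hp.1) ?_ ?_
    · rintro ⟨x, y⟩ ⟨hK, h1, h2⟩ ⟨u, v⟩ huv
      refine ⟨?_, Nat.add_pos_left h1 _, Nat.add_pos_left h2 _⟩
      refine htrans _ (x + v) _ ?_ (K.add_mem hK (hrefl v))
      refine hint _ ?_ (Nat.add_pos_left h1 _) (Nat.add_pos_left h2 _)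
        (Nat.add_pos_left h1 _) (Nat.add_pos_left h2 _)
      exact W.add_mem (hKW (hrefl x)) huv
    · rintro ⟨x, y⟩ hp n hn ⟨h1, h2, h3⟩
      refine ⟨hsat n hn _ h1, ?_, ?_⟩
      · have h2' : 0 < n * x.1 := h2
        exact Nat.pos_of_ne_zero (right_ne_zero_of_mul h2'.ne')
      · have h3' : 0 < n * x.2 := h3
        exact Nat.pos_of_ne_zero (right_ne_zero_of_mul h3'.ne')
  -- the part with `x + y` in the interior
  let f : V × V →+ V × V := ((AddMonoidHom.fst V V) + (AddMonoidHom.fst V V)).prod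
    ((AddMonoidHom.fst V V) + (AddMonoidHom.snd V V))
  let g : V × V →+ V × V := ((AddMonoidHom.fst V V) + (AddMonoidHom.snd V V)).prod
    ((AddMonoidHom.snd V V) + (AddMonoidHom.snd V V))
  have hM : IsSemilinearSet {p : V × V | p ∈ K ∧ 0 < (p.1 + p.2).1 ∧ 0 < (p.1 + p.2).2} := by
    convert (hT.preimage f).inter (hS.preimage g) using 1
    ext ⟨x, y⟩
    constructor
    · rintro ⟨hK, h1, h2⟩
      exact ⟨⟨K.add_mem (hrefl x) hK, h1, h2⟩, ⟨K.add_mem hK (hrefl y), h1, h2⟩⟩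
    · rintro ⟨⟨hK1, h1, h2⟩, ⟨hK2, -, -⟩⟩
      refine ⟨hsat 2 two_pos _ ?_, h1, h2⟩
      have h3 : (x + x, x + y) ∈ K := hK1
      have h4 : (x + y, y + y) ∈ K := hK2
      have h5 := htrans _ _ _ h3 h4
      rwa [Prod.smul_mk, two_smul, two_smul]
  -- the axes
  let a1 : V →+ V × V := ((AddMonoidHom.inr ℕ ℕ).comp (AddMonoidHom.fst ℕ ℕ)).prod
    ((AddMonoidHom.inr ℕ ℕ).comp (AddMonoidHom.snd ℕ ℕ))
  let a2 : V →+ V × V := ((AddMonoidHom.inl ℕ ℕ).comp (AddMonoidHom.fst ℕ ℕ)).prod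
    ((AddMonoidHom.inl ℕ ℕ).comp (AddMonoidHom.snd ℕ ℕ))
  have hA1 : IsSemilinearSet ((K.comap a1 : AddSubmonoid V) : Set V) := by
    refine line_semilinear _ ?_ ?_ ?_
    · intro a; exact hrefl _
    · intro a b c h1 h2; exact htrans _ _ _ h1 h2
    · intro n hn p hp
      rw [mem_comap, map_nsmul] at hp
      exact hsat n hn _ hp
  have hA2 : IsSemilinearSet ((K.comap a2 : AddSubmonoid V) : Set V) := by
    refine line_semilinear _ ?_ ?_ ?_
    · intro a; exact hrefl _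
    · intro a b c h1 h2; exact htrans _ _ _ h1 h2
    · intro n hn p hp
      rw [mem_comap, map_nsmul] at hp
      exact hsat n hn _ hp
  have : (K : Set (V × V)) = {p : V × V | p ∈ K ∧ 0 < (p.1 + p.2).1 ∧ 0 < (p.1 + p.2).2} ∪
      (a1 '' ((K.comap a1 : AddSubmonoid V) : Set V) ∪
        a2 '' ((K.comap a2 : AddSubmonoid V) : Set V)) := by
    ext ⟨⟨x1, x2⟩, ⟨y1, y2⟩⟩
    constructor
    · intro h
      rcases Nat.eq_zero_or_pos (x1 + y1) with h1 | h1
      · obtain ⟨rfl, rfl⟩ : x1 = 0 ∧ y1 = 0 := by omega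
        exact Or.inr (Or.inl ⟨(x2, y2), h, rfl⟩)
      · rcases Nat.eq_zero_or_pos (x2 + y2) with h2 | h2
        · obtain ⟨rfl, rfl⟩ : x2 = 0 ∧ y2 = 0 := by omega
          exact Or.inr (Or.inr ⟨(x1, y1), h, rfl⟩)
        · exact Or.inl ⟨h, h1, h2⟩
    · rintro (h | ⟨p, hp, h⟩ | ⟨p, hp, h⟩)
      · exact h.1
      · rw [← h]; exact hp
      · rw [← h]; exact hp
  rw [this]
  exact hM.union ((hA1.image a1).union (hA2.image a2))

end Pool.Agent.Lib.P675cc6
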