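import Mathlib
import Pool.Agent.Lib.P675cc6.Good

/-!
Walks with labels in a commutative monoid: Kleene's algorithm.
-/

namespace Pool.Agent.Lib.P675cc6

open Set Pointwise AddSubmonoid

section

variable {G : Type} [AddCommMonoid G]

/-- Walks with their total label. -/
inductive Wk (L : ℕ → ℕ → Set G) : ℕ → ℕ → G → Prop
  | nil (i : ℕ) : Wk L i i 0
  | cons {i k j : ℕ} {d e : G} : d ∈ L i k → Wk L k j e → Wk L i j (d + e)

theorem Wk.single {L : ℕ → ℕ → Set G} {i j : ℕ} {d : G} (h : d ∈ L i j) : Wk L i j d := by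
  simpa using Wk.cons h (Wk.nil j)

theorem Wk.trans {L : ℕ → ℕ → Set G} {i k j : ℕ} {d e : G} (h1 : Wk L i k d) (h2 : Wk L k j e) :
    Wk L i j (d + e) := by
  induction h1 with
  | nil i => simpa using h2
  | cons h _ ih =>
    rw [add_assoc]
    exact .cons h (ih h2)

theorem Wk.mono {L L' : ℕ → ℕ → Set G} (hL : ∀ i j, L i j ⊆ L' i j) {i j : ℕ} {d : G}
    (h : Wk L i j d) : Wk L' i j d := by
  induction h with
  | nil i => exact .nil i
  | cons h _ ih => exact .cons (hL _ _ h) ih

/-- Kleene's algorithm. -/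
def klee (L : ℕ → ℕ → Set G) : ℕ → ℕ → ℕ → Set G
  | 0 => L
  | k + 1 => fun i j => klee L k i j ∪
      (klee L k i k + ((closure (klee L k k k) : AddSubmonoid G) : Set G) + klee L k k j)

theorem klee_semilinear {L : ℕ → ℕ → Set G} (hL : ∀ i j, IsSemilinearSet (L i j)) (k : ℕ) :
    ∀ i j, IsSemilinearSet (klee L k i j) := by
  induction k with
  | zero => exact hL
  | succ k ih =>
    intro i j
    exact (ih i j).union (((ih i k).add (ih k k).closure).add (ih k j))

theorem klee_wk {L : ℕ → ℕ → Set G} (k : ℕ) : ∀ i j, ∀ d ∈ klee L k i j, Wk L i j d := by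
  induction k with
  | zero => exact fun i j d h => .single h
  | succ k ih =>
    rintro i j d (h | ⟨_, ⟨a, ha, c, hc, rfl⟩, b, hb, rfl⟩)
    · exact ih _ _ _ h
    · refine ((ih _ _ _ ha).trans ?_).trans (ih _ _ _ hb)
      rw [SetLike.mem_coe] at hc
      refine closure_induction (motive := fun c _ => Wk L k k c) ?_ (Wk.nil k) ?_ hc
      · exact fun x hx => ih _ _ _ hx
      · exact fun x y _ _ hx hy => hx.trans hy

theorem klee_mono {L : ℕ → ℕ → Set G} (k : ℕ) (i j : ℕ) : L i j ⊆ klee L k i j := by
  induction k with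
  | zero => exact subset_rfl
  | succ k ih => exact ih.trans subset_union_left

theorem klee_trans {L : ℕ → ℕ → Set G} (k : ℕ) : ∀ q < k, ∀ i j,
    ∀ a ∈ klee L k i q, ∀ b ∈ klee L k q j, a + b ∈ klee L k i j := by
  induction k with
  | zero => intro q hq; omega
  | succ k ih =>
    intro q hq i j a ha b hb
    have hz : (0 : G) ∈ ((closure (klee L k k k) : AddSubmonoid G) : Set G) := zero_mem _
    rcases Nat.lt_succ_iff_lt_or_eq.1 hq with hq | rfl
    · rcases ha with ha | ⟨_, ⟨a1, ha1, c, hc, rfl⟩, a2, ha2, rfl⟩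
      · rcases hb with hb | ⟨_, ⟨b1, hb1, c', hc', rfl⟩, b2, hb2, rfl⟩
        · exact Or.inl (ih q hq _ _ _ ha _ hb)
        · refine Or.inr ⟨_, ⟨a + b1, ih q hq _ _ _ ha _ hb1, c', hc', rfl⟩, b2, hb2, ?_⟩
          dsimp only
          ac_rfl
      · rcases hb with hb | ⟨_, ⟨b1, hb1, c', hc', rfl⟩, b2, hb2, rfl⟩
        · refine Or.inr ⟨_, ⟨a1, ha1, c, hc, rfl⟩, a2 + b, ih q hq _ _ _ ha2 _ hb, ?_⟩
          dsimp only
          ac_rfl
        · refine Or.inr ⟨_, ⟨a1, ha1, c + (a2 + b1) + c', ?_, rfl⟩, b2, hb2, ?_⟩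
          · exact add_mem (add_mem hc (mem_closure_of_mem (ih q hq _ _ _ ha2 _ hb1))) hc'
          · dsimp only
            ac_rfl
    · have ha' : ∃ a1 ∈ klee L q i q, ∃ c ∈ (closure (klee L q q q) : AddSubmonoid G),
          a = a1 + c := by
        rcases ha with ha | ⟨_, ⟨a1, ha1, c, hc, rfl⟩, a2, ha2, rfl⟩
        · exact ⟨a, ha, 0, hz, by simp⟩
        · exact ⟨a1, ha1, c + a2, add_mem hc (mem_closure_of_mem ha2), by dsimp only; ac_rfl⟩
      have hb' : ∃ b1 ∈ klee L q q j, ∃ c ∈ (closure (klee L q q q) : AddSubmonoid G),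
          b = c + b1 := by
        rcases hb with hb | ⟨_, ⟨b1, hb1, c, hc, rfl⟩, b2, hb2, rfl⟩
        · exact ⟨b, hb, 0, hz, by simp⟩
        · exact ⟨b2, hb2, b1 + c, add_mem (mem_closure_of_mem hb1) hc, by dsimp only⟩
      obtain ⟨a1, ha1, c, hc, rfl⟩ := ha'
      obtain ⟨b1, hb1, c', hc', rfl⟩ := hb'
      refine Or.inr ⟨_, ⟨a1, ha1, c + c', add_mem hc hc', rfl⟩, b1, hb1, ?_⟩
      dsimp only
      ac_rfl

theorem wk_semilinear {L : ℕ → ℕ → Set G} (hL : ∀ i j, IsSemilinearSet (L i j)) {m : ℕ}
    (hm : ∀ i j, (L i j).Nonempty → i < m) (i j : ℕ) :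
    IsSemilinearSet {d | Wk L i j d} := by
  classical
  have key : {d | Wk L i j d} = klee L m i j ∪ (if i = j then {0} else ∅) := by
    ext d
    constructor
    · intro h
      induction h with
      | nil i => exact Or.inr (by simp)
      | @cons i k j d e hd _ ih =>
        rcases ih with ih | ih
        · by_cases hk : k < m
          · exact Or.inl (klee_trans m k hk _ _ _ (klee_mono _ _ _ hd) _ ih)
          · exfalso
            -- the rest of the walk starts at `k`
            rename_i h'
            cases h' with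
            | nil => 
              have : ∀ n i j, (klee L n i j).Nonempty → i < m := by
                intro n
                induction n with
                | zero => exact hm
                | succ n ihn =>
                  rintro i j ⟨d, h | ⟨_, ⟨a, ha, -⟩, -⟩⟩
                  · exact ihn _ _ ⟨_, h⟩
                  · exact ihn _ _ ⟨_, ha⟩
              exact hk (this _ _ _ ⟨_, ih⟩)
            | cons h'' _ => exact hk (hm _ _ ⟨_, h''⟩)
        · split_ifs at ih with hkj
          · subst hkj
            rw [mem_singleton_iff] at ih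
            subst ih
            rw [add_zero]
            exact Or.inl (klee_mono _ _ _ hd)
          · exact ih.elim
    · rintro (h | h)
      · exact klee_wk _ _ _ _ h
      · split_ifs at h with hij
        · subst hij
          rw [mem_singleton_iff] at h
          subst h
          exact .nil i
        · exact h.elim
  rw [key]
  refine (klee_semilinear hL m i j).union ?_
  split_ifs
  · exact IsSemilinearSet.singleton 0
  · exact IsSemilinearSet.empty

end

end Pool.Agent.Lib.P675cc6
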