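import Mathlib
import Pool.Agent.Lib.P675cc6.Kleene
import Pool.Agent.Lib.P675cc6.Cone

/-!
The reflexive transitive closure of a good shift-closed step relation with finitely many states
on pairs of natural numbers is good.
-/

namespace Pool.Agent.Lib.P675cc6

open Set Pointwise AddSubmonoid Relation

/-- Step sets: `((z, z'), (i, j))` is a step from configuration `z` in state `i` to
configuration `z'` in state `j`. -/
abbrev Steps := Set ((V × V) × (ℕ × ℕ))

/-- One step. -/
def Stp (E : Steps) (p q : ℕ × V) : Prop := ((p.2, q.2), (p.1, q.1)) ∈ E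

/-- Reachability. -/
def Rch (E : Steps) : ℕ × V → ℕ × V → Prop := ReflTransGen (Stp E)

def ShiftClosed (E : Steps) : Prop :=
  ∀ (z z' : V) (s : ℕ × ℕ) (x : V), ((z, z'), s) ∈ E → ((z + x, z' + x), s) ∈ E

theorem Rch.shift {E : Steps} (hs : ShiftClosed E) {i j : ℕ} {z z' : V}
    (h : Rch E (i, z) (j, z')) (x : V) : Rch E (i, z + x) (j, z' + x) := by
  have : ∀ p : ℕ × V, ∀ q : ℕ × V, Rch E p q → Rch E (p.1, p.2 + x) (q.1, q.2 + x) := by
    intro p q h
    induction h with
    | refl => exact .refl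
    | tail _ h ih => exact ih.tail (hs _ _ _ _ h)
  exact this _ _ h

/-- The closed pumps at state `i` and configuration `c`. -/
def TT (E : Steps) (hs : ShiftClosed E) (i : ℕ) (c : V) : AddSubmonoid (V × V) where
  carrier := {p | Rch E (i, c + p.1) (i, c + p.2)}
  zero_mem' := .refl
  add_mem' := by
    rintro ⟨x, y⟩ ⟨x', y'⟩ h h'
    have h1 : Rch E (i, c + x + x') (i, c + y + x') := h.shift hs x'
    have h2 : Rch E (i, c + x' + y) (i, c + y' + y) := h'.shift hs y
    change Rch E (i, c + (x + x')) (i, c + (y + y'))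
    rw [show c + (x + x') = c + x + x' by abel, show c + (y + y') = c + y' + y by abel]
    rw [show c + y + x' = c + x' + y by abel] at h1
    exact h1.trans h2

theorem mem_TT {E : Steps} {hs : ShiftClosed E} {i : ℕ} {c x y : V} :
    (x, y) ∈ TT E hs i c ↔ Rch E (i, c + x) (i, c + y) := Iff.rfl

/-- The displacement. -/
def delta : V × V →+ ℤ × ℤ where
  toFun p := ((p.2.1 : ℤ) - p.1.1, (p.2.2 : ℤ) - p.1.2)
  map_zero' := by simp
  map_add' x y := by ext <;> simp <;> ring

theorem delta_mk (x y : V) : delta (x, y) = ((y.1 : ℤ) - x.1, (y.2 : ℤ) - x.2) := rfl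

theorem delta_trans (x y z : V) : delta (x, y) + delta (y, z) = delta (x, z) := by
  simp only [delta_mk]
  ext <;> simp

theorem delta_inj {x y z : V} (h : delta (x, y) = delta (x, z)) : y = z := by
  simp only [delta_mk, Prod.mk.injEq] at h
  ext <;> omega

/-- The labels of the displacement graph. -/
def Lb (E : Steps) (i j : ℕ) : Set (ℤ × ℤ) := {d | ∃ z z' : V, ((z, z'), (i, j)) ∈ E ∧
  delta (z, z') = d}

theorem rch_wk {E : Steps} {p q : ℕ × V} (h : Rch E p q) :
    Wk (Lb E) p.1 q.1 (delta (p.2, q.2)) := by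
  induction h with
  | refl =>
    have : delta (p.2, p.2) = 0 := by simp [delta_mk]
    rw [this]
    exact .nil _
  | tail _ h ih =>
    rw [← delta_trans _ _ _]
    exact ih.trans (.single ⟨_, _, h, rfl⟩)

theorem wk_rch {E : Steps} (hs : ShiftClosed E) {i j : ℕ} {d : ℤ × ℤ} (h : Wk (Lb E) i j d) :
    ∃ B : V, ∀ z, B ≤ z → ∃ z', delta (z, z') = d ∧ Rch E (i, z) (j, z') := by
  induction h with
  | nil i => exact ⟨0, fun z _ => ⟨z, by simp [delta_mk], .refl⟩⟩
  | @cons i k j d e hd _ ih =>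
    obtain ⟨B, hB⟩ := ih
    obtain ⟨u, u', hu, rfl⟩ := hd
    refine ⟨u + B, fun z hz => ?_⟩
    obtain ⟨x, rfl⟩ := exists_add_of_le hz
    obtain ⟨z', h1, h2⟩ := hB (u' + (B + x)) (by
      rw [show u' + (B + x) = B + (u' + x) by abel]
      exact le_self_add)
    refine ⟨z', ?_, ?_⟩
    · rw [← h1]
      rw [← delta_trans (u + B + x) (u' + (B + x)) z']
      congr 1
      simp only [delta_mk]
      ext <;> simp <;> ring
    · have := hs _ _ _ (B + x) hu
      rw [← add_assoc] at this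
      exact ReflTransGen.head (b := (k, u' + (B + x))) this h2

/-- The displacements of closed walks. -/
def Disp (E : Steps) (i : ℕ) : AddSubmonoid (ℤ × ℤ) where
  carrier := {d | Wk (Lb E) i i d}
  zero_mem' := .nil i
  add_mem' h h' := h.trans h'

theorem mem_Disp {E : Steps} {i : ℕ} {d : ℤ × ℤ} : d ∈ Disp E i ↔ Wk (Lb E) i i d := Iff.rfl

/-- The pumps are constrained only by the displacement in the interior. -/
theorem interior_pump {E : Steps} (hs : ShiftClosed E) (i : ℕ) (c : V) {x y : V} {n : ℕ}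
    (hn : 0 < n) (hd : Wk (Lb E) i i (n • delta (x, y))) (hx1 : 0 < x.1) (hx2 : 0 < x.2)
    (hy1 : 0 < y.1) (hy2 : 0 < y.2) : (x, y) ∈ Sat (TT E hs i c : Set (V × V)) := by
  obtain ⟨B, hB⟩ := wk_rch hs hd
  set N := B.1 + B.2 + 1 with hN
  refine ⟨N * n, Nat.mul_pos (Nat.succ_pos _) hn, ?_⟩
  change Rch E (i, c + (N * n) • x) (i, c + (N * n) • y)
  have key : ∀ t, t ≤ N → Rch E (i, c + (N * n) • x)
      (i, c + (((N - t) * n) • x + (t * n) • y)) := by
    intro t
    induction t with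
    | zero => 
      intro _
      simp only [Nat.sub_zero, zero_mul, zero_smul, add_zero]
      exact .refl
    | succ t ih =>
      intro ht
      refine (ih (by omega)).trans ?_
      obtain ⟨M, hM⟩ : ∃ M, N = t + 1 + M := ⟨N - (t + 1), by omega⟩
      obtain ⟨z', h1, h2⟩ := hB (c + (((N - t) * n) • x + (t * n) • y)) (by
        have e1 : N ≤ (N - t) * n * x.1 + t * n * y.1 := by
          calc N = (N - t) * 1 * 1 + t * 1 * 1 := by omega
            _ ≤ _ := Nat.add_le_add (Nat.mul_le_mul (Nat.mul_le_mul le_rfl hn) hx1)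
                (Nat.mul_le_mul (Nat.mul_le_mul le_rfl hn) hy1)
        have e2 : N ≤ (N - t) * n * x.2 + t * n * y.2 := by
          calc N = (N - t) * 1 * 1 + t * 1 * 1 := by omega
            _ ≤ _ := Nat.add_le_add (Nat.mul_le_mul (Nat.mul_le_mul le_rfl hn) hx2)
                (Nat.mul_le_mul (Nat.mul_le_mul le_rfl hn) hy2)
        constructor
        · change B.1 ≤ c.1 + ((N - t) * n * x.1 + t * n * y.1)
          omega
        · change B.2 ≤ c.2 + ((N - t) * n * x.2 + t * n * y.2)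
          omega)
      have h3 : z' = c + (((N - (t + 1)) * n) • x + ((t + 1) * n) • y) := by
        apply delta_inj (h1.trans _)
        rw [show N - t = M + 1 by omega, show N - (t + 1) = M by omega]
        simp only [delta_mk]
        ext
        · simp; ring
        · simp; ring
      rw [← h3]
      exact h2
  have := key N le_rfl
  simpa using this

theorem satTT_le {E : Steps} (hs : ShiftClosed E) (i : ℕ) (c : V) :
    satSub (TT E hs i c) ≤ (satSub (Disp E i)).comap delta := by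
  rintro ⟨x, y⟩ ⟨n, hn, h⟩
  refine ⟨n, hn, ?_⟩
  have h1 : Rch E (i, c + n • x) (i, c + n • y) := h
  have h2 := rch_wk h1
  rw [SetLike.mem_coe, ← map_nsmul]
  change Wk (Lb E) i i _
  convert h2 using 1
  simp only [delta_mk, Prod.smul_mk]
  ext <;> simp

/-- The bounded states. -/
def Bdd (E : Steps) (m : ℕ) : Prop := ∀ z z' : V, ∀ i j : ℕ, ((z, z'), (i, j)) ∈ E → i < m ∧ j < m

theorem Bdd.zero {E : Steps} {m : ℕ} (hE : Bdd E m) {o : (V × V) × (ℕ × ℕ)}
    {P : AddSubmonoid ((V × V) × (ℕ × ℕ))} (h : ∀ y ∈ P, o + y ∈ E) {y : (V × V) × (ℕ × ℕ)}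
    (hy : y ∈ P) : y.2 = 0 := by
  have h1 := h _ (P.nsmul_mem hy m)
  have h2 := hE (o + m • y).1.1 (o + m • y).1.2 (o + m • y).2.1 (o + m • y).2.2 h1
  have h3 : o.2.1 + m * y.2.1 < m := h2.1
  have h4 : o.2.2 + m * y.2.2 < m := h2.2
  ext
  · by_contra hne
    have : m * 1 ≤ m * y.2.1 := Nat.mul_le_mul le_rfl (Nat.pos_of_ne_zero hne)
    omega
  · by_contra hne
    have : m * 1 ≤ m * y.2.2 := Nat.mul_le_mul le_rfl (Nat.pos_of_ne_zero hne)
    omega

theorem disp_semilinear {E : Steps} (hE : Good E) {m : ℕ} (hb : Bdd E m) (i : ℕ) :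
    IsSemilinearSet (Sat (Disp E i : Set (ℤ × ℤ))) := by
  obtain ⟨F, hF, hF1, hF2⟩ := hE.decomp
  -- the relaxed labels
  let L' : ℕ → ℕ → Set (ℤ × ℤ) := fun i j => ⋃ x ∈ {x ∈ F | x.1.2 = (i, j)},
    (delta x.1.1 +ᵥ (delta.comp (AddMonoidHom.fst (V × V) (ℕ × ℕ))) '' Sat (x.2 : Set _))
  have hL' : ∀ i j, IsSemilinearSet (L' i j) := by
    intro i j
    refine IsSemilinearSet.biUnion (hF.subset fun x hx => hx.1) fun x hx => ?_
    exact ((hF1 x hx.1).1.image _).vadd _
  have hsub : ∀ i j, Lb E i j ⊆ L' i j := by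
    rintro i j _ ⟨z, z', h, rfl⟩
    obtain ⟨x, hx, y, hy, heq⟩ := hF2 _ h
    have hy0 := hb.zero (hF1 x hx).2 hy
    simp only [L', mem_iUnion]
    refine ⟨x, ⟨hx, ?_⟩, _, ⟨y, subset_sat _ hy, rfl⟩, ?_⟩
    · have := congrArg Prod.snd heq
      rw [Prod.snd_add, hy0, add_zero] at this
      exact this.symm
    · have := congrArg Prod.fst heq
      rw [Prod.fst_add] at this
      dsimp only at this ⊢
      rw [this, map_add]
      rfl
  have hrelax : ∀ i j d, Wk L' i j d → ∃ b : ℤ × ℤ, ∃ N : ℕ, 0 < N ∧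
      ∀ k : ℕ, Wk (Lb E) i j (b + (k * N) • (d - b)) := by
    intro i j d h
    induction h with
    | nil i => exact ⟨0, 1, one_pos, fun k => by simpa using Wk.nil i⟩
    | @cons i k j d e hd _ ih =>
      obtain ⟨b, N, hN, hb'⟩ := ih
      simp only [L', mem_iUnion] at hd
      obtain ⟨x, ⟨hx, hx2⟩, _, ⟨s, ⟨n, hn, hs⟩, rfl⟩, rfl⟩ := hd
      refine ⟨delta x.1.1 + b, n * N, Nat.mul_pos hn hN, fun k' => ?_⟩
      have h1 := hb' (k' * n)
      have h2 : Wk (Lb E) i k (delta x.1.1 + (k' * N * n) • delta s.1) := by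
        refine .single ⟨(x.1.1 + (k' * N * n) • s.1).1, (x.1.1 + (k' * N * n) • s.1).2, ?_, ?_⟩
        · have h3 := (hF1 x hx).2 _ (x.2.nsmul_mem hs (k' * N))
          have h4 := hb.zero (hF1 x hx).2 (x.2.nsmul_mem hs (k' * N))
          rw [← mul_smul] at h3 h4
          have h5 : x.1 + (k' * N * n) • s = (x.1.1 + (k' * N * n) • s.1, (i, k)) := by
            refine Prod.ext rfl ?_
            rw [Prod.snd_add, h4, add_zero, hx2]
          rwa [h5] at h3
        · change delta (x.1.1 + (k' * N * n) • s.1) = _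
          rw [map_add, map_nsmul]
      have h6 := h2.trans h1
      convert h6 using 1
      simp only [AddMonoidHom.coe_comp, Function.comp_apply, AddMonoidHom.coe_fst, vadd_eq_add]
      rw [show k' * (n * N) = k' * N * n by ring, show k' * n * N = k' * N * n by ring]
      rw [show delta x.1.1 + delta s.1 + e - (delta x.1.1 + b) = delta s.1 + (e - b) by abel,
        smul_add]
      abel
  let Rel : AddSubmonoid (ℤ × ℤ) :=
    { carrier := {d | Wk L' i i d}
      zero_mem' := .nil i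
      add_mem' := fun h h' => h.trans h' }
  have hRel : IsSemilinearSet (Rel : Set (ℤ × ℤ)) := by
    refine wk_semilinear hL' (m := m) ?_ i i
    rintro i j ⟨d, hd⟩
    simp only [L', mem_iUnion] at hd
    obtain ⟨x, ⟨hx, hx2⟩, -⟩ := hd
    have := (hF1 x hx).2 0 x.2.zero_mem
    rw [add_zero] at this
    have h2 := hb x.1.1.1 x.1.1.2 x.1.2.1 x.1.2.2 this
    rw [hx2] at h2
    exact h2.1
  have : Sat (Disp E i : Set (ℤ × ℤ)) = Sat (Rel : Set (ℤ × ℤ)) := by
    apply Subset.antisymm
    · exact sat_mono fun d hd => Wk.mono hsub hd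
    · rw [← sat_sat (Disp E i : Set (ℤ × ℤ))]
      apply sat_mono
      intro d hd
      obtain ⟨b, N, hN, hb'⟩ := hrelax i i d hd
      refine ⟨N, hN, ?_⟩
      have h0 : b ∈ Disp E i := by simpa [mem_Disp] using hb' 0
      have h1 : b + N • (d - b) ∈ Disp E i := by simpa [mem_Disp] using hb' 1
      obtain ⟨N, rfl⟩ : ∃ N', N = N' + 1 := ⟨N - 1, by omega⟩
      have h2 := (Disp E i).add_mem h1 ((Disp E i).nsmul_mem h0 N)
      rw [SetLike.mem_coe]
      convert h2 using 1
      rw [smul_sub, succ_nsmul b N]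
      abel
  rw [this]
  exact sat_semilinear _ hRel

instance : AddMonoid.FG (ℤ × ℤ) := inferInstance

/-- The saturated pumps are semilinear. -/
theorem satTT_semilinear {E : Steps} (hE : Good E) (hs : ShiftClosed E) {m : ℕ} (hb : Bdd E m)
    (i : ℕ) (c : V) : IsSemilinearSet (Sat (TT E hs i c : Set (V × V))) := by
  refine cone_semilinear (satSub (TT E hs i c)) ((satSub (Disp E i)).comap delta)
    ((disp_semilinear hE hb i).preimage delta) (satTT_le hs i c) ?_ ?_ ?_ ?_
  · intro x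
    exact subset_sat _ (show Rch E _ _ from .refl)
  · rintro x y z ⟨n, hn, h1⟩ ⟨n', hn', h2⟩
    refine ⟨n * n', Nat.mul_pos hn hn', ?_⟩
    have h3 : (n' • n • x, n' • n • y) ∈ TT E hs i c := (TT E hs i c).nsmul_mem h1 n'
    have h4 : (n • n' • y, n • n' • z) ∈ TT E hs i c := (TT E hs i c).nsmul_mem h2 n
    rw [mem_TT] at h3 h4
    change Rch E (i, c + (n * n') • x) (i, c + (n * n') • z)
    rw [← mul_smul, ← mul_smul, mul_comm n' n] at h3
    rw [← mul_smul, ← mul_smul] at h4
    exact h3.trans h4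
  · intro n hn p hp
    rw [mem_satSub] at *
    rw [← sat_sat]
    exact ⟨n, hn, hp⟩
  · rintro ⟨x, y⟩ ⟨n, hn, h⟩ h1 h2 h3 h4
    exact interior_pump hs i c hn h h1 h2 h3 h4

end Pool.Agent.Lib.P675cc6
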