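import Mathlib
import Pool.Agent.Lib.P675cc6.Star

/-!
Path objects: the reachability relation of a good step set is good.
-/

namespace Pool.Agent.Lib.P675cc6

open Set Pointwise AddSubmonoid Relation

section

variable {M N K : Type} [AddCommMonoid M] [AddCommMonoid N] [AddCommMonoid K]

/-- Composition of submonoids. -/
def compSub (A : AddSubmonoid (M × N)) (B : AddSubmonoid (N × K)) : AddSubmonoid (M × K) where
  carrier := relComp (A : Set (M × N)) (B : Set (N × K))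
  zero_mem' := ⟨0, A.zero_mem, B.zero_mem⟩
  add_mem' := by
    rintro ⟨x, y⟩ ⟨x', y'⟩ ⟨m, h1, h2⟩ ⟨m', h3, h4⟩
    exact ⟨m + m', A.add_mem h1 h3, B.add_mem h2 h4⟩

theorem mem_compSub {A : AddSubmonoid (M × N)} {B : AddSubmonoid (N × K)} {x : M} {y : K} :
    (x, y) ∈ compSub A B ↔ ∃ m, (x, m) ∈ A ∧ (m, y) ∈ B := Iff.rfl

theorem sat_compSub [AddMonoid.FG M] [AddMonoid.FG N] [AddMonoid.FG K]
    {A : AddSubmonoid (M × N)} {B : AddSubmonoid (N × K)}
    (hA : IsSemilinearSet (Sat (A : Set (M × N)))) (hB : IsSemilinearSet (Sat (B : Set (N × K)))) :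
    IsSemilinearSet (Sat (compSub A B : Set (M × K))) := by
  have h : Sat (compSub A B : Set (M × K)) =
      Sat (compSub (satSub A) (satSub B) : Set (M × K)) := by
    apply Subset.antisymm
    · apply sat_mono
      rintro ⟨x, y⟩ ⟨m, h1, h2⟩
      exact ⟨m, subset_sat _ h1, subset_sat _ h2⟩
    · rw [← sat_sat (compSub A B : Set (M × K))]
      apply sat_mono
      rintro ⟨x, y⟩ ⟨m, ⟨n1, hn1, h1⟩, ⟨n2, hn2, h2⟩⟩
      refine ⟨n1 * n2, Nat.mul_pos hn1 hn2, (n1 * n2) • m, ?_, ?_⟩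
      · have := A.nsmul_mem h1 n2
        rw [← mul_smul, mul_comm n2 n1] at this
        exact this
      · have := B.nsmul_mem h2 n1
        rw [← mul_smul] at this
        exact this
  rw [h]
  exact sat_semilinear _ (semilinear_comp hA hB)

theorem sat_map_semilinear [AddMonoid.FG N] {P : AddSubmonoid M}
    (hP : IsSemilinearSet (Sat (P : Set M))) (f : M →+ N) :
    IsSemilinearSet (Sat ((P.map f : AddSubmonoid N) : Set N)) := by
  have h1 : Sat ((P.map f : AddSubmonoid N) : Set N) =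
      Sat (((satSub P).map f : AddSubmonoid N) : Set N) := by
    apply Subset.antisymm
    · apply sat_mono
      rintro _ ⟨y, hy, rfl⟩
      exact ⟨y, subset_sat _ hy, rfl⟩
    · rintro z ⟨n, hn, y, ⟨m, hm, hy⟩, hyz⟩
      refine ⟨m * n, Nat.mul_pos hm hn, m • y, hy, ?_⟩
      rw [map_nsmul, hyz, mul_smul]
  rw [h1]
  exact sat_semilinear _ (hP.image f)

end

/-- The diagonal. -/
def diagSub : AddSubmonoid (V × V) := AddMonoidHom.eqLocusM (AddMonoidHom.fst V V)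
  (AddMonoidHom.snd V V)

theorem mem_diagSub {x y : V} : (x, y) ∈ diagSub ↔ x = y := Iff.rfl

theorem sat_diagSub : IsSemilinearSet (Sat (diagSub : Set (V × V))) := by
  refine sat_semilinear _ ?_
  have := isSemilinearSet_setOfPred_eq (M := V × V) (0 : V) 0 (AddMonoidHom.fst V V)
    (AddMonoidHom.snd V V)
  convert this using 1
  ext ⟨x, y⟩
  simp [mem_diagSub]

/-- The pump submonoid of a list of steps. -/
def PW {E : Steps} (S : GoodSys E) (hs : ShiftClosed E) : List S.O → AddSubmonoid (V × V)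
  | [] => diagSub
  | o :: l => compSub ((S.P o).map (AddMonoidHom.fst (V × V) (ℕ × ℕ)))
      (compSub (TT E hs (S.obs o).2.2 (S.obs o).1.2) (PW S hs l))

theorem sat_PW {E : Steps} (S : GoodSys E) (hE : Good E) (hs : ShiftClosed E) {m : ℕ}
    (hb : Bdd E m) (l : List S.O) : IsSemilinearSet (Sat (PW S hs l : Set (V × V))) := by
  induction l with
  | nil => exact sat_diagSub
  | cons o l ih =>
    exact sat_compSub (sat_map_semilinear (S.semi o) _)
      (sat_compSub (satTT_semilinear hE hs hb _ _) ih)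

/-- Paths as lists of step objects. -/
def IsPath {E : Steps} (S : GoodSys E) : ℕ → V → List S.O → ℕ → V → Prop
  | i, z, [], j, z' => i = j ∧ z = z'
  | i, z, o :: l, j, z' => (S.obs o).2.1 = i ∧ (S.obs o).1.1 = z ∧
      IsPath S (S.obs o).2.2 (S.obs o).1.2 l j z'

theorem IsPath.rch {E : Steps} (S : GoodSys E) (l : List S.O) : ∀ {i : ℕ} {z : V} {j : ℕ} {z' : V},
    IsPath S i z l j z' → Rch E (i, z) (j, z') := by
  induction l with
  | nil =>
    rintro i z j z' ⟨rfl, rfl⟩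
    exact .refl
  | cons o l ih =>
    rintro i z j z' ⟨rfl, rfl, h⟩
    exact ReflTransGen.head (b := ((S.obs o).2.2, (S.obs o).1.2)) (S.obs_mem o) (ih h)

theorem Rch.exists_path {E : Steps} (S : GoodSys E) {p q : ℕ × V} (h : Rch E p q) :
    ∃ l, IsPath S p.1 p.2 l q.1 q.2 := by
  induction h using ReflTransGen.head_induction_on with
  | refl => exact ⟨[], rfl, rfl⟩
  | head h _ ih =>
    obtain ⟨l, hl⟩ := ih
    obtain ⟨o, ho⟩ := S.surj _ h
    refine ⟨o :: l, ?_⟩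
    simp only [IsPath]
    rw [ho]
    exact ⟨rfl, rfl, hl⟩

/-- The pumps of a path can be executed. -/
theorem pump_path {E : Steps} (S : GoodSys E) (hs : ShiftClosed E) {m : ℕ} (hb : Bdd E m)
    (l : List S.O) : ∀ {i : ℕ} {z : V} {j : ℕ} {z' : V}, IsPath S i z l j z' →
    ∀ x y, (x, y) ∈ PW S hs l → Rch E (i, z + x) (j, z' + y) := by
  induction l with
  | nil =>
    rintro i z j z' ⟨rfl, rfl⟩ x y h
    obtain rfl : x = y := h
    exact .refl
  | cons o l ih =>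
    rintro i z j z' ⟨rfl, rfl, h⟩ x y ⟨w, ⟨p, hp, hpe⟩, w', hT, hW⟩
    have h1 := S.mem o p hp
    have h2 := hb.zero (S.mem o) hp
    have h3 : p.1 = (x, w) := hpe
    have h4 : S.obs o + p = (((S.obs o).1.1 + x, (S.obs o).1.2 + w), (S.obs o).2) := by
      refine Prod.ext ?_ ?_
      · rw [Prod.fst_add, h3]; rfl
      · rw [Prod.snd_add, h2, add_zero]
    rw [h4] at h1
    exact (ReflTransGen.head (b := ((S.obs o).2.2, (S.obs o).1.2 + w)) h1
      (show Rch E _ _ from hT)).trans (ih h _ _ hW)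

/-- Embedded paths can be pumped to the larger one. -/
theorem path_incr {E : Steps} (S : GoodSys E) (hs : ShiftClosed E) {m : ℕ} (hb : Bdd E m)
    {l1 l2 : List S.O} (hl : List.SublistForall₂ S.le l1 l2) :
    ∀ {i1 : ℕ} {z1 : V} {j : ℕ} {z1' : V} {i2 : ℕ} {z2 : V} {y : V},
    IsPath S i1 z1 l1 j z1' → IsPath S i2 z2 l2 j (z1' + y) →
    ∃ x, Rch E (i2, z2) (i1, z1 + x) ∧ (x, y) ∈ PW S hs l1 := by
  induction hl with
  | nil =>
    rintro i1 z1 j z1' i2 z2 y ⟨rfl, rfl⟩ h2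
    exact ⟨y, h2.rch, rfl⟩
  | @cons o1 o2 l1 l2 ho _ ih =>
    rintro i1 z1 j z1' i2 z2 y ⟨rfl, rfl, h1⟩ ⟨rfl, rfl, h2⟩
    obtain ⟨p, hp, heq⟩ := S.incr _ _ ho
    have h3 := hb.zero (S.mem o1) hp
    have e1 : (S.obs o2).2 = (S.obs o1).2 := by rw [heq, Prod.snd_add, h3, add_zero]
    have e2 : (S.obs o2).1.1 = (S.obs o1).1.1 + p.1.1 := by rw [heq]; rfl
    have e3 : (S.obs o2).1.2 = (S.obs o1).1.2 + p.1.2 := by rw [heq]; rfl
    obtain ⟨x', h4, h5⟩ := ih h1 h2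
    rw [e1, e3] at h4
    refine ⟨p.1.1, ?_, p.1.2, ⟨p, hp, rfl⟩, x', h4, h5⟩
    rw [e1, e2]
    exact .refl
  | @cons_right o2 l1 l2 _ ih =>
    rintro i1 z1 j z1' i2 z2 y h1 ⟨rfl, rfl, h2⟩
    obtain ⟨x, h3, h4⟩ := ih h1 h2
    exact ⟨x, ReflTransGen.head (b := ((S.obs o2).2.2, (S.obs o2).1.2)) (S.obs_mem o2) h3, h4⟩

/-- The reachability relation is good. -/
theorem rch_good {E : Steps} (hE : Good E) (hs : ShiftClosed E) {m : ℕ} (hb : Bdd E m)
    (i j : ℕ) : Good {p : V × V | Rch E (i, p.1) (j, p.2)} := by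
  obtain ⟨S⟩ := hE
  have := S.pre
  have hwq : WellQuasiOrdered (List.SublistForall₂ S.le) := by
    rw [← partiallyWellOrderedOn_univ_iff]
    have := PartiallyWellOrderedOn.partiallyWellOrderedOn_sublistForall₂ S.le
      (partiallyWellOrderedOn_univ_iff.2 S.wqo)
    simpa using this
  refine ⟨{ O := {x : (V × V) × List S.O // IsPath S i x.1.1 x.2 j x.1.2}
            le := fun x y => x.1.1 ≤ y.1.1 ∧ List.SublistForall₂ S.le x.1.2 y.1.2
            pre := { refl := fun x => ⟨le_rfl, refl_of _ x.1.2⟩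
                     trans := fun _ _ _ h h' => ⟨h.1.trans h'.1, trans_of _ h.2 h'.2⟩ }
            wqo := ?_
            obs := fun x => x.1.1
            P := fun x => compSub (TT E hs i x.1.1.1) (PW S hs x.1.2)
            mem := ?_, surj := ?_, incr := ?_, semi := ?_ }⟩
  · intro f
    exact ((wellQuasiOrdered_le (α := V × V)).prod hwq) (fun n => (f n).1)
  · rintro ⟨⟨⟨z, z'⟩, l⟩, hl⟩ ⟨x, y⟩ ⟨w, hT, hW⟩
    exact (show Rch E _ _ from hT).trans (pump_path S hs hb l hl _ _ hW)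
  · rintro ⟨z, z'⟩ h
    obtain ⟨l, hl⟩ := Rch.exists_path S h
    exact ⟨⟨((z, z'), l), hl⟩, rfl⟩
  · rintro ⟨⟨⟨z1, z1'⟩, l1⟩, h1⟩ ⟨⟨⟨z2, z2'⟩, l2⟩, h2⟩ ⟨hle, hl⟩
    dsimp only at hle hl h1 h2
    obtain ⟨⟨x, y⟩, hxy⟩ := exists_add_of_le hle
    rw [Prod.mk_add_mk, Prod.mk.injEq] at hxy
    obtain ⟨rfl, rfl⟩ := hxy
    obtain ⟨w, h3, h4⟩ := path_incr S hs hb hl h1 h2
    exact ⟨(x, y), ⟨w, h3, h4⟩, rfl⟩
  · rintro ⟨⟨⟨z, z'⟩, l⟩, hl⟩
    exact sat_compSub (satTT_semilinear ⟨S⟩ hs hb _ _) (sat_PW S ⟨S⟩ hs hb _)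

end Pool.Agent.Lib.P675cc6
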