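import Mathlib
import Pool.Agent.Lib.P675cc6.Path

/-!
Linearization of good sets of pairs of natural numbers, and separation by semilinear sets.
-/

namespace Pool.Agent.Lib.P675cc6

open Set Pointwise AddSubmonoid

/-- The elements of the group generated by `P`. -/
def Gp (P : AddSubmonoid V) : AddSubmonoid V where
  carrier := {x | ∃ a ∈ P, ∃ b ∈ P, x + b = a}
  zero_mem' := ⟨0, P.zero_mem, 0, P.zero_mem, by simp⟩
  add_mem' := by
    rintro x y ⟨a, ha, b, hb, h⟩ ⟨a', ha', b', hb', h'⟩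
    exact ⟨a + a', P.add_mem ha ha', b + b', P.add_mem hb hb', by rw [← h, ← h']; abel⟩

theorem Gp_semilinear (P : AddSubmonoid V) : IsSemilinearSet (Gp P : Set V) := by
  refine IsSemilinearSet.of_fg (fg_of_subtractive ?_)
  rintro x ⟨a, ha, b, hb, h⟩ y ⟨a', ha', b', hb', h'⟩
  refine ⟨a' + b, P.add_mem ha' hb, a + b', P.add_mem ha hb', ?_⟩
  rw [← h, ← h']
  abel

/-- The linearization of a submonoid. -/
def Lin (P : AddSubmonoid V) : AddSubmonoid V := satSub P ⊓ Gp P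

theorem le_Lin (P : AddSubmonoid V) : P ≤ Lin P :=
  fun x hx => ⟨subset_sat _ hx, ⟨x, hx, 0, P.zero_mem, by simp⟩⟩

theorem Lin_semilinear {P : AddSubmonoid V} (hP : IsSemilinearSet (Sat (P : Set V))) :
    IsSemilinearSet (Lin P : Set V) := hP.inter (Gp_semilinear P)

/-- The determinant. -/
def dt (p q : V) : ℤ := (p.1 : ℤ) * q.2 - p.2 * q.1

theorem unit_lemma (P : AddSubmonoid V) (c p1 p2 : V) (hdet : 0 < dt p1 p2)
    (h : ∀ k1 k2 : ℕ, c + k1 • p1 + k2 • p2 ∈ Sat (P : Set V)) {y : V} (hy : y ∈ P) {R : ℕ}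
    (hR : 0 < R) : ∃ M : ℕ, 0 < M ∧ R ∣ M ∧ ∃ p ∈ P, y + p = M • (p1 + p2) := by
  obtain ⟨K, hK, hK1, hK2, hK3, hK4⟩ : ∃ K : ℕ, 0 < K ∧ (-(K : ℤ) < dt c p1 + dt c p2) ∧
      (dt c p1 + dt c p2 < K) ∧ (-(K : ℤ) < dt c p2 - dt c p1) ∧ (dt c p2 - dt c p1 < K) := by
    refine ⟨(dt c p1).natAbs + (dt c p2).natAbs + 1, by omega, ?_, ?_, ?_, ?_⟩ <;> omega
  obtain ⟨n1, hn1, h1⟩ := h K 0
  obtain ⟨n2, hn2, h2⟩ := h 0 K
  rw [zero_smul, add_zero] at h1 h2
  rw [SetLike.mem_coe] at h1 h2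
  set e1 := c + K • p1 with he1
  set e2 := c + K • p2 with he2
  have hA : 0 < dt e1 e2 := by
    have : dt e1 e2 = K * (K * dt p1 p2 + (dt c p2 - dt c p1)) := by
      simp [dt, he1, he2]; ring
    rw [this]
    have : (K : ℤ) * 1 ≤ K * dt p1 p2 := by
      apply mul_le_mul_of_nonneg_left _ (by positivity); omega
    have hK' : (0 : ℤ) < K := by exact_mod_cast hK
    apply mul_pos hK'
    omega
  have hB : 0 < dt (p1 + p2) e2 := by
    have : dt (p1 + p2) e2 = K * dt p1 p2 - (dt c p1 + dt c p2) := by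
      simp [dt, he2]; ring
    rw [this]
    have : (K : ℤ) * 1 ≤ K * dt p1 p2 := by
      apply mul_le_mul_of_nonneg_left _ (by positivity); omega
    omega
  have hC : 0 < dt e1 (p1 + p2) := by
    have : dt e1 (p1 + p2) = K * dt p1 p2 + (dt c p1 + dt c p2) := by
      simp [dt, he1]; ring
    rw [this]
    have : (K : ℤ) * 1 ≤ K * dt p1 p2 := by
      apply mul_le_mul_of_nonneg_left _ (by positivity); omega
    omega
  -- a large multiple of `R`
  set M := R * ((dt y e2).natAbs + (dt e1 y).natAbs + 1) with hM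
  have hMpos : 0 < M := Nat.mul_pos hR (by omega)
  have hMle : (dt y e2).natAbs + (dt e1 y).natAbs + 1 ≤ M := Nat.le_mul_of_pos_left _ hR
  have hs : 0 ≤ M * dt (p1 + p2) e2 - dt y e2 := by
    have : (M : ℤ) * 1 ≤ M * dt (p1 + p2) e2 := by
      apply mul_le_mul_of_nonneg_left _ (by positivity); omega
    omega
  have ht : 0 ≤ M * dt e1 (p1 + p2) - dt e1 y := by
    have : (M : ℤ) * 1 ≤ M * dt e1 (p1 + p2) := by
      apply mul_le_mul_of_nonneg_left _ (by positivity); omega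
    omega
  obtain ⟨A, hA'⟩ := Int.eq_ofNat_of_zero_le hA.le
  obtain ⟨s, hs'⟩ := Int.eq_ofNat_of_zero_le hs
  obtain ⟨t, ht'⟩ := Int.eq_ofNat_of_zero_le ht
  have hA0 : 0 < A := by omega
  have key : (A * M) • (p1 + p2) = A • y + s • e1 + t • e2 := by
    have e : ((A * M : ℕ) • (p1 + p2)).1 = (A • y + s • e1 + t • e2).1 ∧
        ((A * M : ℕ) • (p1 + p2)).2 = (A • y + s • e1 + t • e2).2 := by
      constructor
      · have : (((A * M : ℕ) • (p1 + p2)).1 : ℤ) = ((A • y + s • e1 + t • e2).1 : ℤ) := by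
          simp only [Prod.smul_fst, Prod.fst_add, smul_eq_mul, Nat.cast_mul, Nat.cast_add]
          rw [← hA', ← hs', ← ht']
          simp only [dt, Prod.fst_add, Prod.snd_add, Nat.cast_add]
          ring
        exact_mod_cast this
      · have : (((A * M : ℕ) • (p1 + p2)).2 : ℤ) = ((A • y + s • e1 + t • e2).2 : ℤ) := by
          simp only [Prod.smul_snd, Prod.snd_add, smul_eq_mul, Nat.cast_mul, Nat.cast_add]
          rw [← hA', ← hs', ← ht']
          simp only [dt, Prod.fst_add, Prod.snd_add, Nat.cast_add]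
          ring
        exact_mod_cast this
    exact Prod.ext e.1 e.2
  clear_value e1 e2
  refine ⟨n1 * n2 * (A * M), Nat.mul_pos (Nat.mul_pos hn1 hn2) (Nat.mul_pos hA0 hMpos), ?_,
    (n1 * n2 * A - 1) • y + (s * n2) • (n1 • e1) + (t * n1) • (n2 • e2), ?_, ?_⟩
  · exact Dvd.dvd.mul_left (Dvd.dvd.mul_left (Dvd.intro _ rfl) _) _
  · exact P.add_mem (P.add_mem (P.nsmul_mem hy _) (P.nsmul_mem h1 _)) (P.nsmul_mem h2 _)
  · rw [show (n1 * n2 * (A * M)) • (p1 + p2) = (n1 * n2) • ((A * M) • (p1 + p2)) from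
      mul_smul _ _ _, key, smul_add, smul_add, ← mul_smul, ← mul_smul, ← mul_smul, ← mul_smul,
      ← mul_smul]
    obtain ⟨B, hB'⟩ : ∃ B, n1 * n2 * A = B + 1 :=
      ⟨n1 * n2 * A - 1, by have := Nat.mul_pos (Nat.mul_pos hn1 hn2) hA0; omega⟩
    rw [hB', Nat.add_sub_cancel, succ_nsmul,
      show s * n2 * n1 = n1 * n2 * s by ring, show t * n1 * n2 = n1 * n2 * t by ring]
    abel

theorem dim_lemma_pos (P Q : AddSubmonoid V) (v w c p1 p2 : V) (hdet : 0 < dt p1 p2)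
    (hP : ∀ k1 k2 : ℕ, ∃ x ∈ Lin P, v + x = c + k1 • p1 + k2 • p2)
    (hQ : ∀ k1 k2 : ℕ, ∃ x ∈ Lin Q, w + x = c + k1 • p1 + k2 • p2) :
    ∃ a ∈ P, ∃ b ∈ Q, v + a = w + b := by
  have aux : ∀ (P : AddSubmonoid V) (v : V),
      (∀ k1 k2 : ℕ, ∃ x ∈ Lin P, v + x = c + k1 • p1 + k2 • p2) →
      ∀ R : ℕ, 0 < R → (∃ M : ℕ, 0 < M ∧ R ∣ M ∧ ∃ a ∈ P, v + a = c + M • (p1 + p2)) ∧
        ∃ M : ℕ, 0 < M ∧ M • (p1 + p2) ∈ P := by
    intro P v hP R hR
    obtain ⟨x, ⟨hx1, a, ha, b, hb, hab⟩, hx2⟩ := hP 0 0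
    rw [zero_smul, zero_smul, add_zero, add_zero] at hx2
    have h1 : ∀ k1 k2 : ℕ, x + k1 • p1 + k2 • p2 ∈ Sat (P : Set V) := by
      intro k1 k2
      obtain ⟨x', ⟨hx1', -⟩, hx2'⟩ := hP k1 k2
      rw [← hx2, add_assoc, add_assoc] at hx2'
      have := add_left_cancel hx2'
      rw [add_assoc, ← this]
      exact hx1'
    constructor
    · obtain ⟨M, hM, hRM, p, hp, h2⟩ := unit_lemma P x p1 p2 hdet h1 hb hR
      refine ⟨M, hM, hRM, a + p, P.add_mem ha hp, ?_⟩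
      rw [← h2, ← hx2, ← hab]
      abel
    · obtain ⟨M, hM, -, p, hp, h2⟩ := unit_lemma P x p1 p2 hdet h1 P.zero_mem hR
      refine ⟨M, hM, ?_⟩
      rw [← h2, zero_add]
      exact hp
  obtain ⟨-, M1, hM1, h1⟩ := aux P v hP 1 one_pos
  obtain ⟨-, M2, hM2, h2⟩ := aux Q w hQ 1 one_pos
  obtain ⟨⟨N1, -, ⟨l1, hN1⟩, a, ha, h3⟩, -⟩ := aux P v hP (M1 * M2) (Nat.mul_pos hM1 hM2)
  obtain ⟨⟨N2, -, ⟨l2, hN2⟩, b, hb, h4⟩, -⟩ := aux Q w hQ (M1 * M2) (Nat.mul_pos hM1 hM2)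
  refine ⟨a + (M2 * l2) • (M1 • (p1 + p2)), P.add_mem ha (P.nsmul_mem h1 _),
    b + (M1 * l1) • (M2 • (p1 + p2)), Q.add_mem hb (Q.nsmul_mem h2 _), ?_⟩
  rw [← add_assoc, ← add_assoc, h3, h4, hN1, hN2, ← mul_smul, ← mul_smul, add_assoc, add_assoc,
    ← add_smul, ← add_smul]
  congr 2
  ring

theorem dim_lemma (P Q : AddSubmonoid V) (v w c p1 p2 : V) (hdet : dt p1 p2 ≠ 0)
    (hP : ∀ k1 k2 : ℕ, ∃ x ∈ Lin P, v + x = c + k1 • p1 + k2 • p2)
    (hQ : ∀ k1 k2 : ℕ, ∃ x ∈ Lin Q, w + x = c + k1 • p1 + k2 • p2) :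
    ∃ a ∈ P, ∃ b ∈ Q, v + a = w + b := by
  rcases lt_or_gt_of_ne hdet with h | h
  · have h' : 0 < dt p2 p1 := by
      have : dt p2 p1 = - dt p1 p2 := by simp only [dt]; ring
      omega
    refine dim_lemma_pos P Q v w c p2 p1 h' ?_ ?_
    · intro k1 k2
      obtain ⟨x, hx, h⟩ := hP k2 k1
      exact ⟨x, hx, by rw [h]; abel⟩
    · intro k1 k2
      obtain ⟨x, hx, h⟩ := hQ k2 k1
      exact ⟨x, hx, by rw [h]; abel⟩
  · exact dim_lemma_pos P Q v w c p1 p2 h hP hQ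

/-- Good sets meet lines in semilinear sets. -/
theorem good_line {E : Set V} (hE : Good E) (a p : V) :
    IsSemilinearSet (E ∩ (a +ᵥ (AddSubmonoid.closure {p} : Set V))) := by
  have h1 := ((hE.prod (good_semilinear (IsSemilinearSet.univ (M := ℕ)))).constraint 0 a
    (AddMonoidHom.fst V ℕ) ((multiplesHom V p).comp (AddMonoidHom.snd V ℕ))).image
    (AddMonoidHom.snd V ℕ)
  have h2 := h1.nat
  have h3 := (h2.image (multiplesHom V p)).vadd a
  convert h3 using 1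
  ext x
  constructor
  · rintro ⟨hx, y, hy, rfl⟩
    rw [SetLike.mem_coe, mem_closure_singleton] at hy
    obtain ⟨n, rfl⟩ := hy
    refine ⟨n • p, ⟨n, ⟨(a +ᵥ n • p, n), ⟨⟨hx, mem_univ _⟩, ?_⟩, rfl⟩, rfl⟩, rfl⟩
    simp
  · rintro ⟨_, ⟨n, ⟨⟨x', n'⟩, ⟨⟨hx, -⟩, h⟩, hn⟩, rfl⟩, rfl⟩
    simp only [AddMonoidHom.coe_snd] at hn
    subst hn
    simp only [mem_ofPred_eq, AddMonoidHom.coe_fst, zero_add, AddMonoidHom.coe_comp,
      Function.comp_apply, AddMonoidHom.coe_snd, multiplesHom_apply] at h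
    subst h
    refine ⟨hx, _, ?_, rfl⟩
    rw [SetLike.mem_coe, mem_closure_singleton]
    exact ⟨n', rfl⟩

/-- Good subsets of semilinear sets without two-dimensional parts are semilinear. -/
theorem good_small {E A : Set V} (hE : Good E) (hEA : E ⊆ A) (hA : IsSemilinearSet A)
    (hsmall : ∀ c p1 p2 : V, dt p1 p2 ≠ 0 → ∃ k1 k2 : ℕ, c + k1 • p1 + k2 • p2 ∉ A) :
    IsSemilinearSet E := by
  obtain ⟨S, hS, hlin, rfl⟩ := hA.isProperSemilinearSet
  have : E = ⋃ L ∈ S, (E ∩ L) := by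
    ext x
    simp only [mem_iUnion]
    constructor
    · intro hx
      obtain ⟨L, hL, hxL⟩ := hEA hx
      exact ⟨L, hL, hx, hxL⟩
    · rintro ⟨L, hL, hx⟩
      exact hx.1
  rw [this]
  refine IsSemilinearSet.biUnion hS fun L hL => ?_
  obtain ⟨a, t, ht, hind, rfl⟩ := hlin L hL
  have hsub : t.Subsingleton := by
    intro p1 hp1 p2 hp2
    by_contra hne
    have hdet : dt p1 p2 ≠ 0 := by
      intro h0
      have hinj : ∀ m n : ℕ, m • p1 = n • p2 → m = 0 := by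
        intro m n hmn
        have h1 : Finsupp.single (⟨p1, hp1⟩ : t) m = Finsupp.single (⟨p2, hp2⟩ : t) n := by
          apply hind
          simp only [Finsupp.linearCombination_single, id]
          exact hmn
        by_contra hm
        have h2 := congrArg (fun f => f ⟨p1, hp1⟩) h1
        simp only [Finsupp.single_eq_same] at h2
        rw [Finsupp.single_apply, if_neg (by
          intro h; exact hne (congrArg Subtype.val h).symm)] at h2
        exact hm h2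
      have h0' : (p1.1 : ℤ) * p2.2 = p1.2 * p2.1 := by
        simp only [dt] at h0
        linarith
      have h0'' : p1.1 * p2.2 = p1.2 * p2.1 := by exact_mod_cast h0'
      have h1 : p2.1 = 0 := hinj p2.1 p1.1 (by
        ext
        · simp [mul_comm]
        · simp only [Prod.smul_snd, smul_eq_mul]; rw [h0'', mul_comm])
      have h2 : p2.2 = 0 := hinj p2.2 p1.2 (by
        ext
        · simp only [Prod.smul_fst, smul_eq_mul]; rw [← h0'', mul_comm]
        · simp [mul_comm])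
      have h3 : (1 : ℕ) = 0 := by
        have : (0 : ℕ) • p2 = 1 • p2 := by
          rw [zero_smul, one_smul]
          ext <;> simp [h1, h2]
        have h4 : Finsupp.single (⟨p2, hp2⟩ : t) 0 = Finsupp.single (⟨p2, hp2⟩ : t) 1 := by
          apply hind
          simp only [Finsupp.linearCombination_single, id]
          exact this
        have h5 := congrArg (fun f => f ⟨p2, hp2⟩) h4
        simp only [Finsupp.single_eq_same] at h5
        exact h5.symm
      exact absurd h3 one_ne_zero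
    obtain ⟨k1, k2, hk⟩ := hsmall a p1 p2 hdet
    apply hk
    refine ⟨_, hL, k1 • p1 + k2 • p2, ?_, ?_⟩
    · exact add_mem (nsmul_mem (mem_closure_of_mem hp1) _) (nsmul_mem (mem_closure_of_mem hp2) _)
    · dsimp only
      rw [vadd_eq_add, add_assoc]
  rcases hsub.eq_empty_or_singleton with rfl | ⟨p, rfl⟩
  · rw [AddSubmonoid.closure_empty, ← AddSubmonoid.closure_singleton_zero]
    exact good_line hE a 0
  · exact good_line hE a p

/-- Linearization. -/
theorem Good.linearize {F : Set V} (hF : Good F) : ∃ K : Set V, IsSemilinearSet K ∧ F ⊆ K ∧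
    ∀ E : Set V, Good E → Disjoint E F → IsSemilinearSet (E ∩ K) := by
  obtain ⟨D, hD, hD1, hD2⟩ := hF.decomp
  refine ⟨⋃ x ∈ D, (x.1 +ᵥ (Lin x.2 : Set V)), ?_, ?_, ?_⟩
  · exact IsSemilinearSet.biUnion hD fun x hx => (Lin_semilinear (hD1 x hx).1).vadd _
  · intro z hz
    obtain ⟨x, hx, y, hy, rfl⟩ := hD2 z hz
    simp only [mem_iUnion]
    exact ⟨x, hx, y, le_Lin _ hy, rfl⟩
  · intro E hE hdisj
    obtain ⟨D', hD', hD1', hD2'⟩ := hE.decomp
    have : E ∩ (⋃ x ∈ D, (x.1 +ᵥ (Lin x.2 : Set V))) = ⋃ x' ∈ D', ⋃ x ∈ D,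
        (E ∩ ((x'.1 +ᵥ (Lin x'.2 : Set V)) ∩ (x.1 +ᵥ (Lin x.2 : Set V)))) := by
      ext z
      simp only [mem_iUnion, mem_inter_iff]
      constructor
      · rintro ⟨hz, x, hx, hzx⟩
        obtain ⟨x', hx', y, hy, rfl⟩ := hD2' z hz
        exact ⟨x', hx', x, hx, hz, ⟨y, le_Lin _ hy, rfl⟩, hzx⟩
      · rintro ⟨x', hx', x, hx, hz, -, hzx⟩
        exact ⟨hz, x, hx, hzx⟩
    rw [this]
    refine IsSemilinearSet.biUnion hD' fun x' hx' => IsSemilinearSet.biUnion hD fun x hx => ?_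
    have hA : IsSemilinearSet ((x'.1 +ᵥ (Lin x'.2 : Set V)) ∩ (x.1 +ᵥ (Lin x.2 : Set V))) :=
      ((Lin_semilinear (hD1' x' hx').1).vadd _).inter ((Lin_semilinear (hD1 x hx).1).vadd _)
    refine good_small (hE.inter (good_semilinear hA)) inter_subset_right hA ?_
    intro c p1 p2 hdet
    by_contra hcon
    push Not at hcon
    obtain ⟨a, ha, b, hb, hab⟩ := dim_lemma x'.2 x.2 x'.1 x.1 c p1 p2 hdet
      (fun k1 k2 => by
        obtain ⟨y, hy, h⟩ := (hcon k1 k2).1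
        exact ⟨y, hy, h⟩)
      (fun k1 k2 => by
        obtain ⟨y, hy, h⟩ := (hcon k1 k2).2
        exact ⟨y, hy, h⟩)
    have h1 := (hD1' x' hx').2 a ha
    have h2 := (hD1 x hx).2 b hb
    rw [hab] at h1
    exact Set.disjoint_left.1 hdisj h1 h2

/-- Separation. -/
theorem Good.separate {E F : Set V} (hE : Good E) (hF : Good F) (h : Disjoint E F) :
    ∃ K : Set V, IsSemilinearSet K ∧ E ⊆ K ∧ Disjoint K F := by
  obtain ⟨K, hK, hFK, hlin⟩ := hF.linearize
  refine ⟨Kᶜ ∪ (E ∩ K), hK.compl.union (hlin E hE h), ?_, ?_⟩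
  · intro x hx
    by_cases hxK : x ∈ K
    · exact Or.inr ⟨hx, hxK⟩
    · exact Or.inl hxK
  · rw [Set.disjoint_left]
    rintro x (hx | hx) hxF
    · exact hx (hFK hxF)
    · exact Set.disjoint_left.1 h hx.1 hxF

end Pool.Agent.Lib.P675cc6
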