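import Mathlib
import Pool.Agent.Lib.P675cc6.Linz

/-!
Thin binary grammars of relations: all their relations are good, and disjointness from semilinear
sets has semilinear inductive certificates.
-/

namespace Pool.Agent.Lib.P675cc6

open Set Pointwise Relation

/-- Binary grammars of relations on `ℕ`. -/
structure BG (T : Type) where
  prim : T → Set V
  bin : T → T → T → Prop

variable {T : Type}

/-- The relations generated by a binary grammar. -/
inductive BG.R (g : BG T) : T → ℕ → ℕ → Prop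
  | prim {t : T} {x y : ℕ} : (x, y) ∈ g.prim t → BG.R g t x y
  | bin {t u v : T} {x m y : ℕ} : g.bin t u v → BG.R g u x m → BG.R g v m y → BG.R g t x y

def BG.RS (g : BG T) (t : T) : Set V := {p | g.R t p.1 p.2}

def BG.Edge (g : BG T) (t u : T) : Prop := ∃ v, g.bin t u v ∨ g.bin t v u

def BG.To (g : BG T) : T → T → Prop := ReflTransGen g.Edge

/-- Thin grammars with semilinear shift-closed primitive relations. -/
structure BG.Ok (g : BG T) : Prop where
  semi : ∀ t, IsSemilinearSet (g.prim t)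
  shift : ∀ t x y a, (x, y) ∈ g.prim t → (x + a, y + a) ∈ g.prim t
  thin : ∀ t u v, g.bin t u v → ¬ (g.To u t ∧ g.To v t)

/-- Semilinear inductive families. -/
structure BG.Ind (g : BG T) (G : T → Set V) : Prop where
  semi : ∀ t, IsSemilinearSet (G t)
  prim : ∀ t, g.prim t ⊆ G t
  bin : ∀ t u v, g.bin t u v → relComp (G u) (G v) ⊆ G t

def BG.Sep (g : BG T) (t : T) : Prop := ∀ U : Set V, IsSemilinearSet U →
  Disjoint (g.RS t) U → ∃ G, g.Ind G ∧ Disjoint (G t) U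

theorem BG.Ok.shiftR {g : BG T} (hg : g.Ok) {t : T} {x y : ℕ} (h : g.R t x y) (a : ℕ) :
    g.R t (x + a) (y + a) := by
  induction h with
  | prim h => exact .prim (hg.shift _ _ _ a h)
  | bin hb _ _ ih1 ih2 => exact .bin hb ih1 ih2

theorem good_iUnion {M ι : Type} [AddCommMonoid M] [Finite ι] {f : ι → Set M}
    (h : ∀ i, Good (f i)) : Good (⋃ i, f i) := by
  classical
  have := Fintype.ofFinite ι
  have key : ∀ s : Finset ι, Good (⋃ i ∈ s, f i) := by
    intro s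
    induction s using Finset.induction_on with
    | empty => simpa using good_empty
    | insert a s _ ih =>
      rw [Finset.set_biUnion_insert]
      exact (h a).union ih
  simpa using key Finset.univ

theorem good_ite {M : Type} [AddCommMonoid M] {p : Prop} {A : Set M} (h : p → Good A) :
    Good {x | p ∧ x ∈ A} := by
  by_cases hp : p
  · simpa [hp] using h hp
  · simp [hp, good_empty]

theorem semilinear_ite {M : Type} [AddCommMonoid M] {p : Prop} {A : Set M}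
    (h : p → IsSemilinearSet A) : IsSemilinearSet {x | p ∧ x ∈ A} := by
  by_cases hp : p
  · simpa [hp] using h hp
  · simp [hp]

theorem semilinear_imp {M : Type} [AddCommMonoid M] [AddMonoid.FG M] {p : Prop} {A : Set M}
    (h : p → IsSemilinearSet A) : IsSemilinearSet {x | p → x ∈ A} := by
  by_cases hp : p
  · simpa [hp] using h hp
  · simp [hp]

/-- Swapping. -/
def swapHom : V →+ V := (AddMonoidHom.snd ℕ ℕ).prod (AddMonoidHom.fst ℕ ℕ)

theorem semilinear_swap {A : Set V} (hA : IsSemilinearSet A) :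
    IsSemilinearSet {p : V | (p.2, p.1) ∈ A} := hA.preimage swapHom

/-- The component of `t`. -/
def BG.C (g : BG T) (t s : T) : Prop := g.To t s ∧ g.To s t

/-- The step set of the component of `t`. -/
def BG.E (g : BG T) (t : T) (e : T → ℕ) : Steps :=
  ⋃ x : T × T × T,
    ({q | (g.C t x.1 ∧ g.C t x.2.1 ∧ ¬ g.C t x.2.2 ∧ g.bin x.1 x.2.1 x.2.2) ∧
      q ∈ {p : V × V | p.1.1 = p.2.1 ∧ g.R x.2.2 p.2.2 p.1.2} ×ˢ {(e x.1, e x.2.1)}} ∪
    {q | (g.C t x.1 ∧ g.C t x.2.1 ∧ ¬ g.C t x.2.2 ∧ g.bin x.1 x.2.2 x.2.1) ∧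
      q ∈ {p : V × V | p.1.2 = p.2.2 ∧ g.R x.2.2 p.1.1 p.2.1} ×ˢ {(e x.1, e x.2.1)}})

theorem BG.mem_E {g : BG T} {t : T} {e : T → ℕ} {z z' : V} {i j : ℕ} :
    ((z, z'), (i, j)) ∈ g.E t e ↔ ∃ s u v : T, g.C t s ∧ g.C t u ∧ ¬ g.C t v ∧ i = e s ∧ j = e u ∧
      ((g.bin s u v ∧ z.1 = z'.1 ∧ g.R v z'.2 z.2) ∨
        (g.bin s v u ∧ z.2 = z'.2 ∧ g.R v z.1 z'.1)) := by
  simp only [BG.E, mem_iUnion, mem_union, mem_ofPred_eq, Set.mem_prod, mem_singleton_iff,
    Prod.mk.injEq, Prod.exists]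
  constructor
  · rintro ⟨s, u, v, ⟨⟨h1, h2, h3, h4⟩, ⟨h5, h6⟩, h7, h8⟩ | ⟨⟨h1, h2, h3, h4⟩, ⟨h5, h6⟩, h7, h8⟩⟩
    · exact ⟨s, u, v, h1, h2, h3, h7, h8, Or.inl ⟨h4, h5, h6⟩⟩
    · exact ⟨s, u, v, h1, h2, h3, h7, h8, Or.inr ⟨h4, h5, h6⟩⟩
  · rintro ⟨s, u, v, h1, h2, h3, h7, h8, ⟨h4, h5, h6⟩ | ⟨h4, h5, h6⟩⟩
    · exact ⟨s, u, v, Or.inl ⟨⟨h1, h2, h3, h4⟩, ⟨h5, h6⟩, h7, h8⟩⟩
    · exact ⟨s, u, v, Or.inr ⟨⟨h1, h2, h3, h4⟩, ⟨h5, h6⟩, h7, h8⟩⟩

/-- Lower items. -/
def BG.Lt (g : BG T) (u t : T) : Prop := g.To t u ∧ ¬ g.To u t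

theorem BG.wf [Finite T] (g : BG T) : WellFounded g.Lt := by
  have h1 : IsTrans T g.Lt := ⟨by
    rintro a b c ⟨h1, h2⟩ ⟨h3, h4⟩
    exact ⟨h3.trans h1, fun h => h2 (h.trans h3)⟩⟩
  have h2 : Std.Irrefl g.Lt := ⟨fun a h => h.2 .refl⟩
  exact Finite.wellFounded_of_trans_of_irrefl _

theorem BG.good_E [Finite T] (g : BG T) (t : T) (e : T → ℕ)
    (h : ∀ v, g.Lt v t → Good (g.RS v)) : Good (g.E t e) := by
  have hlow : ∀ s v, g.C t s → ¬ g.C t v → g.Edge s v → g.Lt v t := by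
    intro s v hs hv hsv
    have : g.To t v := hs.1.tail hsv
    exact ⟨this, fun h => hv ⟨this, h⟩⟩
  have hu : Good (univ : Set ℕ) := good_semilinear IsSemilinearSet.univ
  refine good_iUnion fun x => Good.union (good_ite ?_) (good_ite ?_)
  · rintro ⟨h1, h2, h3, h4⟩
    refine Good.prod ?_ (good_semilinear (IsSemilinearSet.singleton _))
    have hR := h _ (hlow _ _ h1 h3 ⟨_, Or.inr h4⟩)
    refine ((hu.prod hR).image
      (((AddMonoidHom.fst ℕ V).prod ((AddMonoidHom.snd ℕ ℕ).comp (AddMonoidHom.snd ℕ V))).prod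
        ((AddMonoidHom.fst ℕ V).prod ((AddMonoidHom.fst ℕ ℕ).comp
          (AddMonoidHom.snd ℕ V))))).of_eq ?_
    ext ⟨⟨a, b⟩, ⟨c, d⟩⟩
    constructor
    · rintro ⟨⟨n, ⟨k, l⟩⟩, ⟨-, hkl⟩, hn⟩
      simp only [AddMonoidHom.prod_apply, AddMonoidHom.coe_fst, AddMonoidHom.coe_comp,
        AddMonoidHom.coe_snd, Function.comp_apply, Prod.mk.injEq] at hn
      obtain ⟨⟨rfl, rfl⟩, ⟨rfl, rfl⟩⟩ := hn
      exact ⟨rfl, hkl⟩
    · rintro ⟨h5, h6⟩
      dsimp only at h5 h6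
      subst h5
      exact ⟨(a, (d, b)), ⟨mem_univ _, h6⟩, rfl⟩
  · rintro ⟨h1, h2, h3, h4⟩
    refine Good.prod ?_ (good_semilinear (IsSemilinearSet.singleton _))
    have hR := h _ (hlow _ _ h1 h3 ⟨_, Or.inl h4⟩)
    refine ((hu.prod hR).image
      ((((AddMonoidHom.fst ℕ ℕ).comp (AddMonoidHom.snd ℕ V)).prod (AddMonoidHom.fst ℕ V)).prod
        (((AddMonoidHom.snd ℕ ℕ).comp (AddMonoidHom.snd ℕ V)).prod
          (AddMonoidHom.fst ℕ V)))).of_eq ?_
    ext ⟨⟨a, b⟩, ⟨c, d⟩⟩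
    constructor
    · rintro ⟨⟨n, ⟨k, l⟩⟩, ⟨-, hkl⟩, hn⟩
      simp only [AddMonoidHom.prod_apply, AddMonoidHom.coe_fst, AddMonoidHom.coe_comp,
        AddMonoidHom.coe_snd, Function.comp_apply, Prod.mk.injEq] at hn
      obtain ⟨⟨rfl, rfl⟩, ⟨rfl, rfl⟩⟩ := hn
      exact ⟨rfl, hkl⟩
    · rintro ⟨h5, h6⟩
      dsimp only at h5 h6
      subst h5
      exact ⟨(b, (a, c)), ⟨mem_univ _, h6⟩, rfl⟩

theorem BG.Ok.shift_E {g : BG T} (hg : g.Ok) (t : T) (e : T → ℕ) : ShiftClosed (g.E t e) := by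
  rintro z z' ⟨i, j⟩ x h
  rw [BG.mem_E] at *
  obtain ⟨s, u, v, h1, h2, h3, h4, h5, ⟨h6, h7, h8⟩ | ⟨h6, h7, h8⟩⟩ := h
  · exact ⟨s, u, v, h1, h2, h3, h4, h5, Or.inl ⟨h6, by simp [h7], hg.shiftR h8 _⟩⟩
  · exact ⟨s, u, v, h1, h2, h3, h4, h5, Or.inr ⟨h6, by simp [h7], hg.shiftR h8 _⟩⟩

/-- The base relations of an item of the component of `t`. -/
def BG.Base (g : BG T) (t s : T) : Set V := g.prim s ∪
  ⋃ x : T × T, {p | (¬ g.C t x.1 ∧ ¬ g.C t x.2 ∧ g.bin s x.1 x.2) ∧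
    p ∈ relComp (g.RS x.1) (g.RS x.2)}

theorem BG.Base_sub (g : BG T) (t s : T) : g.Base t s ⊆ g.RS s := by
  rintro ⟨x, y⟩ (h | h)
  · exact .prim h
  · simp only [mem_iUnion, mem_ofPred_eq] at h
    obtain ⟨⟨u, v⟩, ⟨-, -, h3⟩, m, h4, h5⟩ := h
    exact .bin h3 h4 h5

theorem BG.Base_good [Finite T] {g : BG T} (hg : g.Ok) (t s : T) (hs : g.C t s)
    (h : ∀ v, g.Lt v t → Good (g.RS v)) : Good (g.Base t s) := by
  have hlow : ∀ v, ¬ g.C t v → g.Edge s v → g.Lt v t := by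
    intro v hv hsv
    have : g.To t v := hs.1.tail hsv
    exact ⟨this, fun h => hv ⟨this, h⟩⟩
  refine (good_semilinear (hg.semi s)).union (good_iUnion fun x => good_ite ?_)
  rintro ⟨h1, h2, h3⟩
  exact (h _ (hlow _ h1 ⟨_, Or.inl h3⟩)).comp (h _ (hlow _ h2 ⟨_, Or.inr h3⟩))

theorem BG.rch_RS {g : BG T} {t : T} {e : T → ℕ} (he : Function.Injective e) {p q : ℕ × V}
    (h : Rch (g.E t e) p q) : ∀ s j : T, p.1 = e s → q.1 = e j → q.2 ∈ g.RS j →
    p.2 ∈ g.RS s := by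
  induction h using ReflTransGen.head_induction_on with
  | refl =>
    intro s j h1 h2 h3
    have : s = j := he (h1.symm.trans h2)
    rwa [this]
  | @head p p' h _ ih =>
    intro s j h1 h2 h3
    obtain ⟨s', u, v, h4, h5, h6, h7, h8, h9⟩ := BG.mem_E.1 h
    obtain rfl : s = s' := he (h1.symm.trans h7)
    have h10 := ih u j h8 h2 h3
    rcases h9 with ⟨h11, h12, h13⟩ | ⟨h11, h12, h13⟩
    · have h14 : g.R u p'.2.1 p'.2.2 := h10
      rw [← h12] at h14
      exact .bin h11 h14 h13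
    · have h14 : g.R u p'.2.1 p'.2.2 := h10
      rw [← h12] at h14
      exact .bin h11 h13 h14

theorem BG.RS_rch {g : BG T} (hg : g.Ok) {t : T} {e : T → ℕ} {s : T} {x y : ℕ}
    (h : g.R s x y) : g.C t s → ∃ j, g.C t j ∧ ∃ z' ∈ g.Base t j,
      Rch (g.E t e) (e s, (x, y)) (e j, z') := by
  induction h with
  | @prim s x y h =>
    intro hs
    exact ⟨s, hs, (x, y), Or.inl h, .refl⟩
  | @bin s u v x m y hb h1 h2 ih1 ih2 =>
    intro hs
    by_cases hu : g.C t u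
    · by_cases hv : g.C t v
      · exact absurd ⟨hu.2.trans hs.1, hv.2.trans hs.1⟩ (hg.thin _ _ _ hb)
      · obtain ⟨j, hj, z', hz', hr⟩ := ih1 hu
        refine ⟨j, hj, z', hz', ReflTransGen.head (b := (e u, (x, m))) ?_ hr⟩
        exact BG.mem_E.2 ⟨s, u, v, hs, hu, hv, rfl, rfl, Or.inl ⟨hb, rfl, h2⟩⟩
    · by_cases hv : g.C t v
      · obtain ⟨j, hj, z', hz', hr⟩ := ih2 hv
        refine ⟨j, hj, z', hz', ReflTransGen.head (b := (e v, (m, y))) ?_ hr⟩
        exact BG.mem_E.2 ⟨s, v, u, hs, hv, hu, rfl, rfl, Or.inr ⟨hb, rfl, h1⟩⟩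
      · refine ⟨s, hs, (x, y), Or.inr ?_, .refl⟩
        simp only [mem_iUnion, mem_ofPred_eq]
        exact ⟨(u, v), ⟨hu, hv, hb⟩, m, h1, h2⟩

theorem BG.good_RS [Finite T] {g : BG T} (hg : g.Ok) (t : T)
    (h : ∀ v, g.Lt v t → Good (g.RS v)) (s : T) (hs : g.C t s) : Good (g.RS s) := by
  obtain ⟨n, ⟨e'⟩⟩ := Finite.exists_equiv_fin T
  let e : T → ℕ := fun s => (e' s : ℕ)
  have he : Function.Injective e := fun a b hab => e'.injective (Fin.ext hab)
  have hb : Bdd (g.E t e) n := by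
    intro z z' i j h
    obtain ⟨s, u, v, -, -, -, rfl, rfl, -⟩ := BG.mem_E.1 h
    exact ⟨(e' s).2, (e' u).2⟩
  have hgood := g.good_E t e h
  have hsh := hg.shift_E t e
  have key : g.RS s = ⋃ j : T, {z | g.C t j ∧ z ∈ (AddMonoidHom.fst V V) ''
      ({p : V × V | Rch (g.E t e) (e s, p.1) (e j, p.2)} ∩ (univ ×ˢ g.Base t j))} := by
    ext ⟨x, y⟩
    simp only [mem_iUnion, mem_ofPred_eq]
    constructor
    · intro hR
      obtain ⟨j, hj, z', hz', hr⟩ := BG.RS_rch hg (t := t) (e := e) hR hs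
      exact ⟨j, hj, ((x, y), z'), ⟨hr, mem_univ _, hz'⟩, rfl⟩
    · rintro ⟨j, hj, ⟨p, z'⟩, ⟨hr, -, hz'⟩, rfl⟩
      exact BG.rch_RS he hr s j rfl rfl (g.Base_sub t j hz')
  rw [key]
  refine good_iUnion fun j => good_ite fun hj => ?_
  refine Good.image (Good.inter (rch_good hgood hsh hb _ _) ?_) _
  exact Good.prod (good_semilinear IsSemilinearSet.univ) (BG.Base_good hg t j hj h)

/-- Intersections of inductive families. -/
theorem BG.Ind.iInter {g : BG T} {ι : Type} [Finite ι] {H : ι → T → Set V}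
    (h : ∀ i, g.Ind (H i)) : g.Ind (fun s => ⋂ i, H i s) := by
  classical
  refine ⟨fun s => ?_, fun s => ?_, fun s u v hb => ?_⟩
  · have := Fintype.ofFinite ι
    have key : ∀ F : Finset ι, IsSemilinearSet (⋂ i ∈ F, H i s) := by
      intro F
      induction F using Finset.induction_on with
      | empty => simp
      | insert a F _ ih =>
        rw [Finset.set_biInter_insert]
        exact ((h a).semi s).inter ih
    simpa using key Finset.univ
  · exact subset_iInter fun i => (h i).prim s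
  · rintro ⟨x, y⟩ ⟨m, h1, h2⟩
    rw [mem_iInter] at *
    exact fun i => (h i).bin s u v hb ⟨m, h1 i, h2 i⟩

theorem BG.Ind.univ {g : BG T} : g.Ind (fun _ => Set.univ) :=
  ⟨fun _ => IsSemilinearSet.univ, fun _ => subset_univ _, fun _ _ _ _ => subset_univ _⟩

theorem BG.sep [Finite T] {g : BG T} (hg : g.Ok) (t : T)
    (h : ∀ v, g.Lt v t → Good (g.RS v) ∧ g.Sep v) : g.Sep t := by
  intro U hU hdU
  obtain ⟨n, ⟨e'⟩⟩ := Finite.exists_equiv_fin T
  let e : T → ℕ := fun s => (e' s : ℕ)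
  have he : Function.Injective e := fun a b hab => e'.injective (Fin.ext hab)
  have hb : Bdd (g.E t e) n := by
    intro z z' i j h
    obtain ⟨s, u, v, -, -, -, rfl, rfl, -⟩ := BG.mem_E.1 h
    exact ⟨(e' s).2, (e' u).2⟩
  have hgood := g.good_E t e (fun v hv => (h v hv).1)
  have hsh := hg.shift_E t e
  have hRS := BG.good_RS hg t (fun v hv => (h v hv).1)
  have hlin : ∀ s, ∃ K : Set V, g.C t s → IsSemilinearSet K ∧ g.RS s ⊆ K ∧
      ∀ E : Set V, Good E → Disjoint E (g.RS s) → IsSemilinearSet (E ∩ K) := by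
    intro s
    by_cases hs : g.C t s
    · obtain ⟨K, hK⟩ := (hRS s hs).linearize
      exact ⟨K, fun _ => hK⟩
    · exact ⟨∅, fun h => absurd h hs⟩
  choose K hK using hlin
  -- the start sets
  let X : T → Set V := fun s => (K s)ᶜ ∪ {z | s = t ∧ z ∈ U}
  have hX : ∀ s, g.C t s → IsSemilinearSet (X s) := fun s hs =>
    (hK s hs).1.compl.union (semilinear_ite fun _ => hU)
  -- the invariant
  let I : T → Set V := fun s => ⋃ s0 : T, {z' | g.C t s0 ∧ z' ∈ (AddMonoidHom.snd V V) ''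
      ({p : V × V | Rch (g.E t e) (e s0, p.1) (e s, p.2)} ∩ (X s0 ×ˢ univ))}
  have hI : ∀ s z', z' ∈ I s ↔ ∃ s0, g.C t s0 ∧ ∃ z ∈ X s0,
      Rch (g.E t e) (e s0, z) (e s, z') := by
    intro s z'
    simp only [I, mem_iUnion, mem_ofPred_eq]
    constructor
    · rintro ⟨s0, h0, ⟨z, p⟩, ⟨hr, hz, -⟩, rfl⟩
      exact ⟨s0, h0, z, hz, hr⟩
    · rintro ⟨s0, h0, z, hz, hr⟩
      exact ⟨s0, h0, (z, z'), ⟨hr, hz, mem_univ _⟩, rfl⟩
  have hIgood : ∀ s, Good (I s) := fun s => good_iUnion fun s0 => good_ite fun h0 =>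
    Good.image (Good.inter (rch_good hgood hsh hb _ _)
      ((good_semilinear (hX s0 h0)).prod (good_semilinear IsSemilinearSet.univ))) _
  have hIdis : ∀ s, Disjoint (I s) (g.RS s) := by
    intro s
    rw [Set.disjoint_left]
    intro z' hz' hR
    obtain ⟨s0, h0, z, hz, hr⟩ := (hI s z').1 hz'
    have hzR := BG.rch_RS he hr s0 s rfl rfl hR
    rcases hz with hz | ⟨rfl, hz⟩
    · exact hz ((hK s0 h0).2.1 hzR)
    · exact Set.disjoint_left.1 hdU hzR hz
  have hXI : ∀ s, g.C t s → X s ⊆ I s := fun s hs z hz => (hI s z).2 ⟨s, hs, z, hz, .refl⟩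
  have hIsemi : ∀ s, g.C t s → IsSemilinearSet (I s) := by
    intro s hs
    have : I s = (K s)ᶜ ∪ (I s ∩ K s) := by
      ext z
      constructor
      · intro hz
        by_cases hzK : z ∈ K s
        · exact Or.inr ⟨hz, hzK⟩
        · exact Or.inl hzK
      · rintro (hz | hz)
        · exact hXI s hs (Or.inl hz)
        · exact hz.1
    rw [this]
    exact (hK s hs).1.compl.union ((hK s hs).2.2 _ (hIgood s) (hIdis s))
  have hIstep : ∀ s u z z', z ∈ I s → ((z, z'), (e s, e u)) ∈ g.E t e → z' ∈ I u := by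
    intro s u z z' hz hst
    obtain ⟨s0, h0, w, hw, hr⟩ := (hI s z).1 hz
    exact (hI u z').2 ⟨s0, h0, w, hw, hr.tail hst⟩
  have htt : g.C t t := ⟨.refl, .refl⟩
  -- lower items
  have hlow : ∀ s v, g.C t s → ¬ g.C t v → g.Edge s v → g.Lt v t := by
    intro s v hs hv hsv
    have : g.To t v := hs.1.tail hsv
    exact ⟨this, fun h => hv ⟨this, h⟩⟩
  -- the combined families
  let GG : (T → Set V) → T → Set V := fun H w =>
    {z | (g.C t w → z ∉ I w) ∧ (¬ g.C t w → z ∈ H w)}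
  have hsepar : ∀ x : T × T × T, ∃ H : T → Set V, g.Ind H ∧ (g.C t x.1 → g.bin x.1 x.2.1 x.2.2 →
      relComp (GG H x.2.1) (GG H x.2.2) ⊆ (I x.1)ᶜ) := by
    rintro ⟨s, u, v⟩
    dsimp only
    by_cases hs : g.C t s
    swap
    · exact ⟨_, BG.Ind.univ, fun h => absurd h hs⟩
    by_cases hbin : g.bin s u v
    swap
    · exact ⟨_, BG.Ind.univ, fun _ h => absurd h hbin⟩
    by_cases hu : g.C t u
    · by_cases hv : g.C t v
      · exact absurd ⟨hu.2.trans hs.1, hv.2.trans hs.1⟩ (hg.thin _ _ _ hbin)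
      · -- right step
        have hvt := hlow s v hs hv ⟨_, Or.inr hbin⟩
        obtain ⟨H, hH, hHU⟩ := (h v hvt).2 (relComp {p : V | (p.2, p.1) ∈ (I u)ᶜ} (I s))
          (semilinear_comp (semilinear_swap (hIsemi u hu).compl) (hIsemi s hs)) (by
            rw [Set.disjoint_left]
            rintro ⟨m, y⟩ hR ⟨x, h1, h2⟩
            apply h1
            refine hIstep s u (x, y) (x, m) h2 ?_
            exact BG.mem_E.2 ⟨s, u, v, hs, hu, hv, rfl, rfl, Or.inl ⟨hbin, rfl, hR⟩⟩)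
        refine ⟨H, hH, fun _ _ => ?_⟩
        rintro ⟨x, y⟩ ⟨m, h1, h2⟩ hxy
        exact Set.disjoint_left.1 hHU (h2.2 hv) ⟨x, h1.1 hu, hxy⟩
    · by_cases hv : g.C t v
      · -- left step
        have hut := hlow s u hs hu ⟨_, Or.inl hbin⟩
        obtain ⟨H, hH, hHU⟩ := (h u hut).2 (relComp (I s) {p : V | (p.2, p.1) ∈ (I v)ᶜ})
          (semilinear_comp (hIsemi s hs) (semilinear_swap (hIsemi v hv).compl)) (by
            rw [Set.disjoint_left]
            rintro ⟨x, m⟩ hR ⟨y, h1, h2⟩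
            apply h2
            refine hIstep s v (x, y) (m, y) h1 ?_
            exact BG.mem_E.2 ⟨s, v, u, hs, hv, hu, rfl, rfl, Or.inr ⟨hbin, rfl, hR⟩⟩)
        refine ⟨H, hH, fun _ _ => ?_⟩
        rintro ⟨x, y⟩ ⟨m, h1, h2⟩ hxy
        exact Set.disjoint_left.1 hHU (h1.2 hu) ⟨y, hxy, h2.1 hv⟩
      · -- base
        have hvt := hlow s v hs hv ⟨_, Or.inr hbin⟩
        have hut := hlow s u hs hu ⟨_, Or.inl hbin⟩
        have hA : Good (relComp (I s) {p : V | (p.2, p.1) ∈ g.RS v}) := by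
          refine Good.comp (good_semilinear (hIsemi s hs)) ?_
          refine ((h v hvt).1.image swapHom).of_eq ?_
          ext ⟨a, b⟩
          constructor
          · rintro ⟨⟨c, d⟩, hcd, heq⟩
            simp only [swapHom, AddMonoidHom.prod_apply, AddMonoidHom.coe_fst,
              AddMonoidHom.coe_snd, Prod.mk.injEq] at heq
            obtain ⟨rfl, rfl⟩ := heq
            exact hcd
          · intro hab
            exact ⟨(b, a), hab, rfl⟩
        obtain ⟨L, hL, hL1, hL2⟩ := Good.separate (h u hut).1 hA (by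
            rw [Set.disjoint_left]
            rintro ⟨x, m⟩ hR ⟨y, h1, h2⟩
            exact Set.disjoint_left.1 (hIdis s) h1 (BG.R.bin hbin hR h2))
        obtain ⟨H1, hH1, hHU1⟩ := (h u hut).2 Lᶜ hL.compl (by
          rw [Set.disjoint_left]
          exact fun p hp hp' => hp' (hL1 hp))
        obtain ⟨H2, hH2, hHU2⟩ := (h v hvt).2 (relComp {p : V | (p.2, p.1) ∈ L} (I s))
          (semilinear_comp (semilinear_swap hL) (hIsemi s hs)) (by
            rw [Set.disjoint_left]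
            rintro ⟨m, y⟩ hR ⟨x, h1, h2⟩
            exact Set.disjoint_left.1 hL2 h1 ⟨y, h2, hR⟩)
        refine ⟨fun w => ⋂ i : Bool, (if i then H1 else H2) w,
          BG.Ind.iInter (H := fun i : Bool => if i then H1 else H2) (by
            intro i; cases i
            · exact hH2
            · exact hH1), fun _ _ => ?_⟩
        rintro ⟨x, y⟩ ⟨m, h1, h2⟩ hxy
        have h3 := h1.2 hu
        have h4 := h2.2 hv
        rw [mem_iInter] at h3 h4
        have h5 : (x, m) ∈ H1 u := h3 true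
        have h6 : (m, y) ∈ H2 v := h4 false
        have h7 : (x, m) ∈ L := by
          by_contra hne
          exact Set.disjoint_left.1 hHU1 h5 hne
        exact Set.disjoint_left.1 hHU2 h6 ⟨x, h7, hxy⟩
  choose HH hHH1 hHH2 using hsepar
  have hHind : g.Ind (fun s => ⋂ x, HH x s) := BG.Ind.iInter hHH1
  set H : T → Set V := fun s => ⋂ x, HH x s with hHdef
  let G : T → Set V := fun w => {z | g.C t w → z ∈ (I w)ᶜ} ∩
    {z | (¬ g.C t w ∧ g.To t w) → z ∈ H w}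
  refine ⟨G, ⟨fun w => ?_, fun w => ?_, fun s u v hbin => ?_⟩, ?_⟩
  · exact (semilinear_imp fun hw => (hIsemi w hw).compl).inter
      (semilinear_imp fun _ => hHind.semi w)
  · intro z hz
    refine ⟨fun hw hzI => ?_, fun _ => hHind.prim w hz⟩
    exact Set.disjoint_left.1 (hIdis w) hzI (BG.R.prim (x := z.1) (y := z.2) hz)
  · rintro ⟨x, y⟩ ⟨m, h1, h2⟩
    have hGsub : ∀ w, g.To t w → G w ⊆ GG H w := by
      intro w hw z hz
      exact ⟨hz.1, fun hc => hz.2 ⟨hc, hw⟩⟩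
    refine ⟨fun hs => ?_, ?_⟩
    · have hu : g.To t u := hs.1.tail ⟨v, Or.inl hbin⟩
      have hv : g.To t v := hs.1.tail ⟨u, Or.inr hbin⟩
      refine hHH2 (s, u, v) hs hbin ⟨m, ?_, ?_⟩
      · have := hGsub u hu h1
        refine ⟨this.1, fun hc => ?_⟩
        have h3 := this.2 hc
        rw [hHdef] at h3
        exact mem_iInter.1 h3 _
      · have := hGsub v hv h2
        refine ⟨this.1, fun hc => ?_⟩
        have h3 := this.2 hc
        rw [hHdef] at h3
        exact mem_iInter.1 h3 _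
    · rintro ⟨hs, hts⟩
      have hu : g.Edge s u := ⟨v, Or.inl hbin⟩
      have hv : g.Edge s v := ⟨u, Or.inr hbin⟩
      have hCu : ¬ g.C t u := fun hc => hs ⟨hts, ReflTransGen.head hu hc.2⟩
      have hCv : ¬ g.C t v := fun hc => hs ⟨hts, ReflTransGen.head hv hc.2⟩
      exact hHind.bin s u v hbin ⟨m, h1.2 ⟨hCu, hts.tail hu⟩, h2.2 ⟨hCv, hts.tail hv⟩⟩
  · rw [Set.disjoint_left]
    intro z hz hzU
    exact hz.1 htt (hXI t htt (Or.inr ⟨rfl, hzU⟩))

/-- The main theorem on thin binary grammars. -/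
theorem BG.main [Finite T] {g : BG T} (hg : g.Ok) (t : T) : Good (g.RS t) ∧ g.Sep t := by
  induction t using g.wf.induction with
  | _ t ih =>
    exact ⟨BG.good_RS hg t (fun v hv => (ih v hv).1) t ⟨.refl, .refl⟩, BG.sep hg t ih⟩

end Pool.Agent.Lib.P675cc6
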