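import Mathlib
import Pool.Agent.Lib.P675cc6.Bin

/-!
Codes of one-dimensional grammar vector addition systems, and their inductive certificates.
-/

namespace Pool.Agent.Lib.P675cc6

open Set Pointwise Relation

/-- Words over terminals (integers) and nonterminals (natural numbers). -/
abbrev Wd := List (ℤ ⊕ ℕ)

/-- Lists of rules. -/
abbrev Rls := List (ℕ × Wd)

/-- `RunC ρ s i o`: the sentential form `s` can be derived to a word of integers which leads
from level `i` to level `o` with all intermediate levels in `ℕ`. -/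
inductive RunC (ρ : Rls) : Wd → ℕ → ℕ → Prop
  | nil (i : ℕ) : RunC ρ [] i i
  | term {z : ℤ} {s : Wd} {i j o : ℕ} : (i : ℤ) + z = j → RunC ρ s j o →
      RunC ρ (.inl z :: s) i o
  | nt {X : ℕ} {α s : Wd} {i m o : ℕ} : (X, α) ∈ ρ → RunC ρ α i m → RunC ρ s m o →
      RunC ρ (.inr X :: s) i o

theorem RunC.shift {ρ : Rls} {s : Wd} {i o : ℕ} (h : RunC ρ s i o) (x : ℕ) :
    RunC ρ s (i + x) (o + x) := by
  induction h with
  | nil i => exact .nil _
  | term hz _ ih => exact .term (by push_cast; omega) ih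
  | nt hr _ _ ih1 ih2 => exact .nt hr ih1 ih2

theorem RunC.nil_iff {ρ : Rls} {i o : ℕ} : RunC ρ [] i o ↔ i = o := by
  constructor
  · intro h; cases h; rfl
  · rintro rfl; exact .nil _

/-- One derivation step. -/
def DvS (ρ : Rls) (s s' : Wd) : Prop := ∃ X α, (X, α) ∈ ρ ∧ ∃ p q : Wd,
  s = p ++ [.inr X] ++ q ∧ s' = p ++ α ++ q

/-- Derivations. -/
def Dv (ρ : Rls) : Wd → Wd → Prop := ReflTransGen (DvS ρ)

theorem Dv.refl (ρ : Rls) (s : Wd) : Dv ρ s s := ReflTransGen.refl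

theorem Dv.trans {ρ : Rls} {s s' s'' : Wd} (h : Dv ρ s s') (h' : Dv ρ s' s'') : Dv ρ s s'' :=
  ReflTransGen.trans h h'

theorem Dv.context {ρ : Rls} {s s' : Wd} (h : Dv ρ s s') (p q : Wd) :
    Dv ρ (p ++ s ++ q) (p ++ s' ++ q) := by
  induction h with
  | refl => exact ReflTransGen.refl
  | tail _ h ih =>
    refine ReflTransGen.tail ih ?_
    obtain ⟨X, α, hX, u, v, rfl, rfl⟩ := h
    exact ⟨X, α, hX, p ++ u, v ++ q, by simp, by simp⟩

/-- No nonterminal derives a sentential form with two occurrences of itself. -/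
def ThinC (ρ : Rls) : Prop := ∀ (X : ℕ) (p q r : Wd),
  ¬ Dv ρ [.inr X] (p ++ [.inr X] ++ q ++ [.inr X] ++ r)

/-- The base items. -/
def base (ρ : Rls) (S : ℕ) : Set Wd := {s | s <:+ [.inr S]} ∪ ⋃ r ∈ {r | r ∈ ρ}, {s | s <:+ r.2}

/-- The items. -/
def items (ρ : Rls) (S : ℕ) : Set Wd := base ρ S ∪ ⋃ s ∈ base ρ S, (fun x => [x]) '' {x | x ∈ s}

theorem base_finite (ρ : Rls) (S : ℕ) : (base ρ S).Finite := by
  have h : ∀ l : Wd, {s : Wd | s <:+ l}.Finite := by
    intro l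
    refine (List.finite_toSet l.tails).subset ?_
    intro s hs
    exact (List.mem_tails s l).2 hs
  exact (h _).union ((List.finite_toSet ρ).biUnion fun r _ => h _)

theorem items_finite (ρ : Rls) (S : ℕ) : (items ρ S).Finite :=
  (base_finite ρ S).union ((base_finite ρ S).biUnion fun s _ => (List.finite_toSet s).image _)

theorem base_tail {ρ : Rls} {S : ℕ} {x : ℤ ⊕ ℕ} {s : Wd} (h : x :: s ∈ base ρ S) :
    s ∈ base ρ S := by
  rcases h with h | h
  · exact Or.inl ((List.suffix_cons x s).trans h)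
  · refine Or.inr ?_
    simp only [mem_iUnion, mem_ofPred_eq] at h ⊢
    obtain ⟨r, hr, h⟩ := h
    exact ⟨r, hr, (List.suffix_cons x s).trans h⟩

theorem base_nil (ρ : Rls) (S : ℕ) : [] ∈ base ρ S := Or.inl (List.nil_suffix)

theorem items_tail {ρ : Rls} {S : ℕ} {x : ℤ ⊕ ℕ} {s : Wd} (h : x :: s ∈ items ρ S) :
    s ∈ items ρ S := by
  rcases h with h | h
  · exact Or.inl (base_tail h)
  · simp only [mem_iUnion, mem_image, mem_ofPred_eq] at h
    obtain ⟨s', hs', y, hy, heq⟩ := h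
    obtain ⟨rfl, rfl⟩ := List.cons.inj heq
    exact Or.inl (base_nil _ _)

theorem items_single {ρ : Rls} {S : ℕ} {x : ℤ ⊕ ℕ} {s : Wd} (h : x :: s ∈ items ρ S) :
    [x] ∈ items ρ S := by
  rcases h with h | h
  · refine Or.inr ?_
    simp only [mem_iUnion, mem_image, mem_ofPred_eq]
    exact ⟨_, h, x, by simp, rfl⟩
  · simp only [mem_iUnion, mem_image, mem_ofPred_eq] at h
    obtain ⟨s', hs', y, hy, heq⟩ := h
    obtain ⟨rfl, rfl⟩ := List.cons.inj heq
    refine Or.inr ?_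
    simp only [mem_iUnion, mem_image, mem_ofPred_eq]
    exact ⟨s', hs', y, hy, rfl⟩

theorem items_body {ρ : Rls} {S : ℕ} {X : ℕ} {α : Wd} (h : (X, α) ∈ ρ) : α ∈ items ρ S := by
  refine Or.inl (Or.inr ?_)
  simp only [mem_iUnion, mem_ofPred_eq]
  exact ⟨(X, α), h, List.suffix_refl _⟩

theorem items_start (ρ : Rls) (S : ℕ) : [.inr S] ∈ items ρ S :=
  Or.inl (Or.inl (List.suffix_refl _))

/-- The binary grammar of a code. -/
def gb (ρ : Rls) (S : ℕ) : BG {s : Wd // s ∈ items ρ S} where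
  prim s := {p | s.1 = [] ∧ p.1 = p.2} ∪ {p | ∃ z : ℤ, s.1 = [.inl z] ∧ (p.1 : ℤ) + z = p.2}
  bin t u v := (∃ z : ℤ, v.1 ≠ [] ∧ t.1 = .inl z :: v.1 ∧ u.1 = [.inl z]) ∨
    (∃ X : ℕ, (X, u.1) ∈ ρ ∧ t.1 = .inr X :: v.1)

theorem gb_sound {ρ : Rls} {S : ℕ} {t : {s : Wd // s ∈ items ρ S}} {x y : ℕ}
    (h : (gb ρ S).R t x y) : RunC ρ t.1 x y := by
  induction h with
  | @prim t x y h =>
    rcases h with ⟨h1, h2⟩ | ⟨z, h1, h2⟩
    · rw [h1]
      dsimp only at h2
      rw [h2]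
      exact .nil _
    · rw [h1]
      exact .term h2 (.nil _)
  | @bin t u v x m y hb _ _ ih1 ih2 =>
    rcases hb with ⟨z, h1, h2, h3⟩ | ⟨X, h1, h2⟩
    · rw [h3] at ih1
      cases ih1 with
      | term hz hn =>
        rw [RunC.nil_iff] at hn
        subst hn
        rw [h2]
        exact .term hz ih2
    · rw [h2]
      exact .nt h1 ih1 ih2

theorem gb_complete {ρ : Rls} {S : ℕ} {s : Wd} {x y : ℕ} (h : RunC ρ s x y) :
    ∀ hs : s ∈ items ρ S, (gb ρ S).R ⟨s, hs⟩ x y := by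
  induction h with
  | nil i => exact fun hs => .prim (Or.inl ⟨rfl, rfl⟩)
  | @term z s i j o hz hr ih =>
    intro hs
    by_cases h0 : s = []
    · subst h0
      rw [RunC.nil_iff] at hr
      subst hr
      exact .prim (Or.inr ⟨z, rfl, hz⟩)
    · refine .bin (u := ⟨[.inl z], items_single hs⟩) (v := ⟨s, items_tail hs⟩)
        (Or.inl ⟨z, h0, rfl, rfl⟩) (m := j) (.prim (Or.inr ⟨z, rfl, hz⟩)) (ih _)
  | @nt X α s i m o hr _ _ ih1 ih2 =>
    intro hs
    exact .bin (u := ⟨α, items_body hr⟩) (v := ⟨s, items_tail hs⟩)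
      (Or.inr ⟨X, hr, rfl⟩) (ih1 _) (ih2 _)

theorem gb_to {ρ : Rls} {S : ℕ} {t u : {s : Wd // s ∈ items ρ S}} (h : (gb ρ S).To t u) :
    ∃ p q : Wd, Dv ρ t.1 (p ++ u.1 ++ q) := by
  induction h with
  | refl => exact ⟨[], [], by simpa using Dv.refl ρ _⟩
  | @tail u w _ h ih =>
    obtain ⟨p, q, hpq⟩ := ih
    have key : ∃ p' q' : Wd, Dv ρ u.1 (p' ++ w.1 ++ q') := by
      obtain ⟨v, (⟨z, -, h2, h3⟩ | ⟨X, h1, h2⟩) | (⟨z, -, h2, h3⟩ | ⟨X, h1, h2⟩)⟩ := h
      · exact ⟨[], v.1, by rw [h2, h3]; exact ReflTransGen.refl⟩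
      · refine ⟨[], v.1, ?_⟩
        rw [h2]
        exact ReflTransGen.single ⟨X, w.1, h1, [], v.1, by simp, by simp⟩
      · exact ⟨[.inl z], [], by rw [h2]; simpa using Dv.refl ρ _⟩
      · exact ⟨[.inr X], [], by rw [h2]; simpa using Dv.refl ρ _⟩
    obtain ⟨p', q', h'⟩ := key
    refine ⟨p ++ p', q' ++ q, Dv.trans hpq ?_⟩
    have := h'.context p q
    simpa using this

theorem gb_ok {ρ : Rls} (hρ : ThinC ρ) (S : ℕ) : (gb ρ S).Ok := by
  refine ⟨fun t => ?_, fun t x y a h => ?_, fun t u v hb hto => ?_⟩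
  · refine IsSemilinearSet.union ?_ ?_
    · by_cases h : t.1 = []
      · have := isSemilinearSet_setOfPred_eq (M := V) (0 : ℕ) 0 (AddMonoidHom.fst ℕ ℕ)
          (AddMonoidHom.snd ℕ ℕ)
        simpa [h] using this
      · simp [h]
    · by_cases h : ∃ z : ℤ, t.1 = [.inl z]
      · obtain ⟨z, hz⟩ := h
        have := isSemilinearSet_setOfPred_eq (M := V) (z.toNat : ℕ) (-z).toNat
          (AddMonoidHom.fst ℕ ℕ) (AddMonoidHom.snd ℕ ℕ)
        convert this using 1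
        ext ⟨x, y⟩
        simp only [mem_ofPred_eq, AddMonoidHom.coe_fst, AddMonoidHom.coe_snd]
        constructor
        · rintro ⟨z', h1, h2⟩
          rw [hz] at h1
          simp only [List.cons.injEq, Sum.inl.injEq, and_true] at h1
          subst h1
          omega
        · intro h
          exact ⟨z, hz, by omega⟩
      · convert IsSemilinearSet.empty using 1
        ext p
        simp only [mem_ofPred_eq, mem_empty_iff_false, iff_false]
        rintro ⟨z, hz, -⟩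
        exact h ⟨z, hz⟩
  · rcases h with ⟨h1, h2⟩ | ⟨z, h1, h2⟩
    · exact Or.inl ⟨h1, by dsimp only at h2 ⊢; omega⟩
    · exact Or.inr ⟨z, h1, by dsimp only at h2 ⊢; push_cast; omega⟩
  · rcases hb with ⟨z, h1, h2, h3⟩ | ⟨X, h1, h2⟩
    · obtain ⟨hu, -⟩ := hto
      rcases ReflTransGen.cases_head hu with h | ⟨w, ⟨v', h⟩, -⟩
      · rw [← h, h3] at h2
        simp only [List.cons.injEq, true_and] at h2
        exact h1 h2.symm
      · rcases h with (⟨z', h4, h5, -⟩ | ⟨X, -, h5⟩) | (⟨z', h4, h5, -⟩ | ⟨X, -, h5⟩)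
        · rw [h3] at h5
          simp only [List.cons.injEq] at h5
          exact h4 h5.2.symm
        · rw [h3] at h5
          simp at h5
        · rw [h3] at h5
          simp only [List.cons.injEq] at h5
          exact h4 h5.2.symm
        · rw [h3] at h5
          simp at h5
    · obtain ⟨hu, hv⟩ := hto
      obtain ⟨p, q, h3⟩ := gb_to hu
      obtain ⟨p', q', h4⟩ := gb_to hv
      refine hρ X p p' (v.1 ++ q' ++ q) ?_
      have e1 : Dv ρ [.inr X] u.1 := ReflTransGen.single ⟨X, u.1, h1, [], [], by simp, by simp⟩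
      have e2 := Dv.trans e1 h3
      have e3 := h4.context (p ++ [.inr X]) q
      rw [h2] at e2 e3
      refine Dv.trans e2 ?_
      simpa using e3

/-- The inductive certificates for codes. -/
theorem word_sep {ρ : Rls} (hρ : ThinC ρ) (S : ℕ) (U : Set V) (hU : IsSemilinearSet U)
    (hd : ∀ p ∈ U, ¬ RunC ρ [.inr S] p.1 p.2) : ∃ G : Wd → Set V,
    (∀ s ∈ items ρ S, IsSemilinearSet (G s)) ∧
    (∀ i, (i, i) ∈ G []) ∧
    (∀ (z : ℤ) (s : Wd), .inl z :: s ∈ items ρ S → ∀ i j o : ℕ, (i : ℤ) + z = j →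
      (j, o) ∈ G s → (i, o) ∈ G (.inl z :: s)) ∧
    (∀ (X : ℕ) (α s : Wd), .inr X :: s ∈ items ρ S → (X, α) ∈ ρ →
      relComp (G α) (G s) ⊆ G (.inr X :: s)) ∧
    Disjoint (G [.inr S]) U := by
  classical
  have : Finite {s : Wd // s ∈ items ρ S} := (items_finite ρ S).to_subtype
  have hmain := (BG.main (gb_ok hρ S) ⟨[.inr S], items_start ρ S⟩).2 U hU (by
    rw [Set.disjoint_left]
    intro p hp hpU
    exact hd p hpU (gb_sound hp))
  obtain ⟨G0, hG0, hG0U⟩ := hmain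
  let G : Wd → Set V := fun s => if s = [] then {p | p.1 = p.2} else
    if h : s ∈ items ρ S then G0 ⟨s, h⟩ else ∅
  have hG1 : G [] = {p | p.1 = p.2} := by simp [G]
  have hG2 : ∀ s (h : s ∈ items ρ S), s ≠ [] → G s = G0 ⟨s, h⟩ := by
    intro s h h0
    simp [G, h, h0]
  have hG3 : ∀ s (h : s ∈ items ρ S), G s ⊆ G0 ⟨s, h⟩ := by
    intro s h
    by_cases h0 : s = []
    · subst h0
      rw [hG1]
      intro p hp
      exact hG0.prim _ (Or.inl ⟨rfl, hp⟩)
    · rw [hG2 s h h0]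
  refine ⟨G, fun s hs => ?_, fun i => ?_, fun z s hs i j o hz hj => ?_,
    fun X α s hs hr => ?_, ?_⟩
  · by_cases h0 : s = []
    · subst h0
      rw [hG1]
      have := isSemilinearSet_setOfPred_eq (M := V) (0 : ℕ) 0 (AddMonoidHom.fst ℕ ℕ)
          (AddMonoidHom.snd ℕ ℕ)
      simpa using this
    · rw [hG2 s hs h0]
      exact hG0.semi _
  · rw [hG1]; rfl
  · rw [hG2 _ hs (by simp)]
    by_cases h0 : s = []
    · subst h0
      rw [hG1] at hj
      have hj' : j = o := hj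
      subst hj'
      exact hG0.prim _ (Or.inr ⟨z, rfl, hz⟩)
    · refine hG0.bin ⟨.inl z :: s, hs⟩ ⟨[.inl z], items_single hs⟩ ⟨s, items_tail hs⟩
        (Or.inl ⟨z, h0, rfl, rfl⟩) ⟨j, ?_, hG3 _ _ hj⟩
      exact hG0.prim _ (Or.inr ⟨z, rfl, hz⟩)
  · rw [hG2 _ hs (by simp)]
    rintro ⟨i, o⟩ ⟨m, h1, h2⟩
    exact hG0.bin ⟨.inr X :: s, hs⟩ ⟨α, items_body hr⟩ ⟨s, items_tail hs⟩
      (Or.inr ⟨X, hr, rfl⟩) ⟨m, hG3 _ _ h1, hG3 _ _ h2⟩
  · rw [hG2 _ (items_start ρ S) (by simp)]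
    exact hG0U

end Pool.Agent.Lib.P675cc6
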