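import Mathlib
import Pool.Agent.Lib.P675cc6.Word
import Pool.Agent.Lib.P675cc6.Kruskal

/-!
Syntactic contexts and pump families, and the amalgamation of derivation trees.
-/

namespace Pool.Agent.Lib.P675cc6

open Set Pointwise

/-- Syntactic one-hole contexts. -/
inductive CT (ρ : Rls) : Wd → ℕ → ℕ → Wd → ℕ → ℕ → Prop
  | refl (s : Wd) (p q : ℕ) : CT ρ s p q s p q
  | tail {z : ℤ} {s s' : Wd} {p p1 q p' q' : ℕ} : (p : ℤ) + z = p1 → CT ρ s p1 q s' p' q' →
      CT ρ (.inl z :: s) p q s' p' q'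
  | left {X : ℕ} {α s s' : Wd} {p m q p' q' : ℕ} : (X, α) ∈ ρ → CT ρ α p m s' p' q' →
      RunC ρ s m q → CT ρ (.inr X :: s) p q s' p' q'
  | right {X : ℕ} {α s s' : Wd} {p m q p' q' : ℕ} : (X, α) ∈ ρ → RunC ρ α p m →
      CT ρ s m q s' p' q' → CT ρ (.inr X :: s) p q s' p' q'

/-- Pump families: `PF ρ s i x o y` implies `RunC ρ s (i + k * x) (o + k * y)` for all `k`. -/
inductive PF (ρ : Rls) : Wd → ℕ → ℕ → ℕ → ℕ → Prop
  | nil (i x : ℕ) : PF ρ [] i x i x
  | term {z : ℤ} {s : Wd} {i j x o y : ℕ} : (i : ℤ) + z = j → PF ρ s j x o y →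
      PF ρ (.inl z :: s) i x o y
  | nt {X : ℕ} {α s : Wd} {i x m w o y : ℕ} : (X, α) ∈ ρ → PF ρ α i x m w → PF ρ s m w o y →
      PF ρ (.inr X :: s) i x o y
  | ctx {s : Wd} {i x o y h k : ℕ} : CT ρ s (i + x) (o + y) s (i + h) (o + k) →
      PF ρ s i h o k → PF ρ s i x o y

theorem CT.sem {ρ : Rls} {s s' : Wd} {p q p' q' : ℕ} (h : CT ρ s p q s' p' q') :
    ∀ x y : ℕ, RunC ρ s' (p' + x) (q' + y) → RunC ρ s (p + x) (q + y) := by
  induction h with
  | refl => exact fun x y h => h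
  | tail hz _ ih => exact fun x y h => .term (by push_cast; omega) (ih x y h)
  | left hr _ hs ih => exact fun x y h => .nt hr (ih x y h) (hs.shift y)
  | right hr hs _ ih => exact fun x y h => .nt hr (hs.shift x) (ih x y h)

theorem CT.trans {ρ : Rls} {s s' s'' : Wd} {p q p' q' p'' q'' : ℕ} (h : CT ρ s p q s' p' q')
    (h' : CT ρ s' p' q' s'' p'' q'') : CT ρ s p q s'' p'' q'' := by
  induction h with
  | refl => exact h'
  | tail hz _ ih => exact .tail hz (ih h')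
  | left hr _ hs ih => exact .left hr (ih h') hs
  | right hr hs _ ih => exact .right hr hs (ih h')

theorem CT.shift {ρ : Rls} {s s' : Wd} {p q p' q' : ℕ} (h : CT ρ s p q s' p' q') (x y : ℕ) :
    CT ρ s (p + x) (q + y) s' (p' + x) (q' + y) := by
  induction h with
  | refl => exact .refl _ _ _
  | tail hz _ ih => exact .tail (by push_cast; omega) ih
  | left hr _ hs ih => exact .left hr ih (hs.shift y)
  | right hr hs _ ih => exact .right hr (hs.shift x) ih

theorem PF.sem {ρ : Rls} {s : Wd} {i x o y : ℕ} (h : PF ρ s i x o y) :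
    ∀ k : ℕ, RunC ρ s (i + k * x) (o + k * y) := by
  induction h with
  | nil => exact fun k => .nil _
  | term hz _ ih => exact fun k => .term (by push_cast; omega) (ih k)
  | nt hr _ _ ih1 ih2 => exact fun k => .nt hr (ih1 k) (ih2 k)
  | @ctx s i x o y h k hc _ ih =>
    have key : ∀ n a b : ℕ, RunC ρ s (i + n * h + a) (o + n * k + b) →
        RunC ρ s (i + n * x + a) (o + n * y + b) := by
      intro n
      induction n with
      | zero =>
        intro a b hr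
        simpa using hr
      | succ n ihn =>
        intro a b hr
        have h1 := ihn (h + a) (k + b) (by
          rw [show i + n * h + (h + a) = i + (n + 1) * h + a by ring,
            show o + n * k + (k + b) = o + (n + 1) * k + b by ring]
          exact hr)
        have h2 := hc.sem (n * x + a) (n * y + b) (by
          rw [show i + h + (n * x + a) = i + n * x + (h + a) by ring,
            show o + k + (n * y + b) = o + n * y + (k + b) by ring]
          exact h1)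
        rw [show i + (n + 1) * x + a = i + x + (n * x + a) by ring,
            show o + (n + 1) * y + b = o + y + (n * y + b) by ring]
        exact h2
    intro n
    have := key n 0 0 (by simpa using ih n)
    simpa using this

theorem PF.of_run {ρ : Rls} {s : Wd} {i o : ℕ} (h : RunC ρ s i o) (w : ℕ) : PF ρ s i w o w := by
  induction h with
  | nil => exact .nil _ _
  | term hz _ ih => exact .term hz ih
  | nt hr _ _ ih1 ih2 => exact .nt hr ih1 ih2

theorem CT.apply {ρ : Rls} {s s' : Wd} {p q p' q' : ℕ} (h : CT ρ s p q s' p' q') {x y : ℕ}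
    (hp : PF ρ s' p' x q' y) : PF ρ s p x q y := by
  induction h with
  | refl => exact hp
  | tail hz _ ih => exact .term hz (ih hp)
  | left hr _ hs ih => exact .nt hr (ih hp) (PF.of_run hs y)
  | right hr hs _ ih => exact .nt hr (PF.of_run hs x) (ih hp)

theorem CT.amalgam {ρ : Rls} {s : Wd} {i o x1 y1 h1 k1 x2 y2 h2 k2 : ℕ}
    (c1 : CT ρ s (i + x1) (o + y1) s (i + h1) (o + k1))
    (c2 : CT ρ s (i + x2) (o + y2) s (i + h2) (o + k2)) :
    CT ρ s (i + (x1 + x2)) (o + (y1 + y2)) s (i + (h1 + h2)) (o + (k1 + k2)) := by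
  have e1 := c1.shift x2 y2
  have e2 := c2.shift h1 k1
  rw [show i + x1 + x2 = i + (x1 + x2) by ring, show o + y1 + y2 = o + (y1 + y2) by ring] at e1
  rw [show i + x2 + h1 = i + h1 + x2 by ring, show o + y2 + k1 = o + k1 + y2 by ring,
    show i + h2 + h1 = i + (h1 + h2) by ring, show o + k2 + k1 = o + (k1 + k2) by ring] at e2
  exact e1.trans e2

/-- From pumps inside to pumps outside. -/
theorem CT.lift {ρ : Rls} {s : Wd} {i o x1 y1 h1 k1 x2 y2 h2 k2 : ℕ}
    (c1 : CT ρ s (i + x1) (o + y1) s (i + h1) (o + k1))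
    (c2 : CT ρ s (i + x2) (o + y2) s (i + h2) (o + k2))
    (hp : PF ρ s (i + h1) h2 (o + k1) k2) : PF ρ s (i + x1) x2 (o + y1) y2 := by
  refine c1.apply (.ctx (h := h2) (k := k2) ?_ hp)
  have e2 := c2.shift h1 k1
  rwa [show i + x2 + h1 = i + h1 + x2 by ring, show o + y2 + k1 = o + k1 + y2 by ring,
    show i + h2 + h1 = i + h1 + h2 by ring, show o + k2 + k1 = o + k1 + k2 by ring] at e2

/-- The labels of derivation trees. -/
structure Lc where
  s : Wd
  α : Wd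
  i : ℕ
  m : ℕ
  o : ℕ

/-- The order on labels. -/
def LcLe (l l' : Lc) : Prop :=
  l.s = l'.s ∧ l.α = l'.α ∧ l.i ≤ l'.i ∧ l.m ≤ l'.m ∧ l.o ≤ l'.o

instance : IsPreorder Lc LcLe where
  refl _ := ⟨rfl, rfl, le_rfl, le_rfl, le_rfl⟩
  trans _ _ _ h h' := ⟨h.1.trans h'.1, h.2.1.trans h'.2.1, h.2.2.1.trans h'.2.2.1,
    h.2.2.2.1.trans h'.2.2.2.1, h.2.2.2.2.trans h'.2.2.2.2⟩

/-- Valid derivation trees. -/
inductive VT (ρ : Rls) : BTree Lc → Wd → ℕ → ℕ → Prop
  | nil (i : ℕ) : VT ρ (.node ⟨[], [], i, i, i⟩ .leaf .leaf) [] i i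
  | term {z : ℤ} {s : Wd} {i j o : ℕ} {b : BTree Lc} : (i : ℤ) + z = j → VT ρ b s j o →
      VT ρ (.node ⟨.inl z :: s, [], i, i, o⟩ .leaf b) (.inl z :: s) i o
  | nt {X : ℕ} {α s : Wd} {i m o : ℕ} {a b : BTree Lc} : (X, α) ∈ ρ →
      VT ρ a α i m → VT ρ b s m o →
      VT ρ (.node ⟨.inr X :: s, α, i, m, o⟩ a b) (.inr X :: s) i o

theorem RunC.exists_valid {ρ : Rls} {s : Wd} {i o : ℕ} (h : RunC ρ s i o) : ∃ t, VT ρ t s i o := by
  induction h with
  | nil i => exact ⟨_, .nil _⟩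
  | term hz _ ih =>
    obtain ⟨t, ht⟩ := ih
    exact ⟨_, .term hz ht⟩
  | nt hr _ _ ih1 ih2 =>
    obtain ⟨t1, h1⟩ := ih1
    obtain ⟨t2, h2⟩ := ih2
    exact ⟨_, .nt hr h1 h2⟩

theorem VT.run {ρ : Rls} {t : BTree Lc} {s : Wd} {i o : ℕ} (h : VT ρ t s i o) :
    RunC ρ s i o := by
  induction h with
  | nil i => exact .nil _
  | term hz _ ih => exact .term hz ih
  | nt hr _ _ ih1 ih2 => exact .nt hr ih1 ih2

/-- `Up ρ t x y`: the tree `t` can be pumped (strictly inside) so that the input level grows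
by `x` and the output level grows by `y`. -/
def Up (ρ : Rls) : BTree Lc → ℕ → ℕ → Prop
  | .leaf => fun _ _ => False
  | .node l a b => fun x y =>
    match l.s with
    | [] => x = y
    | .inl z :: s => ∃ j h k : ℕ, (l.i : ℤ) + z = j ∧
        CT ρ s (j + x) (l.o + y) s (j + h) (l.o + k) ∧ Up ρ b h k
    | .inr _ :: s => ∃ w h k h' k' : ℕ,
        CT ρ l.α (l.i + x) (l.m + w) l.α (l.i + h) (l.m + k) ∧ Up ρ a h k ∧
        CT ρ s (l.m + w) (l.o + y) s (l.m + h') (l.o + k') ∧ Up ρ b h' k'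

theorem Up.zero {ρ : Rls} {t : BTree Lc} {s : Wd} {i o : ℕ}
    (ht : VT ρ t s i o) : Up ρ t 0 0 := by
  induction ht with
  | nil i => simp only [Up]
  | @term z s i j o b hz _ ih =>
    simp only [Up]
    exact ⟨j, 0, 0, hz, CT.refl _ _ _, ih⟩
  | @nt r α s i m o a b hr _ _ ih1 ih2 =>
    simp only [Up]
    exact ⟨0, 0, 0, 0, 0, CT.refl _ _ _, ih1, CT.refl _ _ _, ih2⟩

theorem Up.add {ρ : Rls} {t : BTree Lc} {s : Wd} {i o : ℕ}
    (ht : VT ρ t s i o) : ∀ x1 y1 x2 y2 : ℕ, Up ρ t x1 y1 → Up ρ t x2 y2 →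
    Up ρ t (x1 + x2) (y1 + y2) := by
  induction ht with
  | nil i =>
    intro x1 y1 x2 y2 h1 h2
    simp only [Up] at h1 h2 ⊢
    rw [h1, h2]
  | @term z s i j o b hz _ ih =>
    intro x1 y1 x2 y2 h1 h2
    simp only [Up] at h1 h2 ⊢
    obtain ⟨j1, a1, b1, hj1, hc1, hu1⟩ := h1
    obtain ⟨j2, a2, b2, hj2, hc2, hu2⟩ := h2
    obtain rfl : j1 = j := by omega
    obtain rfl : j2 = j1 := by omega
    exact ⟨j2, a1 + a2, b1 + b2, hj2, hc1.amalgam hc2, ih _ _ _ _ hu1 hu2⟩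
  | @nt X α s i m o a b hr _ _ ih1 ih2 =>
    intro x1 y1 x2 y2 h1 h2
    simp only [Up] at h1 h2 ⊢
    obtain ⟨w1, a1, b1, a1', b1', hc1, hu1, hc1', hu1'⟩ := h1
    obtain ⟨w2, a2, b2, a2', b2', hc2, hu2, hc2', hu2'⟩ := h2
    exact ⟨w1 + w2, a1 + a2, b1 + b2, a1' + a2', b1' + b2', hc1.amalgam hc2,
      ih1 _ _ _ _ hu1 hu2, hc1'.amalgam hc2', ih2 _ _ _ _ hu1' hu2'⟩

/-- Pumping by one pump at a tree which has been pumped by another one. -/
theorem Up.pf {ρ : Rls} {t : BTree Lc} {s : Wd} {i o : ℕ}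
    (ht : VT ρ t s i o) : ∀ x1 y1 x2 y2 : ℕ, Up ρ t x1 y1 → Up ρ t x2 y2 →
    PF ρ s (i + x1) x2 (o + y1) y2 := by
  induction ht with
  | nil i =>
    intro x1 y1 x2 y2 h1 h2
    simp only [Up] at h1 h2
    rw [h1, h2]
    exact .nil _ _
  | @term z s i j o b hz _ ih =>
    intro x1 y1 x2 y2 h1 h2
    simp only [Up] at h1 h2
    obtain ⟨j1, a1, b1, hj1, hc1, hu1⟩ := h1
    obtain ⟨j2, a2, b2, hj2, hc2, hu2⟩ := h2
    obtain rfl : j1 = j := by omega
    obtain rfl : j2 = j1 := by omega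
    exact .term (j := j2 + x1) (by push_cast; omega) (hc1.lift hc2 (ih _ _ _ _ hu1 hu2))
  | @nt X α s i m o a b hr _ _ ih1 ih2 =>
    intro x1 y1 x2 y2 h1 h2
    simp only [Up] at h1 h2
    obtain ⟨w1, a1, b1, a1', b1', hc1, hu1, hc1', hu1'⟩ := h1
    obtain ⟨w2, a2, b2, a2', b2', hc2, hu2, hc2', hu2'⟩ := h2
    exact .nt hr (hc1.lift hc2 (ih1 _ _ _ _ hu1 hu2)) (hc1'.lift hc2' (ih2 _ _ _ _ hu1' hu2'))

/-- An embedded tree can be pumped to the larger one. -/
theorem emb_Up {ρ : Rls} {t t' : BTree Lc} (he : BTree.Emb LcLe t t') :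
    ∀ {s s' : Wd} {i o i' o' : ℕ}, VT ρ t s i o → VT ρ t' s' i' o' →
    ∃ h k : ℕ, CT ρ s' i' o' s (i + h) (o + k) ∧ Up ρ t h k := by
  induction he with
  | leaf t => intro s s' i o i' o' h; cases h
  | @left t l' a' b' _ ih =>
    intro s s' i o i' o' h h'
    cases h' with
    | nil =>
      cases h <;> rename_i he <;> cases he
    | term hz hb => cases h <;> rename_i he <;> cases he
    | @nt r α' s' i' m' o' a' b' hr ha hb =>
      obtain ⟨x, y, hc, hu⟩ := ih h ha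
      exact ⟨x, y, .left hr hc hb.run, hu⟩
  | @right t l' a' b' _ ih =>
    intro s s' i o i' o' h h'
    cases h' with
    | nil =>
      cases h <;> rename_i he <;> cases he
    | @term z s' i' j' o' b' hz hb =>
      obtain ⟨x, y, hc, hu⟩ := ih h hb
      exact ⟨x, y, .tail hz hc, hu⟩
    | @nt r α' s' i' m' o' a' b' hr ha hb =>
      obtain ⟨x, y, hc, hu⟩ := ih h hb
      exact ⟨x, y, .right hr ha.run hc, hu⟩
  | @node l l' a a' b b' hl _ _ iha ihb =>
    intro s s' i o i' o' h h'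
    obtain ⟨hs, hα, hi, hm, ho⟩ := hl
    cases h with
    | nil i =>
      cases h' with
      | nil i' =>
        simp only at hi
        obtain ⟨x, rfl⟩ := Nat.exists_eq_add_of_le hi
        exact ⟨x, x, CT.refl _ _ _, by simp only [Up]⟩
      | term => simp at hs
      | nt => simp at hs
    | @term z s i j o b hz hb =>
      cases h' with
      | nil => simp at hs
      | nt => simp at hs
      | @term z' s' i' j' o' b' hz' hb' =>
        simp only [List.cons.injEq, Sum.inl.injEq] at hs hi ho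
        obtain ⟨rfl, rfl⟩ := hs
        obtain ⟨x, rfl⟩ := Nat.exists_eq_add_of_le hi
        obtain ⟨y, rfl⟩ := Nat.exists_eq_add_of_le ho
        obtain ⟨p, q, hc, hu⟩ := ihb hb hb'
        obtain rfl : j' = j + x := by push_cast at hz'; omega
        refine ⟨x, y, CT.refl _ _ _, ?_⟩
        simp only [Up]
        exact ⟨j, p, q, hz, hc, hu⟩
    | @nt r α s i m o a b hr ha hb =>
      cases h' with
      | nil => simp at hs
      | term => simp at hs
      | @nt r' α' s' i' m' o' a' b' hr' ha' hb' =>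
        simp only [List.cons.injEq, Sum.inr.injEq] at hs hi ho hm hα
        obtain ⟨rfl, rfl⟩ := hs
        subst hα
        obtain ⟨x, rfl⟩ := Nat.exists_eq_add_of_le hi
        obtain ⟨w, rfl⟩ := Nat.exists_eq_add_of_le hm
        obtain ⟨y, rfl⟩ := Nat.exists_eq_add_of_le ho
        obtain ⟨p, q, hc, hu⟩ := iha ha ha'
        obtain ⟨p', q', hc', hu'⟩ := ihb hb hb'
        refine ⟨x, y, CT.refl _ _ _, ?_⟩
        simp only [Up]
        exact ⟨w, p, q, p', q', hc, hu, hc', hu'⟩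

/-- The labels which occur. -/
def lcs (ρ : Rls) (S : ℕ) : Set Lc := {l | l.s ∈ base ρ S ∧ l.α ∈ insert [] (Prod.snd '' {r | r ∈ ρ})}

theorem lcs_pwo (ρ : Rls) (S : ℕ) : (lcs ρ S).PartiallyWellOrderedOn LcLe := by
  have h1 : (base ρ S ×ˢ (insert [] (Prod.snd '' {r | r ∈ ρ}))).PartiallyWellOrderedOn
      (fun x y => x = y) :=
    ((base_finite ρ S).prod (((List.finite_toSet ρ).image _).insert _)).partiallyWellOrderedOn
  have h2 : (univ : Set ℕ).PartiallyWellOrderedOn (· ≤ ·) :=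
    isPWO_of_wellQuasiOrderedLE _
  have h3 := h1.prod (h2.prod (h2.prod h2))
  rw [partiallyWellOrderedOn_iff_exists_lt]
  intro f hf
  obtain ⟨m, n, hmn, he, h4, h5, h6⟩ := h3.exists_lt
    (f := fun n => (((f n).s, (f n).α), (f n).i, (f n).m, (f n).o))
    (fun n => ⟨⟨(hf n).1, (hf n).2⟩, mem_univ _, mem_univ _, mem_univ _⟩)
  simp only [Prod.mk.injEq] at he
  exact ⟨m, n, hmn, he.1, he.2, h4, h5, h6⟩

theorem base_body {ρ : Rls} {S : ℕ} {X : ℕ} {α : Wd} (h : (X, α) ∈ ρ) : α ∈ base ρ S := by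
  refine Or.inr ?_
  simp only [mem_iUnion, mem_ofPred_eq]
  exact ⟨(X, α), h, List.suffix_refl _⟩

theorem vt_over {ρ : Rls} {S : ℕ} {t : BTree Lc} {s : Wd} {i o : ℕ} (h : VT ρ t s i o)
    (hs : s ∈ base ρ S) : t.Over (lcs ρ S) := by
  induction h with
  | nil i => exact ⟨⟨hs, mem_insert _ _⟩, trivial, trivial⟩
  | term hz _ ih => exact ⟨⟨hs, mem_insert _ _⟩, trivial, ih (base_tail hs)⟩
  | @nt X α s i m o a b hr _ _ ih1 ih2 =>
    exact ⟨⟨hs, mem_insert_of_mem _ ⟨(X, α), hr, rfl⟩⟩, ih1 (base_body hr), ih2 (base_tail hs)⟩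

/-- The structure of reachability sets. -/
theorem run_struct (ρ : Rls) (S a : ℕ) : ∃ F : Finset (ℕ × AddSubmonoid ℕ),
    {b | RunC ρ [.inr S] a b} = ⋃ x ∈ F, (x.1 +ᵥ (x.2 : Set ℕ)) ∧
    ∀ x ∈ F, ∀ y1 ∈ x.2, ∀ y2 ∈ x.2, PF ρ [.inr S] a 0 (x.1 + y1) y2 := by
  classical
  set s0 : Wd := [.inr S] with hs0
  have hmem : s0 ∈ base ρ S := Or.inl (List.suffix_refl _)
  have hpwo := (BTree.kruskal LcLe (lcs_pwo ρ S)).prod
    (show (univ : Set ℕ).PartiallyWellOrderedOn (· ≤ ·) from isPWO_of_wellQuasiOrderedLE _)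
  obtain ⟨F, hF, hbasis⟩ : ∃ F : Finset (BTree Lc × ℕ), (∀ x ∈ F, VT ρ x.1 s0 a x.2) ∧
      ∀ y : BTree Lc × ℕ, VT ρ y.1 s0 a y.2 →
        ∃ x ∈ F, BTree.Emb LcLe x.1 y.1 ∧ x.2 ≤ y.2 := by
    by_contra hcon
    push Not at hcon
    obtain ⟨f, hf1, hf2⟩ := exists_seq_of_forall_finset_exists
      (fun x : BTree Lc × ℕ => VT ρ x.1 s0 a x.2)
      (fun x y => ¬ (BTree.Emb LcLe x.1 y.1 ∧ x.2 ≤ y.2)) (by
        intro F hF
        obtain ⟨y, hy, h⟩ := hcon F hF
        refine ⟨y, hy, fun x hx hxy => ?_⟩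
        exact absurd hxy.2 (not_le.2 (h x hx hxy.1)))
    obtain ⟨m, n, hmn, h⟩ := hpwo.exists_lt (f := f)
      (fun n => ⟨vt_over (hf1 n) hmem, mem_univ _⟩)
    exact hf2 m n hmn h
  have hPex : ∀ x : BTree Lc × ℕ, ∃ P : AddSubmonoid ℕ, x ∈ F → (P : Set ℕ) =
      {y | ∃ h k : ℕ, CT ρ s0 a (x.2 + y) s0 (a + h) (x.2 + k) ∧ Up ρ x.1 h k} := by
    intro x
    by_cases hx : x ∈ F
    · have hval := hF x hx
      refine ⟨{ carrier := {y | ∃ h k : ℕ, CT ρ s0 a (x.2 + y) s0 (a + h) (x.2 + k) ∧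
                  Up ρ x.1 h k}
                zero_mem' := ⟨0, 0, CT.refl _ _ _, Up.zero hval⟩
                add_mem' := ?_ }, fun _ => rfl⟩
      rintro y1 y2 ⟨h1, k1, c1, u1⟩ ⟨h2, k2, c2, u2⟩
      refine ⟨h1 + h2, k1 + k2, ?_, Up.add hval _ _ _ _ u1 u2⟩
      exact CT.amalgam (x1 := 0) (x2 := 0) c1 c2
    · exact ⟨⊥, fun h => absurd h hx⟩
  choose P hP using hPex
  refine ⟨F.image fun x => (x.2, P x), ?_, ?_⟩
  · ext b
    simp only [mem_ofPred_eq, mem_iUnion, Finset.mem_image, exists_prop]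
    constructor
    · intro hb
      obtain ⟨t, ht⟩ := hb.exists_valid
      obtain ⟨x, hx, he, hle⟩ := hbasis (t, b) ht
      obtain ⟨h, k, hc, hu⟩ := emb_Up he (hF x hx) ht
      obtain ⟨y, rfl⟩ := Nat.exists_eq_add_of_le hle
      refine ⟨_, ⟨x, hx, rfl⟩, y, ?_, rfl⟩
      rw [hP x hx]
      exact ⟨h, k, hc, hu⟩
    · rintro ⟨_, ⟨x, hx, rfl⟩, y, hy, rfl⟩
      dsimp only at hy ⊢
      rw [hP x hx] at hy
      obtain ⟨h, k, hc, hu⟩ := hy
      have h1 := Up.pf (hF x hx) _ _ _ _ hu (Up.zero (hF x hx))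
      have h2 := (hc.apply h1).sem 0
      simpa using h2
  · rintro _ hx'
    rw [Finset.mem_image] at hx'
    obtain ⟨x, hx, rfl⟩ := hx'
    intro y1 hy1 y2 hy2
    dsimp only at *
    rw [← SetLike.mem_coe, hP x hx] at hy1 hy2
    obtain ⟨h1, k1, c1, u1⟩ := hy1
    obtain ⟨h2, k2, c2, u2⟩ := hy2
    exact CT.lift (x1 := 0) (x2 := 0) c1 c2 (Up.pf (hF x hx) _ _ _ _ u1 u2)

theorem runC_semilinear (ρ : Rls) (S a : ℕ) : IsSemilinearSet {b | RunC ρ [.inr S] a b} := by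
  obtain ⟨F, hF, -⟩ := run_struct ρ S a
  rw [hF]
  exact IsSemilinearSet.biUnion_finset fun x _ =>
    (IsSemilinearSet.of_fg (Nat.addSubmonoid_fg x.2)).vadd _

/-- Ultimate periodicity with syntactic pumps. -/
theorem run_period (ρ : Rls) (S a : ℕ) : ∃ M T : ℕ, 0 < M ∧
    (∀ b, T ≤ b → RunC ρ [.inr S] a b → PF ρ [.inr S] a 0 b M) ∧
    (∀ b, T ≤ b → (RunC ρ [.inr S] a b ↔ RunC ρ [.inr S] a (T + (b - T) % M))) := by
  classical
  obtain ⟨F, hF, hPF⟩ := run_struct ρ S a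
  obtain ⟨k, p, hp, hkp⟩ := Nat.isSemilinearSet_iff_ultimately_periodic.1 (runC_semilinear ρ S a)
  -- a common period
  obtain ⟨M0, hM0, hM0'⟩ : ∃ M0 : ℕ, 0 < M0 ∧ ∀ x ∈ F, (∃ y ∈ x.2, 0 < y) → M0 ∈ x.2 := by
    have h : ∀ x : ℕ × AddSubmonoid ℕ, ∃ y : ℕ, 0 < y ∧ ((∃ y ∈ x.2, 0 < y) → y ∈ x.2) := by
      intro x
      by_cases hx : ∃ y ∈ x.2, 0 < y
      · obtain ⟨y, hy, h0⟩ := hx
        exact ⟨y, h0, fun _ => hy⟩
      · exact ⟨1, one_pos, fun h => absurd h hx⟩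
    choose f hf0 hf using h
    refine ⟨∏ x ∈ F, f x, Finset.prod_pos fun x _ => hf0 x, fun x hx hy => ?_⟩
    obtain ⟨c, hc⟩ := Finset.dvd_prod_of_mem f hx
    rw [hc, mul_comm]
    have := x.2.nsmul_mem (hf x hy) c
    rwa [smul_eq_mul] at this
  set T := k + (∑ x ∈ F, x.1) + 1 with hT
  have hiter : ∀ n b, T ≤ b → (RunC ρ [.inr S] a b ↔ RunC ρ [.inr S] a (b + n * (p * M0))) := by
    have h1 : ∀ n b, k ≤ b → (RunC ρ [.inr S] a b ↔ RunC ρ [.inr S] a (b + n * p)) := by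
      intro n
      induction n with
      | zero => intro b _; simp
      | succ n ih =>
        intro b hb
        have h2 := hkp (b + n * p) (by omega)
        simp only [mem_ofPred_eq] at h2
        rw [ih b hb, h2, show b + n * p + p = b + (n + 1) * p by ring]
    intro n b hb
    rw [h1 (n * M0) b (by omega), show n * M0 * p = n * (p * M0) by ring]
  refine ⟨p * M0, T, Nat.mul_pos hp hM0, fun b hb hrun => ?_, fun b hb => ?_⟩
  · have hb' : b ∈ ⋃ x ∈ F, (x.1 +ᵥ (x.2 : Set ℕ)) := by rw [← hF]; exact hrun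
    simp only [mem_iUnion] at hb'
    obtain ⟨x, hx, y, hy, hxy⟩ := hb'
    have hxy' : x.1 + y = b := hxy
    have h1 : x.1 ≤ ∑ x ∈ F, x.1 := Finset.single_le_sum (f := fun x : ℕ × AddSubmonoid ℕ => x.1)
      (fun _ _ => Nat.zero_le _) hx
    have hy0 : 0 < y := by omega
    have hM := hM0' x hx ⟨y, hy, hy0⟩
    rw [← hxy']
    refine hPF x hx y hy _ ?_
    have := x.2.nsmul_mem hM p
    rwa [smul_eq_mul] at this
  · rw [hiter ((b - T) / (p * M0)) (T + (b - T) % (p * M0)) (Nat.le_add_right _ _)]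
    have h2 := Nat.mod_add_div (b - T) (p * M0)
    rw [show T + (b - T) % (p * M0) + (b - T) / (p * M0) * (p * M0) =
      T + ((b - T) % (p * M0) + (p * M0) * ((b - T) / (p * M0))) by ring, h2,
      Nat.add_sub_cancel' hb]

end Pool.Agent.Lib.P675cc6
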