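import Mathlib
import Pool.Agent.Lib.P675cc6.Kruskal

/-!
One-dimensional grammar vector addition systems: runs, derivation trees with levels,
and the amalgamation of derivation trees.
-/

namespace Pool.Agent.Lib.P675cc6

variable {N : Type}

/-- `Run R s i o`: the sentential form `s` can be derived to a word of integers which leads
from level `i` to level `o` with all intermediate levels in `ℕ`. -/
inductive Run (R : Set (ContextFreeRule ℤ N)) : List (Symbol ℤ N) → ℕ → ℕ → Prop
  | nil (i : ℕ) : Run R [] i i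
  | term {z : ℤ} {s : List (Symbol ℤ N)} {i j o : ℕ} : (i : ℤ) + z = j → Run R s j o →
      Run R (.terminal z :: s) i o
  | nt {r : ContextFreeRule ℤ N} {s : List (Symbol ℤ N)} {i m o : ℕ} : r ∈ R →
      Run R r.output i m → Run R s m o → Run R (.nonterminal r.input :: s) i o

theorem Run.shift {R : Set (ContextFreeRule ℤ N)} {s : List (Symbol ℤ N)} {i o : ℕ}
    (h : Run R s i o) (x : ℕ) : Run R s (i + x) (o + x) := by
  induction h with
  | nil i => exact .nil _
  | term hz _ ih => exact .term (by push_cast; omega) ih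
  | nt hr _ _ ih1 ih2 => exact .nt hr ih1 ih2

/-- The labels of derivation trees: the sentential form, the right-hand side used for its first
symbol and three levels. -/
structure Lab (N : Type) where
  s : List (Symbol ℤ N)
  α : List (Symbol ℤ N)
  i : ℕ
  m : ℕ
  o : ℕ

/-- The order on labels. -/
def LabLe (l l' : Lab N) : Prop :=
  l.s = l'.s ∧ l.α = l'.α ∧ l.i ≤ l'.i ∧ l.m ≤ l'.m ∧ l.o ≤ l'.o

instance : IsPreorder (Lab N) LabLe where
  refl _ := ⟨rfl, rfl, le_rfl, le_rfl, le_rfl⟩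
  trans _ _ _ h h' := ⟨h.1.trans h'.1, h.2.1.trans h'.2.1, h.2.2.1.trans h'.2.2.1,
    h.2.2.2.1.trans h'.2.2.2.1, h.2.2.2.2.trans h'.2.2.2.2⟩

abbrev DTree (N : Type) := BTree (Lab N)

/-- Valid derivation trees. -/
inductive Valid (R : Set (ContextFreeRule ℤ N)) :
    DTree N → List (Symbol ℤ N) → ℕ → ℕ → Prop
  | nil (i : ℕ) : Valid R (.node ⟨[], [], i, i, i⟩ .leaf .leaf) [] i i
  | term {z : ℤ} {s : List (Symbol ℤ N)} {i j o : ℕ} {b : DTree N} : (i : ℤ) + z = j →
      Valid R b s j o →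
      Valid R (.node ⟨.terminal z :: s, [], i, i, o⟩ .leaf b) (.terminal z :: s) i o
  | nt {r : ContextFreeRule ℤ N} {s : List (Symbol ℤ N)} {i m o : ℕ} {a b : DTree N} : r ∈ R →
      Valid R a r.output i m → Valid R b s m o →
      Valid R (.node ⟨.nonterminal r.input :: s, r.output, i, m, o⟩ a b)
        (.nonterminal r.input :: s) i o

theorem Run.exists_valid {R : Set (ContextFreeRule ℤ N)} {s : List (Symbol ℤ N)} {i o : ℕ}
    (h : Run R s i o) : ∃ t, Valid R t s i o := by
  induction h with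
  | nil i => exact ⟨_, .nil _⟩
  | term hz _ ih =>
    obtain ⟨t, ht⟩ := ih
    exact ⟨_, .term hz ht⟩
  | nt hr _ _ ih1 ih2 =>
    obtain ⟨t1, h1⟩ := ih1
    obtain ⟨t2, h2⟩ := ih2
    exact ⟨_, .nt hr h1 h2⟩

theorem Valid.run {R : Set (ContextFreeRule ℤ N)} {t : DTree N} {s : List (Symbol ℤ N)} {i o : ℕ}
    (h : Valid R t s i o) : Run R s i o := by
  induction h with
  | nil i => exact .nil _
  | term hz _ ih => exact .term hz ih
  | nt hr _ _ ih1 ih2 => exact .nt hr ih1 ih2

/-- A semantic context: runs of `s'` near `(h, k)` give runs of `s` near `(i, o)`. -/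
def Ctx (R : Set (ContextFreeRule ℤ N)) (s : List (Symbol ℤ N)) (i o : ℕ)
    (s' : List (Symbol ℤ N)) (h k : ℕ) : Prop :=
  ∀ x y : ℕ, Run R s' (h + x) (k + y) → Run R s (i + x) (o + y)

/-- `Up0 R t s i o x y`: the tree `t`, valid for `(s, i, o)`, can be pumped (strictly inside)
so that the input level grows by `x` and the output level grows by `y`. -/
def Up0 (R : Set (ContextFreeRule ℤ N)) : DTree N → ℕ → ℕ → Prop
  | .leaf => fun _ _ => False
  | .node l a b => fun x y =>
    match l.s with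
    | [] => x = y
    | .terminal z :: s => ∃ j h k : ℕ, (l.i : ℤ) + z = j ∧
        Ctx R s (j + x) (l.o + y) s (j + h) (l.o + k) ∧ Up0 R b h k
    | .nonterminal _ :: s => ∃ w h k h' k' : ℕ,
        Ctx R l.α (l.i + x) (l.m + w) l.α (l.i + h) (l.m + k) ∧ Up0 R a h k ∧
        Ctx R s (l.m + w) (l.o + y) s (l.m + h') (l.o + k') ∧ Up0 R b h' k'

theorem Ctx.refl (R : Set (ContextFreeRule ℤ N)) (s : List (Symbol ℤ N)) (i o : ℕ) :
    Ctx R s i o s i o := fun _ _ h => h

theorem Ctx.trans {R : Set (ContextFreeRule ℤ N)} {s s' s'' : List (Symbol ℤ N)}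
    {i o h k u v : ℕ} (h1 : Ctx R s i o s' h k) (h2 : Ctx R s' h k s'' u v) :
    Ctx R s i o s'' u v := fun x y hr => h1 x y (h2 x y hr)

theorem Ctx.shift {R : Set (ContextFreeRule ℤ N)} {s s' : List (Symbol ℤ N)}
    {i o h k : ℕ} (h1 : Ctx R s i o s' h k) (x y : ℕ) :
    Ctx R s (i + x) (o + y) s' (h + x) (k + y) := by
  intro x' y' hr
  have := h1 (x + x') (y + y') (by rwa [← Nat.add_assoc, ← Nat.add_assoc])
  rwa [← Nat.add_assoc, ← Nat.add_assoc] at this

/-- Amalgamation of contexts. -/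
theorem Ctx.amalgam {R : Set (ContextFreeRule ℤ N)} {s : List (Symbol ℤ N)}
    {i o x1 y1 h1 k1 x2 y2 h2 k2 : ℕ}
    (c1 : Ctx R s (i + x1) (o + y1) s (i + h1) (o + k1))
    (c2 : Ctx R s (i + x2) (o + y2) s (i + h2) (o + k2)) :
    Ctx R s (i + (x1 + x2)) (o + (y1 + y2)) s (i + (h1 + h2)) (o + (k1 + k2)) := by
  have e1 := c1.shift x2 y2
  have e2 := c2.shift h1 k1
  rw [show i + x1 + x2 = i + (x1 + x2) by ring, show o + y1 + y2 = o + (y1 + y2) by ring] at e1
  rw [show i + x2 + h1 = i + h1 + x2 by ring, show o + y2 + k1 = o + k1 + y2 by ring,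
    show i + h2 + h1 = i + (h1 + h2) by ring, show o + k2 + k1 = o + (k1 + k2) by ring] at e2
  exact e1.trans e2

theorem Up0.run {R : Set (ContextFreeRule ℤ N)} {t : DTree N} {s : List (Symbol ℤ N)} {i o : ℕ}
    (ht : Valid R t s i o) : ∀ x y : ℕ, Up0 R t x y → Run R s (i + x) (o + y) := by
  induction ht with
  | nil i =>
    intro x y h
    simp only [Up0] at h
    subst h
    exact .nil _
  | @term z s i j o b hz _ ih =>
    intro x y h
    simp only [Up0] at h
    obtain ⟨j', h, k, hj, hc, hu⟩ := h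
    obtain rfl : j' = j := by omega
    refine .term (j := j' + x) (by push_cast; omega) ?_
    simpa using hc 0 0 (by simpa using ih h k hu)
  | @nt r s i m o a b hr _ _ ih1 ih2 =>
    intro x y h
    simp only [Up0] at h
    obtain ⟨w, h, k, h', k', hc, hu, hc', hu'⟩ := h
    refine .nt (m := m + w) hr ?_ ?_
    · simpa using hc 0 0 (by simpa using ih1 h k hu)
    · simpa using hc' 0 0 (by simpa using ih2 h' k' hu')

theorem Up0.zero {R : Set (ContextFreeRule ℤ N)} {t : DTree N} {s : List (Symbol ℤ N)} {i o : ℕ}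
    (ht : Valid R t s i o) : Up0 R t 0 0 := by
  induction ht with
  | nil i => simp only [Up0]
  | @term z s i j o b hz _ ih =>
    simp only [Up0]
    exact ⟨j, 0, 0, hz, Ctx.refl _ _ _ _, ih⟩
  | @nt r s i m o a b hr _ _ ih1 ih2 =>
    simp only [Up0]
    exact ⟨0, 0, 0, 0, 0, Ctx.refl _ _ _ _, ih1, Ctx.refl _ _ _ _, ih2⟩

theorem Up0.add {R : Set (ContextFreeRule ℤ N)} {t : DTree N} {s : List (Symbol ℤ N)} {i o : ℕ}
    (ht : Valid R t s i o) : ∀ x1 y1 x2 y2 : ℕ, Up0 R t x1 y1 → Up0 R t x2 y2 →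
    Up0 R t (x1 + x2) (y1 + y2) := by
  induction ht with
  | nil i =>
    intro x1 y1 x2 y2 h1 h2
    simp only [Up0] at h1 h2 ⊢
    rw [h1, h2]
  | @term z s i j o b hz _ ih =>
    intro x1 y1 x2 y2 h1 h2
    simp only [Up0] at h1 h2 ⊢
    obtain ⟨j1, a1, b1, hj1, hc1, hu1⟩ := h1
    obtain ⟨j2, a2, b2, hj2, hc2, hu2⟩ := h2
    obtain rfl : j1 = j := by omega
    obtain rfl : j2 = j1 := by omega
    exact ⟨j2, a1 + a2, b1 + b2, hj2, hc1.amalgam hc2, ih _ _ _ _ hu1 hu2⟩
  | @nt r s i m o a b hr _ _ ih1 ih2 =>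
    intro x1 y1 x2 y2 h1 h2
    simp only [Up0] at h1 h2 ⊢
    obtain ⟨w1, a1, b1, a1', b1', hc1, hu1, hc1', hu1'⟩ := h1
    obtain ⟨w2, a2, b2, a2', b2', hc2, hu2, hc2', hu2'⟩ := h2
    exact ⟨w1 + w2, a1 + a2, b1 + b2, a1' + a2', b1' + b2', hc1.amalgam hc2,
      ih1 _ _ _ _ hu1 hu2, hc1'.amalgam hc2', ih2 _ _ _ _ hu1' hu2'⟩

/-- An embedded tree can be pumped to the larger one. -/
theorem emb_up {R : Set (ContextFreeRule ℤ N)} {t t' : DTree N} (he : BTree.Emb LabLe t t') :
    ∀ {s s' : List (Symbol ℤ N)} {i o i' o' : ℕ}, Valid R t s i o → Valid R t' s' i' o' →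
    ∃ h k : ℕ, Ctx R s' i' o' s (i + h) (o + k) ∧ Up0 R t h k := by
  induction he with
  | leaf t => intro s s' i o i' o' h; cases h
  | @left t l' a' b' _ ih =>
    intro s s' i o i' o' h h'
    cases h' with
    | nil => 
      cases h <;> rename_i he <;> cases he
    | term hz hb => cases h <;> rename_i he <;> cases he
    | @nt r s' i' m' o' a' b' hr ha hb =>
      obtain ⟨x, y, hc, hu⟩ := ih h ha
      refine ⟨x, y, ?_, hu⟩
      intro p q hrun
      exact .nt hr (hc p q hrun) (hb.run.shift q)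
  | @right t l' a' b' _ ih =>
    intro s s' i o i' o' h h'
    cases h' with
    | nil =>
      cases h <;> rename_i he <;> cases he
    | @term z s' i' j' o' b' hz hb =>
      obtain ⟨x, y, hc, hu⟩ := ih h hb
      refine ⟨x, y, ?_, hu⟩
      intro p q hrun
      exact .term (by push_cast; omega) (hc p q hrun)
    | @nt r s' i' m' o' a' b' hr ha hb =>
      obtain ⟨x, y, hc, hu⟩ := ih h hb
      refine ⟨x, y, ?_, hu⟩
      intro p q hrun
      exact .nt hr (ha.run.shift p) (hc p q hrun)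
  | @node l l' a a' b b' hl _ _ iha ihb =>
    intro s s' i o i' o' h h'
    obtain ⟨hs, hα, hi, hm, ho⟩ := hl
    cases h with
    | nil i =>
      cases h' with
      | nil i' =>
        simp only at hi
        obtain ⟨x, rfl⟩ := Nat.exists_eq_add_of_le hi
        exact ⟨x, x, Ctx.refl _ _ _ _, by simp only [Up0]⟩
      | term => simp at hs
      | nt => simp at hs
    | @term z s i j o b hz hb =>
      cases h' with
      | nil => simp at hs
      | nt => simp at hs
      | @term z' s' i' j' o' b' hz' hb' =>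
        simp only [List.cons.injEq, Symbol.terminal.injEq] at hs hi ho
        obtain ⟨rfl, rfl⟩ := hs
        obtain ⟨x, rfl⟩ := Nat.exists_eq_add_of_le hi
        obtain ⟨y, rfl⟩ := Nat.exists_eq_add_of_le ho
        obtain ⟨p, q, hc, hu⟩ := ihb hb hb'
        obtain rfl : j' = j + x := by push_cast at hz'; omega
        refine ⟨x, y, Ctx.refl _ _ _ _, ?_⟩
        simp only [Up0]
        exact ⟨j, p, q, hz, hc, hu⟩
    | @nt r s i m o a b hr ha hb =>
      cases h' with
      | nil => simp at hs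
      | term => simp at hs
      | @nt r' s' i' m' o' a' b' hr' ha' hb' =>
        simp only [List.cons.injEq, Symbol.nonterminal.injEq] at hs hi ho hm hα
        obtain ⟨hs1, rfl⟩ := hs
        obtain ⟨x, rfl⟩ := Nat.exists_eq_add_of_le hi
        obtain ⟨w, rfl⟩ := Nat.exists_eq_add_of_le hm
        obtain ⟨y, rfl⟩ := Nat.exists_eq_add_of_le ho
        rw [← hα] at ha'
        obtain ⟨p, q, hc, hu⟩ := iha ha ha'
        obtain ⟨p', q', hc', hu'⟩ := ihb hb hb'
        refine ⟨x, y, ?_, ?_⟩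
        · rw [hs1]
          exact Ctx.refl _ _ _ _
        · simp only [Up0]
          exact ⟨w, p, q, p', q', hc, hu, hc', hu'⟩

end Pool.Agent.Lib.P675cc6
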