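import Mathlib
import Pool.Agent.Lib.P675cc6.Cone

/-!
Semilinear sets of pairs of natural numbers have finite binary kernels.
-/

namespace Pool.Agent.Lib.P675cc6

open Set Pointwise

/-- The residual by one pair of binary digits. -/
def res (A : Set V) (e f : ℕ) : Set V := {p | (2 * p.1 + e, 2 * p.2 + f) ∈ A}

/-- Finite binary kernels. -/
def FinKer (A : Set V) : Prop := ∃ F : Set (Set V), F.Finite ∧ A ∈ F ∧
  ∀ B ∈ F, ∀ e < 2, ∀ f < 2, res B e f ∈ F

theorem finKer_empty : FinKer ∅ :=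
  ⟨{∅}, finite_singleton _, mem_singleton _, by
    rintro B hB e - f -
    rw [mem_singleton_iff] at hB
    subst hB
    rw [mem_singleton_iff]
    rfl⟩

theorem FinKer.union {A B : Set V} (hA : FinKer A) (hB : FinKer B) : FinKer (A ∪ B) := by
  obtain ⟨F, hF, hAF, hF'⟩ := hA
  obtain ⟨G, hG, hBG, hG'⟩ := hB
  refine ⟨image2 (· ∪ ·) F G, hF.image2 _ hG, ⟨A, hAF, B, hBG, rfl⟩, ?_⟩
  rintro _ ⟨X, hX, Y, hY, rfl⟩ e he f hf
  exact ⟨_, hF' X hX e he f hf, _, hG' Y hY e he f hf, rfl⟩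

theorem finKer_linear (c : V) (t : Finset V) :
    FinKer (c +ᵥ (AddSubmonoid.closure (t : Set V) : Set V)) := by
  classical
  let L : ℤ × ℤ → Set V := fun b => {p : V | ∃ k : V → ℕ,
    (p.1 : ℤ) = b.1 + ∑ q ∈ t, (k q : ℤ) * q.1 ∧ (p.2 : ℤ) = b.2 + ∑ q ∈ t, (k q : ℤ) * q.2}
  set σ1 : ℤ := ∑ q ∈ t, (q.1 : ℤ) with hσ1
  set σ2 : ℤ := ∑ q ∈ t, (q.2 : ℤ) with hσ2
  have hσ1' : 0 ≤ σ1 := Finset.sum_nonneg fun q _ => by positivity
  have hσ2' : 0 ≤ σ2 := Finset.sum_nonneg fun q _ => by positivity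
  set N : ℤ := c.1 + c.2 + σ1 + σ2 + 1 with hN
  let Box : Set (ℤ × ℤ) := Icc (-N, -N) (N, N)
  have hBox : Box.Finite := finite_Icc _ _
  have hmem : ∀ b : ℤ × ℤ, b ∈ Box ↔ (-N ≤ b.1 ∧ b.1 ≤ N) ∧ (-N ≤ b.2 ∧ b.2 ≤ N) := by
    intro b
    simp only [Box, mem_Icc, Prod.le_def]
    tauto
  refine ⟨(fun B : Set (ℤ × ℤ) => ⋃ b ∈ B, L b) '' {B | B ⊆ Box}, hBox.finite_subsets.image _,
    ⟨{((c.1 : ℤ), (c.2 : ℤ))}, ?_, ?_⟩, ?_⟩
  · rw [mem_ofPred_eq, singleton_subset_iff, hmem]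
    dsimp only
    constructor <;> constructor <;> omega
  · simp only [mem_singleton_iff, iUnion_iUnion_eq_left]
    ext ⟨x, y⟩
    constructor
    · rintro ⟨k, h1, h2⟩
      refine ⟨∑ q ∈ t, k q • q, sum_mem fun q hq => nsmul_mem
        (AddSubmonoid.mem_closure_of_mem hq) _, ?_⟩
      have e1 : (∑ q ∈ t, k q • q).1 = ∑ q ∈ t, k q * q.1 := by
        rw [Prod.fst_sum]; rfl
      have e2 : (∑ q ∈ t, k q • q).2 = ∑ q ∈ t, k q * q.2 := by
        rw [Prod.snd_sum]; rfl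
      refine Prod.ext ?_ ?_
      · change c.1 + (∑ q ∈ t, k q • q).1 = x
        rw [e1]
        zify
        exact h1.symm
      · change c.2 + (∑ q ∈ t, k q • q).2 = y
        rw [e2]
        zify
        exact h2.symm
    · rintro ⟨z, hz, heq⟩
      rw [SetLike.mem_coe, AddSubmonoid.mem_closure_finset] at hz
      obtain ⟨k, -, rfl⟩ := hz
      have e1 : (∑ q ∈ t, k q • q).1 = ∑ q ∈ t, k q * q.1 := by
        rw [Prod.fst_sum]; rfl
      have e2 : (∑ q ∈ t, k q • q).2 = ∑ q ∈ t, k q * q.2 := by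
        rw [Prod.snd_sum]; rfl
      refine ⟨k, ?_, ?_⟩
      · have : c.1 + (∑ q ∈ t, k q • q).1 = x := congrArg Prod.fst heq
        rw [e1] at this
        zify at this
        exact this.symm
      · have : c.2 + (∑ q ∈ t, k q • q).2 = y := congrArg Prod.snd heq
        rw [e2] at this
        zify at this
        exact this.symm
  · rintro _ ⟨B, hB, rfl⟩ e he f hf
    refine ⟨{b' | b' ∈ Box ∧ ∃ b ∈ B, ∃ ε : V → ℕ, (∀ q, ε q ≤ 1) ∧
      2 * b'.1 = b.1 - e + ∑ q ∈ t, (ε q : ℤ) * q.1 ∧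
      2 * b'.2 = b.2 - f + ∑ q ∈ t, (ε q : ℤ) * q.2}, fun b hb => hb.1, ?_⟩
    ext ⟨x, y⟩
    simp only [res, mem_iUnion, mem_ofPred_eq, exists_prop, L]
    constructor
    · rintro ⟨b', ⟨-, b, hb, ε, hε, h1, h2⟩, k, h3, h4⟩
      refine ⟨b, hb, fun q => ε q + 2 * k q, ?_, ?_⟩
      · push_cast
        have : ∑ q ∈ t, ((ε q : ℤ) + 2 * k q) * q.1 =
            ∑ q ∈ t, (ε q : ℤ) * q.1 + 2 * ∑ q ∈ t, (k q : ℤ) * q.1 := by
          rw [Finset.mul_sum, ← Finset.sum_add_distrib]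
          exact Finset.sum_congr rfl fun q _ => by ring
        rw [this]
        omega
      · push_cast
        have : ∑ q ∈ t, ((ε q : ℤ) + 2 * k q) * q.2 =
            ∑ q ∈ t, (ε q : ℤ) * q.2 + 2 * ∑ q ∈ t, (k q : ℤ) * q.2 := by
          rw [Finset.mul_sum, ← Finset.sum_add_distrib]
          exact Finset.sum_congr rfl fun q _ => by ring
        rw [this]
        omega
    · rintro ⟨b, hb, k, h1, h2⟩
      push_cast at h1 h2
      have hk1 : ∑ q ∈ t, (k q : ℤ) * q.1 = ∑ q ∈ t, ((k q % 2 : ℕ) : ℤ) * q.1 +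
          2 * ∑ q ∈ t, ((k q / 2 : ℕ) : ℤ) * q.1 := by
        rw [Finset.mul_sum, ← Finset.sum_add_distrib]
        refine Finset.sum_congr rfl fun q _ => ?_
        have : (k q : ℤ) = ((k q % 2 : ℕ) : ℤ) + 2 * ((k q / 2 : ℕ) : ℤ) := by
          have := Nat.mod_add_div (k q) 2
          omega
        rw [this]; ring
      have hk2 : ∑ q ∈ t, (k q : ℤ) * q.2 = ∑ q ∈ t, ((k q % 2 : ℕ) : ℤ) * q.2 +
          2 * ∑ q ∈ t, ((k q / 2 : ℕ) : ℤ) * q.2 := by
        rw [Finset.mul_sum, ← Finset.sum_add_distrib]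
        refine Finset.sum_congr rfl fun q _ => ?_
        have : (k q : ℤ) = ((k q % 2 : ℕ) : ℤ) + 2 * ((k q / 2 : ℕ) : ℤ) := by
          have := Nat.mod_add_div (k q) 2
          omega
        rw [this]; ring
      have hb1 : 0 ≤ ∑ q ∈ t, ((k q % 2 : ℕ) : ℤ) * q.1 ∧
          ∑ q ∈ t, ((k q % 2 : ℕ) : ℤ) * q.1 ≤ σ1 := by
        constructor
        · exact Finset.sum_nonneg fun q _ => by positivity
        · refine Finset.sum_le_sum fun q _ => ?_
          have : ((k q % 2 : ℕ) : ℤ) ≤ 1 := by omega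
          nlinarith [Int.natCast_nonneg q.1]
      have hb2 : 0 ≤ ∑ q ∈ t, ((k q % 2 : ℕ) : ℤ) * q.2 ∧
          ∑ q ∈ t, ((k q % 2 : ℕ) : ℤ) * q.2 ≤ σ2 := by
        constructor
        · exact Finset.sum_nonneg fun q _ => by positivity
        · refine Finset.sum_le_sum fun q _ => ?_
          have : ((k q % 2 : ℕ) : ℤ) ≤ 1 := by omega
          nlinarith [Int.natCast_nonneg q.2]
      have hbB := (hmem b).1 (hB hb)
      refine ⟨((x : ℤ) - ∑ q ∈ t, ((k q / 2 : ℕ) : ℤ) * q.1,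
        (y : ℤ) - ∑ q ∈ t, ((k q / 2 : ℕ) : ℤ) * q.2), ⟨?_, b, hb, fun q => k q % 2,
        fun q => by have := Nat.mod_lt (k q) two_pos; dsimp only; omega, ?_, ?_⟩,
        fun q => k q / 2, ?_, ?_⟩
      · rw [hmem]
        dsimp only
        generalize (∑ q ∈ t, ((k q / 2 : ℕ) : ℤ) * q.1) = s1 at *
        generalize (∑ q ∈ t, ((k q / 2 : ℕ) : ℤ) * q.2) = s2 at *
        generalize (∑ q ∈ t, ((k q % 2 : ℕ) : ℤ) * q.1) = s3 at *
        generalize (∑ q ∈ t, ((k q % 2 : ℕ) : ℤ) * q.2) = s4 at *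
        obtain ⟨⟨h5, h6⟩, h7, h8⟩ := hbB
        constructor <;> constructor <;> omega
      · dsimp only
        generalize (∑ q ∈ t, ((k q / 2 : ℕ) : ℤ) * q.1) = s1 at *
        generalize (∑ q ∈ t, ((k q % 2 : ℕ) : ℤ) * q.1) = s3 at *
        omega
      · dsimp only
        generalize (∑ q ∈ t, ((k q / 2 : ℕ) : ℤ) * q.2) = s1 at *
        generalize (∑ q ∈ t, ((k q % 2 : ℕ) : ℤ) * q.2) = s3 at *
        omega
      · dsimp only
        generalize (∑ q ∈ t, ((k q / 2 : ℕ) : ℤ) * q.1) = s1 at *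
        omega
      · dsimp only
        generalize (∑ q ∈ t, ((k q / 2 : ℕ) : ℤ) * q.2) = s1 at *
        omega

theorem finKer_semilinear {A : Set V} (hA : IsSemilinearSet A) : FinKer A := by
  obtain ⟨S, hS, hlin, rfl⟩ := hA
  induction S, hS using Set.Finite.induction_on with
  | empty => simpa using finKer_empty
  | @insert L S _ _ ih =>
    rw [sUnion_insert]
    refine FinKer.union ?_ (ih fun t ht => hlin t (mem_insert_of_mem _ ht))
    obtain ⟨c, t, rfl⟩ := isLinearSet_iff.1 (hlin L (mem_insert _ _))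
    exact finKer_linear c t

end Pool.Agent.Lib.P675cc6
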