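import Mathlib

/-!
Automation for primitive recursive functions: `fun_prop` proves `Primrec`.
-/

namespace Pool.Agent.Lib.P675cc6

attribute [fun_prop] Primrec

namespace PR

section

variable {α β γ σ : Type*} [Primcodable α] [Primcodable β] [Primcodable γ] [Primcodable σ]

@[fun_prop] theorem id' : Primrec (fun a : α => a) := Primrec.id

@[fun_prop] theorem const' (x : σ) : Primrec (fun _ : α => x) := Primrec.const x

@[fun_prop] theorem comp' {f : β → σ} {g : α → β} (hf : Primrec f) (hg : Primrec g) :
    Primrec (fun a => f (g a)) := hf.comp hg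

@[fun_prop] theorem fst' {f : α → β × γ} (hf : Primrec f) : Primrec (fun a => (f a).1) :=
  Primrec.fst.comp hf

@[fun_prop] theorem snd' {f : α → β × γ} (hf : Primrec f) : Primrec (fun a => (f a).2) :=
  Primrec.snd.comp hf

@[fun_prop] theorem pair' {f : α → β} {g : α → γ} (hf : Primrec f) (hg : Primrec g) :
    Primrec (fun a => (f a, g a)) := hf.pair hg

@[fun_prop] theorem add' {f g : α → ℕ} (hf : Primrec f) (hg : Primrec g) :
    Primrec (fun a => f a + g a) := Primrec.nat_add.comp hf hg

@[fun_prop] theorem sub' {f g : α → ℕ} (hf : Primrec f) (hg : Primrec g) :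
    Primrec (fun a => f a - g a) := Primrec.nat_sub.comp hf hg

@[fun_prop] theorem mul' {f g : α → ℕ} (hf : Primrec f) (hg : Primrec g) :
    Primrec (fun a => f a * g a) := Primrec.nat_mul.comp hf hg

@[fun_prop] theorem mod' {f g : α → ℕ} (hf : Primrec f) (hg : Primrec g) :
    Primrec (fun a => f a % g a) := Primrec.nat_mod.comp hf hg

@[fun_prop] theorem div' {f g : α → ℕ} (hf : Primrec f) (hg : Primrec g) :
    Primrec (fun a => f a / g a) := Primrec.nat_div.comp hf hg

@[fun_prop] theorem and' {f g : α → Bool} (hf : Primrec f) (hg : Primrec g) :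
    Primrec (fun a => f a && g a) := Primrec.and.comp hf hg

@[fun_prop] theorem or' {f g : α → Bool} (hf : Primrec f) (hg : Primrec g) :
    Primrec (fun a => f a || g a) := Primrec.or.comp hf hg

@[fun_prop] theorem not' {f : α → Bool} (hf : Primrec f) : Primrec (fun a => ! f a) :=
  Primrec.not.comp hf

@[fun_prop] theorem getD' {f : α → List β} {g : α → ℕ} {d : β} (hf : Primrec f)
    (hg : Primrec g) : Primrec (fun a => (f a).getD (g a) d) := (Primrec.list_getD d).comp hf hg

@[fun_prop] theorem all' {l : α → List β} {p : α → β → Bool} (hl : Primrec l)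
    (hp : Primrec (fun q : α × β => p q.1 q.2)) : Primrec (fun a => (l a).all (p a)) := by
  have h := Primrec.list_foldr (f := l) (g := fun _ => true)
    (h := fun a (q : β × Bool) => p a q.1 && q.2) hl (Primrec.const true)
    (Primrec.and.comp (hp.comp (Primrec.pair Primrec.fst (Primrec.fst.comp Primrec.snd)))
      (Primrec.snd.comp Primrec.snd))
  refine h.of_eq fun a => ?_
  induction l a with
  | nil => rfl
  | cons b l ih => simp [ih]

@[fun_prop] theorem any' {l : α → List β} {p : α → β → Bool} (hl : Primrec l)
    (hp : Primrec (fun q : α × β => p q.1 q.2)) : Primrec (fun a => (l a).any (p a)) := by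
  have h := Primrec.list_foldr (f := l) (g := fun _ => false)
    (h := fun a (q : β × Bool) => p a q.1 || q.2) hl (Primrec.const false)
    (Primrec.or.comp (hp.comp (Primrec.pair Primrec.fst (Primrec.fst.comp Primrec.snd)))
      (Primrec.snd.comp Primrec.snd))
  refine h.of_eq fun a => ?_
  induction l a with
  | nil => rfl
  | cons b l ih => simp [ih]

@[fun_prop] theorem map' {l : α → List β} {p : α → β → σ} (hl : Primrec l)
    (hp : Primrec (fun q : α × β => p q.1 q.2)) : Primrec (fun a => (l a).map (p a)) :=
  Primrec.list_map hl hp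

@[fun_prop] theorem foldl' {l : α → List β} {g : α → σ} {h : α → σ → β → σ} (hl : Primrec l)
    (hg : Primrec g) (hh : Primrec (fun q : α × (σ × β) => h q.1 q.2.1 q.2.2)) :
    Primrec (fun a => (l a).foldl (h a) (g a)) :=
  Primrec.list_foldl (h := fun a (q : σ × β) => h a q.1 q.2) hl hg hh

@[fun_prop] theorem decEq' [DecidableEq β] {f g : α → β} (hf : Primrec f) (hg : Primrec g) :
    Primrec (fun a => decide (f a = g a)) := Primrec.eq.decide.comp hf hg

@[fun_prop] theorem decLt' {f g : α → ℕ} (hf : Primrec f) (hg : Primrec g) :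
    Primrec (fun a => decide (f a < g a)) := Primrec.nat_lt.decide.comp hf hg

@[fun_prop] theorem decLe' {f g : α → ℕ} (hf : Primrec f) (hg : Primrec g) :
    Primrec (fun a => decide (f a ≤ g a)) := Primrec.nat_le.decide.comp hf hg

@[fun_prop] theorem range' {f : α → ℕ} (hf : Primrec f) :
    Primrec (fun a => List.range (f a)) := Primrec.list_range.comp hf

@[fun_prop] theorem cons' {f : α → β} {g : α → List β} (hf : Primrec f) (hg : Primrec g) :
    Primrec (fun a => f a :: g a) := Primrec.list_cons.comp hf hg

@[fun_prop] theorem append' {f g : α → List β} (hf : Primrec f) (hg : Primrec g) :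
    Primrec (fun a => f a ++ g a) := Primrec.list_append.comp hf hg

@[fun_prop] theorem inl' {f : α → β} (hf : Primrec f) :
    Primrec (fun a => (Sum.inl (f a) : β ⊕ γ)) := Primrec.sumInl.comp hf

@[fun_prop] theorem inr' {f : α → γ} (hf : Primrec f) :
    Primrec (fun a => (Sum.inr (f a) : β ⊕ γ)) := Primrec.sumInr.comp hf

@[fun_prop] theorem sumElim' {f : α → β ⊕ γ} {g : α → β → σ} {h : α → γ → σ} (hf : Primrec f)
    (hg : Primrec (fun q : α × β => g q.1 q.2)) (hh : Primrec (fun q : α × γ => h q.1 q.2)) :
    Primrec (fun a => Sum.elim (g a) (h a) (f a)) :=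
  (Primrec.sumCasesOn hf hg hh).of_eq fun a => by cases f a <;> rfl

@[fun_prop] theorem optElim' {f : α → Option β} {g : α → σ} {h : α → β → σ} (hf : Primrec f)
    (hg : Primrec g) (hh : Primrec (fun q : α × β => h q.1 q.2)) :
    Primrec (fun a => (f a).elim (g a) (h a)) :=
  (Primrec.option_casesOn hf hg hh).of_eq fun a => by cases f a <;> rfl

@[fun_prop] theorem head?' {f : α → List β} (hf : Primrec f) :
    Primrec (fun a => (f a).head?) := Primrec.list_head?.comp hf

@[fun_prop] theorem tail' {f : α → List β} (hf : Primrec f) :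
    Primrec (fun a => (f a).tail) := Primrec.list_tail.comp hf

@[fun_prop] theorem cond' {c : α → Bool} {f g : α → σ} (hc : Primrec c) (hf : Primrec f)
    (hg : Primrec g) : Primrec (fun a => bif c a then f a else g a) := Primrec.cond hc hf hg

theorem toNat_eq (z : ℤ) : z.toNat = bif decide (Encodable.encode z % 2 = 0) then
    Encodable.encode z / 2 else 0 := by
  cases z with
  | ofNat n =>
    have : Encodable.encode (Int.ofNat n) = 2 * n := rfl
    rw [this]
    simp
  | negSucc n =>
    have : Encodable.encode (Int.negSucc n) = 2 * n + 1 := rfl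
    rw [this, decide_eq_false (show ¬ (2 * n + 1) % 2 = 0 by omega), cond_false]
    rfl

theorem toNat_neg_eq (z : ℤ) : (-z).toNat = bif decide (Encodable.encode z % 2 = 0) then
    0 else Encodable.encode z / 2 + 1 := by
  cases z with
  | ofNat n =>
    have : Encodable.encode (Int.ofNat n) = 2 * n := rfl
    rw [this]
    simp
  | negSucc n =>
    have : Encodable.encode (Int.negSucc n) = 2 * n + 1 := rfl
    rw [this, decide_eq_false (show ¬ (2 * n + 1) % 2 = 0 by omega), cond_false,
      show (2 * n + 1) / 2 = n by omega]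
    rfl

@[fun_prop] theorem encode' {f : α → β} (hf : Primrec f) :
    Primrec (fun a => Encodable.encode (f a)) := Primrec.encode.comp hf

@[fun_prop] theorem toNat' {f : α → ℤ} (hf : Primrec f) : Primrec (fun a => (f a).toNat) := by
  have : Primrec (fun z : ℤ => z.toNat) := by
    refine Primrec.of_eq ?_ (fun z => (toNat_eq z).symm)
    fun_prop
  exact this.comp hf

@[fun_prop] theorem negToNat' {f : α → ℤ} (hf : Primrec f) :
    Primrec (fun a => (-(f a)).toNat) := by
  have : Primrec (fun z : ℤ => (-z).toNat) := by
    refine Primrec.of_eq ?_ (fun z => (toNat_neg_eq z).symm)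
    fun_prop
  exact this.comp hf

end

end PR

end Pool.Agent.Lib.P675cc6
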