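import Mathlib
import Pool.Agent.Lib.P675cc6.PR
import Pool.Agent.Lib.P675cc6.Word
import Pool.Agent.Lib.P675cc6.Kernel

/-!
Finite automata certificates for unreachability.
-/

namespace Pool.Agent.Lib.P675cc6

open Set

/-- Membership as a Boolean. -/
def memB {α : Type} [DecidableEq α] (l : List α) (x : α) : Bool := l.any fun y => decide (y = x)

theorem memB_iff {α : Type} [DecidableEq α] {l : List α} {x : α} : memB l x = true ↔ x ∈ l := by
  simp [memB]

@[fun_prop] theorem memB_primrec {α β : Type} [Primcodable α] [Primcodable β] [DecidableEq β]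
    {l : α → List β} {x : α → β} (hl : Primrec l) (hx : Primrec x) :
    Primrec (fun a => memB (l a) (x a)) := by
  unfold memB
  fun_prop

/-- Implication as a Boolean. -/
def impB (a b : Bool) : Bool := !a || b

theorem impB_iff {a b : Bool} : impB a b = true ↔ (a = true → b = true) := by
  cases a <;> cases b <;> simp [impB]

@[fun_prop] theorem impB_primrec {α : Type} [Primcodable α] {f g : α → Bool} (hf : Primrec f)
    (hg : Primrec g) : Primrec (fun a => impB (f a) (g a)) := by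
  unfold impB
  fun_prop

/-- The transition function. -/
def del (T : List ℕ) (p e f : ℕ) : ℕ := T.getD (4 * p + 2 * e + f) 0

@[fun_prop] theorem del_primrec {α : Type} [Primcodable α] {T : α → List ℕ} {p e f : α → ℕ}
    (hT : Primrec T) (hp : Primrec p) (he : Primrec e) (hf : Primrec f) :
    Primrec (fun a => del (T a) (p a) (e a) (f a)) := by
  unfold del
  fun_prop

/-- Acceptance. -/
def acc (A : List ℕ) (p : ℕ) : Bool := decide (A.getD p 0 = 1)

@[fun_prop] theorem acc_primrec {α : Type} [Primcodable α] {A : α → List ℕ} {p : α → ℕ}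
    (hA : Primrec A) (hp : Primrec p) : Primrec (fun a => acc (A a) (p a)) := by
  unfold acc
  fun_prop

/-- Acceptance of a pair of numbers, read with `n` binary digits. -/
def memL (T A : List ℕ) : ℕ → ℕ → ℕ → ℕ → Prop
  | 0, p, _, _ => acc A p = true
  | n + 1, p, x, y => memL T A n (del T p (x % 2) (y % 2)) (x / 2) (y / 2)

/-- Certificates. -/
abbrev NC := (List ℕ × List ℕ) × List (Wd × ℕ) × List (ℕ × ℕ × ℕ) × List ℕ ×
  List (ℕ × ℕ × ℕ × ℕ) × List (ℕ × ℕ × ℕ × ℕ)

def chk3 (T A : List ℕ) (I : List (ℕ × ℕ × ℕ)) : Bool := I.all fun t =>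
  impB (acc A t.1 && acc A t.2.1) (acc A t.2.2) &&
  (List.range 2).all fun e => (List.range 2).all fun f => (List.range 2).all fun g =>
    memB I (del T t.1 e f, del T t.2.1 f g, del T t.2.2 e g)

@[fun_prop] theorem chk3_primrec {α : Type} [Primcodable α] {T A : α → List ℕ}
    {I : α → List (ℕ × ℕ × ℕ)} (hT : Primrec T) (hA : Primrec A) (hI : Primrec I) :
    Primrec (fun a => chk3 (T a) (A a) (I a)) := by
  unfold chk3
  fun_prop

def chkN (T A : List ℕ) (I : List ℕ) : Bool := I.all fun p =>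
  acc A p && (List.range 2).all fun e => memB I (del T p e e)

@[fun_prop] theorem chkN_primrec {α : Type} [Primcodable α] {T A : α → List ℕ}
    {I : α → List ℕ} (hT : Primrec T) (hA : Primrec A) (hI : Primrec I) :
    Primrec (fun a => chkN (T a) (A a) (I a)) := by
  unfold chkN
  fun_prop

def chkT (T A : List ℕ) (I : List (ℕ × ℕ × ℕ × ℕ)) : Bool := I.all fun t =>
  impB (decide (t.2.2.1 = t.2.2.2) && acc A t.1) (acc A t.2.1) &&
  (List.range 2).all fun e => (List.range 2).all fun e2 => (List.range 2).all fun f =>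
    impB (decide ((e + t.2.2.1) % 2 = (e2 + t.2.2.2) % 2))
      (memB I (del T t.1 e2 f, del T t.2.1 e f, (e + t.2.2.1) / 2, (e2 + t.2.2.2) / 2))

@[fun_prop] theorem chkT_primrec {α : Type} [Primcodable α] {T A : α → List ℕ}
    {I : α → List (ℕ × ℕ × ℕ × ℕ)} (hT : Primrec T) (hA : Primrec A) (hI : Primrec I) :
    Primrec (fun a => chkT (T a) (A a) (I a)) := by
  unfold chkT
  fun_prop

def chkL (T A : List ℕ) (I : List (ℕ × ℕ × ℕ × ℕ)) : Bool := I.all fun t =>
  impB (decide (t.2.1 = 0) && decide (t.2.2.1 = 0)) (!(acc A t.1)) &&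
  (List.range 2).all fun e => memB I (del T t.1 (t.2.1 % 2) ((t.2.2.1 + e * t.2.2.2) % 2),
    t.2.1 / 2, (t.2.2.1 + e * t.2.2.2) / 2, t.2.2.2)

@[fun_prop] theorem chkL_primrec {α : Type} [Primcodable α] {T A : α → List ℕ}
    {I : α → List (ℕ × ℕ × ℕ × ℕ)} (hT : Primrec T) (hA : Primrec A) (hI : Primrec I) :
    Primrec (fun a => chkL (T a) (A a) (I a)) := by
  unfold chkL
  fun_prop

def chkI1 (its : List (Wd × ℕ)) (IT : List (ℕ × ℕ × ℕ × ℕ)) (t : Wd) (p : ℕ) (z : ℤ) : Bool :=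
  its.any fun tq => decide (tq.1 = t) && memB IT (tq.2, p, z.toNat, (-z).toNat)

@[fun_prop] theorem chkI1_primrec {α : Type} [Primcodable α]
    {its : α → List (Wd × ℕ)} {IT : α → List (ℕ × ℕ × ℕ × ℕ)} {t : α → Wd} {p : α → ℕ} {z : α → ℤ}
    (h2 : Primrec its) (h5 : Primrec IT) (h3 : Primrec t) (h4 : Primrec p) (h1 : Primrec z) :
    Primrec (fun a => chkI1 (its a) (IT a) (t a) (p a) (z a)) := by
  unfold chkI1
  fun_prop

def chkI2 (ρ : Rls) (its : List (Wd × ℕ)) (I3 : List (ℕ × ℕ × ℕ)) (t : Wd) (p : ℕ) (X : ℕ) :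
    Bool := its.any fun tq => decide (tq.1 = t) &&
      ρ.all fun r => impB (decide (r.1 = X))
        (its.any fun ar => decide (ar.1 = r.2) && memB I3 (ar.2, tq.2, p))

@[fun_prop] theorem chkI2_primrec {α : Type} [Primcodable α] {ρ : α → Rls}
    {its : α → List (Wd × ℕ)} {I3 : α → List (ℕ × ℕ × ℕ)} {t : α → Wd} {p : α → ℕ} {X : α → ℕ}
    (h1 : Primrec ρ) (h2 : Primrec its) (h5 : Primrec I3) (h3 : Primrec t) (h4 : Primrec p)
    (h6 : Primrec X) :
    Primrec (fun a => chkI2 (ρ a) (its a) (I3 a) (t a) (p a) (X a)) := by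
  unfold chkI2
  fun_prop

def chkI (ρ : Rls) (its : List (Wd × ℕ)) (I3 : List (ℕ × ℕ × ℕ)) (IN : List ℕ)
    (IT : List (ℕ × ℕ × ℕ × ℕ)) : Bool := its.all fun sp =>
  sp.1.head?.elim (memB IN sp.2) (fun h => Sum.elim
    (fun z => chkI1 its IT sp.1.tail sp.2 z)
    (fun X => chkI2 ρ its I3 sp.1.tail sp.2 X) h)

@[fun_prop] theorem chkI_primrec {α : Type} [Primcodable α] {ρ : α → Rls}
    {its : α → List (Wd × ℕ)} {I3 : α → List (ℕ × ℕ × ℕ)} {IN : α → List ℕ}
    {IT : α → List (ℕ × ℕ × ℕ × ℕ)} (h1 : Primrec ρ) (h2 : Primrec its) (h3 : Primrec I3)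
    (h4 : Primrec IN) (h5 : Primrec IT) :
    Primrec (fun a => chkI (ρ a) (its a) (I3 a) (IN a) (IT a)) := by
  unfold chkI
  fun_prop

def chkS (S a : ℕ) (L' : List (ℕ × ℕ)) (its : List (Wd × ℕ)) (IL : List (ℕ × ℕ × ℕ × ℕ)) :
    Bool := its.any fun sp => decide (sp.1 = [Sum.inr S]) &&
  L'.all fun cM => memB IL (sp.2, a, cM.1, cM.2)

@[fun_prop] theorem chkS_primrec {α : Type} [Primcodable α] {S a : α → ℕ}
    {L' : α → List (ℕ × ℕ)} {its : α → List (Wd × ℕ)} {IL : α → List (ℕ × ℕ × ℕ × ℕ)}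
    (h1 : Primrec S) (h2 : Primrec a) (h3 : Primrec L') (h4 : Primrec its) (h5 : Primrec IL) :
    Primrec (fun x => chkS (S x) (a x) (L' x) (its x) (IL x)) := by
  unfold chkS
  fun_prop

/-- The check of negative certificates. -/
def negChk (S : ℕ) (ρ : Rls) (a : ℕ) (L' : List (ℕ × ℕ)) (w : NC) : Bool :=
  chk3 w.1.1 w.1.2 w.2.2.1 && chkN w.1.1 w.1.2 w.2.2.2.1 && chkT w.1.1 w.1.2 w.2.2.2.2.1 &&
  chkL w.1.1 w.1.2 w.2.2.2.2.2 && chkI ρ w.2.1 w.2.2.1 w.2.2.2.1 w.2.2.2.2.1 &&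
  chkS S a L' w.2.1 w.2.2.2.2.2

@[fun_prop] theorem negChk_primrec {α : Type} [Primcodable α] {S a : α → ℕ} {ρ : α → Rls}
    {L' : α → List (ℕ × ℕ)} {w : α → NC}
    (h1 : Primrec S) (h2 : Primrec ρ) (h3 : Primrec a) (h4 : Primrec L') (h5 : Primrec w) :
    Primrec (fun x => negChk (S x) (ρ x) (a x) (L' x) (w x)) := by
  unfold negChk
  fun_prop

/-! ### Soundness -/

theorem memL_3 {T A : List ℕ} {I : List (ℕ × ℕ × ℕ)} (h : chk3 T A I = true) (n : ℕ) :
    ∀ p q r x m y, (p, q, r) ∈ I → memL T A n p x m → memL T A n q m y → memL T A n r x y := by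
  simp only [chk3, List.all_eq_true, Bool.and_eq_true, impB_iff, memB_iff, List.mem_range] at h
  induction n with
  | zero =>
    intro p q r x m y hI h1 h2
    exact (h _ hI).1 ⟨h1, h2⟩
  | succ n ih =>
    intro p q r x m y hI h1 h2
    have h3 := (h _ hI).2 (x % 2) (Nat.mod_lt _ two_pos) (m % 2) (Nat.mod_lt _ two_pos) (y % 2)
      (Nat.mod_lt _ two_pos)
    exact ih _ _ _ _ _ _ h3 h1 h2

theorem memL_N {T A : List ℕ} {I : List ℕ} (h : chkN T A I = true) (n : ℕ) :
    ∀ p x, p ∈ I → memL T A n p x x := by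
  simp only [chkN, List.all_eq_true, Bool.and_eq_true, memB_iff, List.mem_range] at h
  induction n with
  | zero =>
    intro p x hI
    exact (h _ hI).1
  | succ n ih =>
    intro p x hI
    exact ih _ _ ((h _ hI).2 (x % 2) (Nat.mod_lt _ two_pos))

theorem memL_T {T A : List ℕ} {I : List (ℕ × ℕ × ℕ × ℕ)} (h : chkT T A I = true) (n : ℕ) :
    ∀ q p u w x x2 y, (q, p, u, w) ∈ I → x + u = x2 + w → x < 2 ^ n → x2 < 2 ^ n →
      memL T A n q x2 y → memL T A n p x y := by
  simp only [chkT, List.all_eq_true, Bool.and_eq_true, impB_iff, memB_iff, List.mem_range,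
    decide_eq_true_eq] at h
  induction n with
  | zero =>
    intro q p u w x x2 y hI hx h1 h2 h3
    have : x = 0 := by simpa using h1
    have : x2 = 0 := by simpa using h2
    exact (h _ hI).1 ⟨by dsimp only; omega, h3⟩
  | succ n ih =>
    intro q p u w x x2 y hI hx h1 h2 h3
    have h4 := (h _ hI).2 (x % 2) (Nat.mod_lt _ two_pos) (x2 % 2) (Nat.mod_lt _ two_pos) (y % 2)
      (Nat.mod_lt _ two_pos) (by dsimp only; omega)
    rw [pow_succ] at h1 h2
    exact ih _ _ _ _ _ _ _ h4 (by dsimp only; omega) (by omega) (by omega) h3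

theorem memL_L {T A : List ℕ} {I : List (ℕ × ℕ × ℕ × ℕ)} (h : chkL T A I = true) (n : ℕ) :
    ∀ p a c M k, (p, a, c, M) ∈ I → a < 2 ^ n → c + k * M < 2 ^ n →
      ¬ memL T A n p a (c + k * M) := by
  simp only [chkL, List.all_eq_true, Bool.and_eq_true, impB_iff, memB_iff, List.mem_range,
    decide_eq_true_eq, Bool.not_eq_true'] at h
  induction n with
  | zero =>
    intro p a c M k hI h1 h2 h3
    have e1 : a = 0 := by simpa using h1
    have e2 : c = 0 := by
      have : c + k * M < 1 := by simpa using h2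
      omega
    have := (h _ hI).1 ⟨e1, e2⟩
    dsimp only at this
    simp only [memL] at h3
    rw [this] at h3
    cases h3
  | succ n ih =>
    intro p a c M k hI h1 h2 h3
    have h4 := (h _ hI).2 (k % 2) (Nat.mod_lt _ two_pos)
    dsimp only at h4
    have e0 : c + k * M = (c + k % 2 * M) + 2 * (k / 2 * M) := by
      conv_lhs => rw [← Nat.mod_add_div k 2]
      ring
    have e1 : (c + k * M) % 2 = (c + k % 2 * M) % 2 := by omega
    have e2 : (c + k * M) / 2 = (c + k % 2 * M) / 2 + k / 2 * M := by omega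
    rw [pow_succ] at h1 h2
    simp only [memL] at h3
    rw [e1, e2] at h3
    exact ih _ _ _ _ _ h4 (by omega) (by rw [← e2]; omega) h3

theorem neg_sound {S : ℕ} {ρ : Rls} {a : ℕ} {L' : List (ℕ × ℕ)} {w : NC}
    (h : negChk S ρ a L' w = true) {b : ℕ} (hb : RunC ρ [.inr S] a b) :
    ∀ cM ∈ L', ∀ k, b ≠ cM.1 + k * cM.2 := by
  obtain ⟨⟨T, A⟩, its, I3, IN, IT, IL⟩ := w
  simp only [negChk, Bool.and_eq_true] at h
  obtain ⟨⟨⟨⟨⟨h3, hN⟩, hT⟩, hL⟩, hI⟩, hS⟩ := h
  have key : ∀ s x y, RunC ρ s x y → ∀ p, (s, p) ∈ its → ∃ N, ∀ n, N ≤ n →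
      memL T A n p x y := by
    simp only [chkI, List.all_eq_true] at hI
    intro s x y hr
    induction hr with
    | nil i =>
      intro p hp
      have := hI _ hp
      simp only [List.head?_nil, Option.elim_none, memB_iff] at this
      exact ⟨0, fun n _ => memL_N hN n p i this⟩
    | @term z s i j o hz _ ih =>
      intro p hp
      have := hI _ hp
      simp only [List.head?_cons, Option.elim_some, Sum.elim_inl, List.tail_cons, chkI1,
        List.any_eq_true, Bool.and_eq_true, memB_iff, decide_eq_true_eq] at this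
      obtain ⟨⟨s', q⟩, hq, hs', hIT⟩ := this
      dsimp only at hs' hIT
      subst hs'
      obtain ⟨N, hN⟩ := ih q hq
      refine ⟨N + i + j, fun n hn => ?_⟩
      have h2n : n < 2 ^ n := Nat.lt_two_pow_self
      exact memL_T hT n _ _ _ _ _ _ _ hIT (by omega) (by omega) (by omega) (hN n (by omega))
    | @nt X α s i m o hr _ _ ih1 ih2 =>
      intro p hp
      have := hI _ hp
      simp only [List.head?_cons, Option.elim_some, Sum.elim_inr, List.tail_cons, chkI2,
        List.any_eq_true, Bool.and_eq_true, memB_iff, decide_eq_true_eq, List.all_eq_true,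
        impB_iff] at this
      obtain ⟨⟨s', q⟩, hq, hs', hall⟩ := this
      dsimp only at hs' hall
      subst hs'
      obtain ⟨⟨α', r⟩, hr', hα', hI3⟩ := hall _ hr rfl
      dsimp only at hα' hI3
      subst hα'
      obtain ⟨N1, hN1⟩ := ih1 r hr'
      obtain ⟨N2, hN2⟩ := ih2 q hq
      exact ⟨N1 + N2, fun n hn => memL_3 h3 n _ _ _ _ _ _ hI3 (hN1 n (by omega))
        (hN2 n (by omega))⟩
  simp only [chkS, List.any_eq_true, Bool.and_eq_true, decide_eq_true_eq, List.all_eq_true,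
    memB_iff] at hS
  obtain ⟨⟨s, p⟩, hp, hs, hall⟩ := hS
  dsimp only at hs hall
  subst hs
  intro cM hcM k hbk
  have h4 := hall cM hcM
  obtain ⟨N, hN'⟩ := key _ _ _ hb p hp
  have h2n : (N + a + b) < 2 ^ (N + a + b) := Nat.lt_two_pow_self
  have h5 := hN' (N + a + b) (by omega)
  rw [hbk] at h5 h2n
  rw [← hbk] at h2n
  refine memL_L hL (N + a + b) p a cM.1 cM.2 k h4 (by omega) (by rw [← hbk]; omega) ?_
  rw [hbk]
  exact h5

/-! ### Completeness -/

theorem neg_complete {S : ℕ} {ρ : Rls} {a : ℕ} {L' : List (ℕ × ℕ)} (G : Wd → Set V)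
    (h1 : ∀ s ∈ items ρ S, IsSemilinearSet (G s)) (h2 : ∀ i, (i, i) ∈ G [])
    (h3 : ∀ (z : ℤ) (s : Wd), .inl z :: s ∈ items ρ S → ∀ i j o : ℕ, (i : ℤ) + z = j →
      (j, o) ∈ G s → (i, o) ∈ G (.inl z :: s))
    (h4 : ∀ (X : ℕ) (α s : Wd), .inr X :: s ∈ items ρ S → (X, α) ∈ ρ →
      relComp (G α) (G s) ⊆ G (.inr X :: s))
    (h5 : ∀ cM ∈ L', ∀ k : ℕ, (a, cM.1 + k * cM.2) ∉ G [.inr S]) :
    ∃ w : NC, negChk S ρ a L' w = true := by
  classical
  -- the finite set of kernels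
  obtain ⟨l, hl1, hl2⟩ : ∃ l : List (Set V), (∀ s ∈ items ρ S, G s ∈ l) ∧
      ∀ B ∈ l, ∀ e < 2, ∀ f < 2, res B e f ∈ l := by
    have hk : ∀ s, ∃ F : Set (Set V), s ∈ items ρ S → (F.Finite ∧ G s ∈ F ∧
        ∀ B ∈ F, ∀ e < 2, ∀ f < 2, res B e f ∈ F) := by
      intro s
      by_cases hs : s ∈ items ρ S
      · obtain ⟨F, hF⟩ := finKer_semilinear (h1 s hs)
        exact ⟨F, fun _ => hF⟩
      · exact ⟨∅, fun h => absurd h hs⟩
    choose F hF using hk
    have hfin : (⋃ s ∈ items ρ S, F s).Finite :=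
      (items_finite ρ S).biUnion fun s hs => (hF s hs).1
    refine ⟨hfin.toFinset.toList, fun s hs => ?_, fun B hB e he f hf => ?_⟩
    · rw [Finset.mem_toList, Set.Finite.mem_toFinset, mem_iUnion₂]
      exact ⟨s, hs, (hF s hs).2.1⟩
    · rw [Finset.mem_toList, Set.Finite.mem_toFinset, mem_iUnion₂] at *
      obtain ⟨s, hs, hB⟩ := hB
      exact ⟨s, hs, (hF s hs).2.2 B hB e he f hf⟩
  set N := l.length with hN
  let Sp : ℕ → Set V := fun p => l.getD p ∅
  let idx : Set V → ℕ := fun B => l.idxOf B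
  have hidx : ∀ B ∈ l, idx B < N ∧ Sp (idx B) = B := by
    intro B hB
    have hlt : l.idxOf B < l.length := List.idxOf_lt_length_iff.2 hB
    refine ⟨hlt, ?_⟩
    simp only [Sp, idx]
    rw [List.getD_eq_getElem _ _ hlt, List.getElem_idxOf]
  have hSp : ∀ p < N, Sp p ∈ l := by
    intro p hp
    simp only [Sp]
    rw [List.getD_eq_getElem _ _ hp]
    exact List.getElem_mem _
  let T : List ℕ := (List.range (4 * N)).map fun k => idx (res (Sp (k / 4)) (k % 4 / 2) (k % 2))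
  let A : List ℕ := (List.range N).map fun p => if (0, 0) ∈ Sp p then 1 else 0
  have hdel : ∀ p < N, ∀ e < 2, ∀ f < 2, del T p e f < N ∧
      Sp (del T p e f) = res (Sp p) e f := by
    intro p hp e he f hf
    have hlt : 4 * p + 2 * e + f < (List.range (4 * N)).length := by
      rw [List.length_range]; omega
    have : del T p e f = idx (res (Sp p) e f) := by
      simp only [del, T]
      rw [List.getD_eq_getElem _ _ (by rw [List.length_map]; exact hlt), List.getElem_map,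
        List.getElem_range]
      have e1 : (4 * p + 2 * e + f) / 4 = p := by omega
      have e2 : (4 * p + 2 * e + f) % 4 / 2 = e := by omega
      have e3 : (4 * p + 2 * e + f) % 2 = f := by omega
      rw [e1, e2, e3]
    rw [this]
    exact hidx _ (hl2 _ (hSp p hp) e he f hf)
  have hacc : ∀ p < N, (acc A p = true ↔ (0, 0) ∈ Sp p) := by
    intro p hp
    simp only [acc, A, decide_eq_true_eq]
    rw [List.getD_eq_getElem _ _ (by rw [List.length_map, List.length_range]; exact hp),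
      List.getElem_map, List.getElem_range]
    split_ifs with h <;> simp [h]
  -- the lists
  let I3 : List (ℕ × ℕ × ℕ) := (List.range N ×ˢ (List.range N ×ˢ List.range N)).filter
    fun t => decide (relComp (Sp t.1) (Sp t.2.1) ⊆ Sp t.2.2)
  have hI3 : ∀ p q r, (p, q, r) ∈ I3 ↔ (p < N ∧ q < N ∧ r < N) ∧
      relComp (Sp p) (Sp q) ⊆ Sp r := by
    intro p q r
    simp [I3, List.mem_filter]
  let IN : List ℕ := (List.range N).filter fun p => decide (∀ x, (x, x) ∈ Sp p)
  have hIN : ∀ p, p ∈ IN ↔ p < N ∧ ∀ x, (x, x) ∈ Sp p := by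
    intro p
    simp [IN, List.mem_filter]
  obtain ⟨B, hB2, hBz, hBa, hBL⟩ : ∃ B, 2 ≤ B ∧ (∀ s ∈ items ρ S, ∀ z : ℤ, .inl z ∈ s →
      z.toNat < B ∧ (-z).toNat < B) ∧ a < B ∧ ∀ cM ∈ L', cM.1 < B ∧ cM.2 < B := by
    have hf1 : (⋃ s ∈ items ρ S, {x | x ∈ s}).Finite :=
      (items_finite ρ S).biUnion fun s _ => List.finite_toSet s
    have hf2 : ((fun x : ℤ ⊕ ℕ => Sum.elim (fun z : ℤ => z.natAbs) id x) ''
        (⋃ s ∈ items ρ S, {x | x ∈ s})).Finite := hf1.image _
    obtain ⟨B1, hB1⟩ := hf2.bddAbove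
    obtain ⟨B2, hB2⟩ := ((List.finite_toSet L').image (fun cM => cM.1 + cM.2)).bddAbove
    refine ⟨B1 + B2 + a + 2, by omega, fun s hs z hz => ?_, by omega, fun cM hcM => ?_⟩
    · have : z.natAbs ≤ B1 := hB1 ⟨.inl z, mem_iUnion₂.2 ⟨s, hs, hz⟩, rfl⟩
      omega
    · have : cM.1 + cM.2 ≤ B2 := hB2 ⟨cM, hcM, rfl⟩
      omega
  let IT : List (ℕ × ℕ × ℕ × ℕ) :=
    (List.range N ×ˢ (List.range N ×ˢ (List.range B ×ˢ List.range B))).filter
    fun t => decide (∀ x x2 y, x + t.2.2.1 = x2 + t.2.2.2 → (x2, y) ∈ Sp t.1 → (x, y) ∈ Sp t.2.1)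
  have hIT : ∀ q p u w, (q, p, u, w) ∈ IT ↔ (q < N ∧ p < N ∧ u < B ∧ w < B) ∧
      ∀ x x2 y, x + u = x2 + w → (x2, y) ∈ Sp q → (x, y) ∈ Sp p := by
    intro q p u w
    simp [IT, List.mem_filter]
  let IL : List (ℕ × ℕ × ℕ × ℕ) :=
    (List.range N ×ˢ (List.range B ×ˢ (List.range B ×ˢ List.range B))).filter
    fun t => decide (∀ k, (t.2.1, t.2.2.1 + k * t.2.2.2) ∉ Sp t.1)
  have hIL : ∀ p a c M, (p, a, c, M) ∈ IL ↔ (p < N ∧ a < B ∧ c < B ∧ M < B) ∧
      ∀ k, (a, c + k * M) ∉ Sp p := by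
    intro p a c M
    simp [IL, List.mem_filter]
  let its : List (Wd × ℕ) := (items_finite ρ S).toFinset.toList.map fun s => (s, idx (G s))
  have hits : ∀ s p, (s, p) ∈ its ↔ s ∈ items ρ S ∧ p = idx (G s) := by
    intro s p
    simp only [its, List.mem_map, Finset.mem_toList, Set.Finite.mem_toFinset, Prod.mk.injEq]
    constructor
    · rintro ⟨s', hs', rfl, rfl⟩; exact ⟨hs', rfl⟩
    · rintro ⟨hs, rfl⟩; exact ⟨s, hs, rfl, rfl⟩
  have hG : ∀ s ∈ items ρ S, idx (G s) < N ∧ Sp (idx (G s)) = G s := fun s hs =>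
    hidx _ (hl1 s hs)
  refine ⟨((T, A), its, I3, IN, IT, IL), ?_⟩
  simp only [negChk, Bool.and_eq_true]
  refine ⟨⟨⟨⟨⟨?_, ?_⟩, ?_⟩, ?_⟩, ?_⟩, ?_⟩
  · simp only [chk3, List.all_eq_true, Bool.and_eq_true, impB_iff, memB_iff, List.mem_range]
    rintro ⟨p, q, r⟩ ht
    obtain ⟨⟨hp, hq, hr⟩, hsub⟩ := (hI3 _ _ _).1 ht
    dsimp only
    refine ⟨?_, fun e he f hf g hg => ?_⟩
    · rw [hacc p hp, hacc q hq, hacc r hr]
      rintro ⟨h6, h7⟩
      exact hsub ⟨0, h6, h7⟩
    · rw [hI3]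
      refine ⟨⟨(hdel p hp e he f hf).1, (hdel q hq f hf g hg).1, (hdel r hr e he g hg).1⟩, ?_⟩
      rw [(hdel p hp e he f hf).2, (hdel q hq f hf g hg).2, (hdel r hr e he g hg).2]
      rintro ⟨x, y⟩ ⟨m, h6, h7⟩
      exact hsub ⟨2 * m + f, h6, h7⟩
  · simp only [chkN, List.all_eq_true, Bool.and_eq_true, memB_iff, List.mem_range]
    intro p hp
    obtain ⟨hp, hdiag⟩ := (hIN _).1 hp
    refine ⟨(hacc p hp).2 (hdiag 0), fun e he => ?_⟩
    rw [hIN]
    refine ⟨(hdel p hp e he e he).1, fun x => ?_⟩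
    rw [(hdel p hp e he e he).2]
    exact hdiag (2 * x + e)
  · simp only [chkT, List.all_eq_true, Bool.and_eq_true, impB_iff, memB_iff, List.mem_range,
      decide_eq_true_eq]
    rintro ⟨q, p, u, w⟩ ht
    obtain ⟨⟨hq, hp, hu, hw⟩, hsub⟩ := (hIT _ _ _ _).1 ht
    dsimp only
    refine ⟨?_, fun e he e2 he2 f hf hpar => ?_⟩
    · rw [hacc p hp, hacc q hq]
      rintro ⟨h6, h7⟩
      exact hsub 0 0 0 (by omega) h7
    · rw [hIT]
      refine ⟨⟨(hdel q hq e2 he2 f hf).1, (hdel p hp e he f hf).1, by omega, by omega⟩, ?_⟩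
      rw [(hdel q hq e2 he2 f hf).2, (hdel p hp e he f hf).2]
      intro x x2 y hx h6
      exact hsub (2 * x + e) (2 * x2 + e2) (2 * y + f) (by omega) h6
  · simp only [chkL, List.all_eq_true, Bool.and_eq_true, impB_iff, memB_iff, List.mem_range,
      decide_eq_true_eq, Bool.not_eq_true']
    rintro ⟨p, a', c, M⟩ ht
    obtain ⟨⟨hp, ha', hc, hM⟩, hsub⟩ := (hIL _ _ _ _).1 ht
    dsimp only
    refine ⟨?_, fun e he => ?_⟩
    · rintro ⟨h6, h7⟩
      rw [Bool.eq_false_iff, Ne, hacc p hp]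
      have := hsub 0
      rwa [h6, h7, zero_mul, add_zero] at this
    · have hd := hdel p hp (a' % 2) (Nat.mod_lt _ two_pos) ((c + e * M) % 2)
        (Nat.mod_lt _ two_pos)
      rw [hIL]
      have heM : e * M ≤ M := by
        calc e * M ≤ 1 * M := Nat.mul_le_mul (by omega) le_rfl
          _ = M := one_mul _
      refine ⟨⟨hd.1, by omega, by omega, hM⟩, fun k => ?_⟩
      rw [hd.2]
      intro h6
      apply hsub (2 * k + e)
      have h7 : (2 * (a' / 2) + a' % 2, 2 * ((c + e * M) / 2 + k * M) + (c + e * M) % 2) ∈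
          Sp p := h6
      have e1 : 2 * (a' / 2) + a' % 2 = a' := by omega
      have e2 : 2 * ((c + e * M) / 2 + k * M) + (c + e * M) % 2 = c + (2 * k + e) * M := by
        have : (2 * k + e) * M = 2 * (k * M) + e * M := by ring
        omega
      rwa [e1, e2] at h7
  · simp only [chkI, List.all_eq_true]
    rintro ⟨s, p⟩ hsp
    obtain ⟨hs, rfl⟩ := (hits _ _).1 hsp
    rcases s with - | ⟨z | X, s⟩
    · simp only [List.head?_nil, Option.elim_none, memB_iff]
      rw [hIN]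
      refine ⟨(hG _ hs).1, fun x => ?_⟩
      rw [(hG _ hs).2]
      exact h2 x
    · simp only [List.head?_cons, Option.elim_some, Sum.elim_inl, List.tail_cons, chkI1,
        List.any_eq_true, Bool.and_eq_true, memB_iff, decide_eq_true_eq]
      have hs' := items_tail hs
      refine ⟨(s, idx (G s)), (hits _ _).2 ⟨hs', rfl⟩, rfl, ?_⟩
      have hz := hBz _ hs z (by simp)
      rw [hIT]
      refine ⟨⟨(hG _ hs').1, (hG _ hs).1, hz.1, hz.2⟩, ?_⟩
      rw [(hG _ hs').2, (hG _ hs).2]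
      intro x x2 y hx h6
      exact h3 z s hs x x2 y (by omega) h6
    · simp only [List.head?_cons, Option.elim_some, Sum.elim_inr, List.tail_cons, chkI2,
        List.any_eq_true, Bool.and_eq_true, memB_iff, decide_eq_true_eq, List.all_eq_true,
        impB_iff]
      have hs' := items_tail hs
      refine ⟨(s, idx (G s)), (hits _ _).2 ⟨hs', rfl⟩, rfl, ?_⟩
      rintro ⟨Y, α⟩ hr rfl
      dsimp only at *
      have hα : α ∈ items ρ S := items_body hr
      refine ⟨(α, idx (G α)), (hits _ _).2 ⟨hα, rfl⟩, rfl, ?_⟩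
      rw [hI3]
      refine ⟨⟨(hG _ hα).1, (hG _ hs').1, (hG _ hs).1⟩, ?_⟩
      rw [(hG _ hα).2, (hG _ hs').2, (hG _ hs).2]
      exact h4 _ _ _ hs hr
  · simp only [chkS, List.any_eq_true, Bool.and_eq_true, decide_eq_true_eq, List.all_eq_true,
      memB_iff]
    have hs := items_start ρ S
    refine ⟨([.inr S], idx (G [.inr S])), (hits _ _).2 ⟨hs, rfl⟩, rfl, fun cM hcM => ?_⟩
    rw [hIL]
    refine ⟨⟨(hG _ hs).1, hBa, (hBL _ hcM).1, (hBL _ hcM).2⟩, ?_⟩
    rw [(hG _ hs).2]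
    exact h5 cM hcM

end Pool.Agent.Lib.P675cc6
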