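import Mathlib
import Pool.Agent.Lib.P675cc6.Neg
import Pool.Agent.Lib.P675cc6.Amalg

/-!
Certificates for pump families: lists of facts, each justified by the later ones.
-/

namespace Pool.Agent.Lib.P675cc6

open Set

/-- Facts: `((s, []), (i, x, o, y), true)` stands for `PF ρ s i x o y` and
`((s, s'), (p, q, p', q'), false)` stands for `CT ρ s p q s' p' q'`. -/
abbrev Fact := (Wd × Wd) × (ℕ × ℕ × ℕ × ℕ) × Bool

instance decFact : DecidableEq Fact := instDecidableEqProd

def FactOk (ρ : Rls) (f : Fact) : Prop :=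
  (f.2.2 = true → PF ρ f.1.1 f.2.1.1 f.2.1.2.1 f.2.1.2.2.1 f.2.1.2.2.2) ∧
  (f.2.2 = false → CT ρ f.1.1 f.2.1.1 f.2.1.2.1 f.1.2 f.2.1.2.2.1 f.2.1.2.2.2)

/-- Justification of a terminal step. -/
def jT (l : List Fact) (t : Wd) (s' : Wd) (z : ℤ) (a b c d : ℕ) (e : Bool) : Bool :=
  decide ((-z).toNat ≤ a + z.toNat) && memB l ((t, s'), (a + z.toNat - (-z).toNat, b, c, d), e)

@[fun_prop] theorem jT_primrec {α : Type} [Primcodable α] {l : α → List Fact} {t s' : α → Wd}
    {z : α → ℤ} {a b c d : α → ℕ} {e : α → Bool} (h1 : Primrec l) (h2 : Primrec t)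
    (h3 : Primrec s') (h4 : Primrec z) (h5 : Primrec a) (h6 : Primrec b) (h7 : Primrec c)
    (h8 : Primrec d) (h9 : Primrec e) :
    Primrec (fun x => jT (l x) (t x) (s' x) (z x) (a x) (b x) (c x) (d x) (e x)) := by
  unfold jT
  fun_prop

/-- Justification of a pump family by a rule. -/
def jN (ρ : Rls) (l : List Fact) (X : ℕ) (t : Wd) (i x o y : ℕ) : Bool :=
  l.any fun g => (g.2.2 && memB ρ (X, g.1.1) && decide (g.2.1.1 = i) && decide (g.2.1.2.1 = x)) &&
    memB l ((t, []), (g.2.1.2.2.1, g.2.1.2.2.2, o, y), true)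

@[fun_prop] theorem jN_primrec {α : Type} [Primcodable α] {ρ : α → Rls} {l : α → List Fact}
    {X : α → ℕ} {t : α → Wd} {i x o y : α → ℕ} (h0 : Primrec ρ) (h1 : Primrec l)
    (h2 : Primrec X) (h3 : Primrec t) (h5 : Primrec i) (h6 : Primrec x) (h7 : Primrec o)
    (h8 : Primrec y) :
    Primrec (fun a => jN (ρ a) (l a) (X a) (t a) (i a) (x a) (o a) (y a)) := by
  unfold jN
  fun_prop

/-- Justification of a pump family by a context. -/
def jC (l : List Fact) (s : Wd) (i x o y : ℕ) : Bool :=
  l.any fun g => (g.2.2 && decide (g.1.1 = s) && decide (g.2.1.1 = i) &&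
    decide (g.2.1.2.2.1 = o)) &&
    memB l ((s, s), (i + x, o + y, i + g.2.1.2.1, o + g.2.1.2.2.2), false)

@[fun_prop] theorem jC_primrec {α : Type} [Primcodable α] {l : α → List Fact}
    {s : α → Wd} {i x o y : α → ℕ} (h1 : Primrec l)
    (h3 : Primrec s) (h5 : Primrec i) (h6 : Primrec x) (h7 : Primrec o) (h8 : Primrec y) :
    Primrec (fun a => jC (l a) (s a) (i a) (x a) (o a) (y a)) := by
  unfold jC
  fun_prop

/-- Justification of a context by a rule, hole on the left. -/
def jL (ρ : Rls) (l : List Fact) (X : ℕ) (t s' : Wd) (p q p' q' : ℕ) : Bool :=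
  l.any fun g => (!g.2.2 && memB ρ (X, g.1.1) && decide (g.1.2 = s') && decide (g.2.1.1 = p) &&
    decide (g.2.1.2.2.1 = p') && decide (g.2.1.2.2.2 = q')) &&
    memB l ((t, []), (g.2.1.2.1, 0, q, 0), true)

@[fun_prop] theorem jL_primrec {α : Type} [Primcodable α] {ρ : α → Rls} {l : α → List Fact}
    {X : α → ℕ} {t s' : α → Wd} {i x o y : α → ℕ} (h0 : Primrec ρ) (h1 : Primrec l)
    (h2 : Primrec X) (h3 : Primrec t) (h4 : Primrec s') (h5 : Primrec i) (h6 : Primrec x)
    (h7 : Primrec o) (h8 : Primrec y) :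
    Primrec (fun a => jL (ρ a) (l a) (X a) (t a) (s' a) (i a) (x a) (o a) (y a)) := by
  unfold jL
  fun_prop

/-- Justification of a context by a rule, hole on the right. -/
def jR (ρ : Rls) (l : List Fact) (X : ℕ) (t s' : Wd) (p q p' q' : ℕ) : Bool :=
  l.any fun g => (g.2.2 && memB ρ (X, g.1.1) && decide (g.2.1.1 = p) &&
    decide (g.2.1.2.1 = 0) && decide (g.2.1.2.2.2 = 0)) &&
    memB l ((t, s'), (g.2.1.2.2.1, q, p', q'), false)

@[fun_prop] theorem jR_primrec {α : Type} [Primcodable α] {ρ : α → Rls} {l : α → List Fact}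
    {X : α → ℕ} {t s' : α → Wd} {i x o y : α → ℕ} (h0 : Primrec ρ) (h1 : Primrec l)
    (h2 : Primrec X) (h3 : Primrec t) (h4 : Primrec s') (h5 : Primrec i) (h6 : Primrec x)
    (h7 : Primrec o) (h8 : Primrec y) :
    Primrec (fun a => jR (ρ a) (l a) (X a) (t a) (s' a) (i a) (x a) (o a) (y a)) := by
  unfold jR
  fun_prop

/-- Justification of pump families. -/
def just1 (ρ : Rls) (l : List Fact) (s : Wd) (i x o y : ℕ) : Bool :=
  s.head?.elim (decide (i = o) && decide (x = y)) (fun h => Sum.elim
    (fun z => jT l s.tail [] z i x o y true)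
    (fun X => jN ρ l X s.tail i x o y) h) || jC l s i x o y

@[fun_prop] theorem just1_primrec {α : Type} [Primcodable α] {ρ : α → Rls} {l : α → List Fact}
    {s : α → Wd} {i x o y : α → ℕ} (h0 : Primrec ρ) (h1 : Primrec l)
    (h3 : Primrec s) (h5 : Primrec i) (h6 : Primrec x) (h7 : Primrec o) (h8 : Primrec y) :
    Primrec (fun a => just1 (ρ a) (l a) (s a) (i a) (x a) (o a) (y a)) := by
  unfold just1
  fun_prop

/-- Justification of contexts. -/
def just2 (ρ : Rls) (l : List Fact) (s s' : Wd) (p q p' q' : ℕ) : Bool :=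
  s.head?.elim false (fun h => Sum.elim
    (fun z => jT l s.tail s' z p q p' q' false)
    (fun X => jL ρ l X s.tail s' p q p' q' || jR ρ l X s.tail s' p q p' q') h) ||
  (decide (s = s') && decide (p = p') && decide (q = q'))

@[fun_prop] theorem just2_primrec {α : Type} [Primcodable α] {ρ : α → Rls} {l : α → List Fact}
    {s s' : α → Wd} {i x o y : α → ℕ} (h0 : Primrec ρ) (h1 : Primrec l)
    (h3 : Primrec s) (h4 : Primrec s') (h5 : Primrec i) (h6 : Primrec x) (h7 : Primrec o)
    (h8 : Primrec y) :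
    Primrec (fun a => just2 (ρ a) (l a) (s a) (s' a) (i a) (x a) (o a) (y a)) := by
  unfold just2
  fun_prop

def just (ρ : Rls) (l : List Fact) (f : Fact) : Bool :=
  bif f.2.2 then just1 ρ l f.1.1 f.2.1.1 f.2.1.2.1 f.2.1.2.2.1 f.2.1.2.2.2
  else just2 ρ l f.1.1 f.1.2 f.2.1.1 f.2.1.2.1 f.2.1.2.2.1 f.2.1.2.2.2

@[fun_prop] theorem just_primrec {α : Type} [Primcodable α] {ρ : α → Rls} {l : α → List Fact}
    {f : α → Fact} (h0 : Primrec ρ) (h1 : Primrec l) (h3 : Primrec f) :
    Primrec (fun a => just (ρ a) (l a) (f a)) := by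
  unfold just
  fun_prop

/-- Justified lists. -/
def chkD (ρ : Rls) (l : List Fact) : Bool :=
  (l.reverse.foldl (fun st f => (f :: st.1, st.2 && just ρ st.1 f))
    (([] : List Fact), true)).2

@[fun_prop] theorem reverse' {α β : Type} [Primcodable α] [Primcodable β] {f : α → List β}
    (hf : Primrec f) : Primrec (fun a => (f a).reverse) := Primrec.list_reverse.comp hf

@[fun_prop] theorem chkD_primrec {α : Type} [Primcodable α] {ρ : α → Rls} {l : α → List Fact}
    (h0 : Primrec ρ) (h1 : Primrec l) : Primrec (fun a => chkD (ρ a) (l a)) := by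
  unfold chkD
  fun_prop

/-- Justified lists, as a proposition. -/
def JList (ρ : Rls) : List Fact → Prop
  | [] => True
  | f :: l => just ρ l f = true ∧ JList ρ l

theorem chkD_iff {ρ : Rls} {l : List Fact} : chkD ρ l = true ↔ JList ρ l := by
  have key : ∀ l : List Fact, (l.reverse.foldl (fun st f => (f :: st.1, st.2 && just ρ st.1 f))
      (([] : List Fact), true)).1 = l ∧ ((l.reverse.foldl
        (fun st f => (f :: st.1, st.2 && just ρ st.1 f)) (([] : List Fact), true)).2 = true ↔
          JList ρ l) := by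
    intro l
    induction l with
    | nil => simp [JList]
    | cons f l ih =>
      rw [List.reverse_cons, List.foldl_append]
      simp only [List.foldl_cons, List.foldl_nil]
      refine ⟨by rw [ih.1], ?_⟩
      rw [Bool.and_eq_true, ih.2, ih.1]
      exact and_comm
  exact (key l).2

/-! ### Soundness -/

theorem just_sound {ρ : Rls} {l : List Fact} (hl : ∀ g ∈ l, FactOk ρ g) {f : Fact}
    (h : just ρ l f = true) : FactOk ρ f := by
  obtain ⟨⟨s, s'⟩, ⟨a, b, c, d⟩, e⟩ := f
  cases e with
  | true =>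
    refine ⟨fun _ => ?_, fun h => by cases h⟩
    dsimp only
    simp only [just, cond_true, just1, Bool.or_eq_true] at h
    rcases h with h | h
    · rcases s with - | ⟨z | X, s⟩
      · simp only [List.head?_nil, Option.elim_none, Bool.and_eq_true, decide_eq_true_eq] at h
        obtain ⟨rfl, rfl⟩ := h
        exact .nil _ _
      · simp only [List.head?_cons, Option.elim_some, Sum.elim_inl, List.tail_cons, jT,
          Bool.and_eq_true, decide_eq_true_eq, memB_iff] at h
        obtain ⟨h1, h2⟩ := h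
        exact .term (j := a + z.toNat - (-z).toNat) (by omega) ((hl _ h2).1 rfl)
      · simp only [List.head?_cons, Option.elim_some, Sum.elim_inr, List.tail_cons, jN,
          List.any_eq_true, Bool.and_eq_true, decide_eq_true_eq, memB_iff] at h
        obtain ⟨⟨⟨s1, s1'⟩, ⟨a1, b1, c1, d1⟩, e1⟩, hg, ⟨⟨⟨h1, h2⟩, h3⟩, h4⟩, h5⟩ := h
        dsimp only at *
        subst h1 h3 h4
        exact .nt h2 ((hl _ hg).1 rfl) ((hl _ h5).1 rfl)
    · simp only [jC, List.any_eq_true, Bool.and_eq_true, decide_eq_true_eq, memB_iff] at h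
      obtain ⟨⟨⟨s1, s1'⟩, ⟨a1, b1, c1, d1⟩, e1⟩, hg, ⟨⟨⟨h1, h2⟩, h3⟩, h4⟩, h5⟩ := h
      dsimp only at *
      subst h1 h2 h3 h4
      exact .ctx ((hl _ h5).2 rfl) ((hl _ hg).1 rfl)
  | false =>
    refine ⟨fun h => by (cases h), fun _ => ?_⟩
    dsimp only
    simp only [just, cond_false, just2, Bool.or_eq_true] at h
    rcases h with h | h
    · rcases s with - | ⟨z | X, s⟩
      · simp at h
      · simp only [List.head?_cons, Option.elim_some, Sum.elim_inl, List.tail_cons, jT,
          Bool.and_eq_true, decide_eq_true_eq, memB_iff] at h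
        obtain ⟨h1, h2⟩ := h
        exact .tail (p1 := a + z.toNat - (-z).toNat) (by omega) ((hl _ h2).2 rfl)
      · simp only [List.head?_cons, Option.elim_some, Sum.elim_inr, List.tail_cons, jL, jR,
          List.any_eq_true, Bool.and_eq_true, decide_eq_true_eq, memB_iff, Bool.or_eq_true,
          Bool.not_eq_true'] at h
        rcases h with h | h
        · obtain ⟨⟨⟨s1, s1'⟩, ⟨a1, b1, c1, d1⟩, e1⟩, hg, ⟨⟨⟨⟨⟨h1, h2⟩, h3⟩, h4⟩, h5⟩, h6⟩,
            h7⟩ := h
          dsimp only at *
          subst h1 h3 h4 h5 h6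
          have h8 := ((hl _ h7).1 rfl).sem 0
          simp only [Nat.zero_mul, Nat.add_zero] at h8
          exact .left h2 ((hl _ hg).2 rfl) h8
        · obtain ⟨⟨⟨s1, s1'⟩, ⟨a1, b1, c1, d1⟩, e1⟩, hg, ⟨⟨⟨⟨h1, h2⟩, h3⟩, h4⟩, h5⟩, h7⟩ := h
          dsimp only at *
          subst h1 h3 h4 h5
          have h8 := ((hl _ hg).1 rfl).sem 0
          simp only [Nat.zero_mul, Nat.add_zero] at h8
          exact .right h2 h8 ((hl _ h7).2 rfl)
    · simp only [Bool.and_eq_true, decide_eq_true_eq] at h
      obtain ⟨⟨rfl, rfl⟩, rfl⟩ := h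
      exact .refl _ _ _

theorem JList.sound {ρ : Rls} {l : List Fact} (h : JList ρ l) : ∀ f ∈ l, FactOk ρ f := by
  induction l with
  | nil => intro f hf; cases hf
  | cons f l ih =>
    intro g hg
    rcases List.mem_cons.1 hg with rfl | hg
    · exact just_sound (ih h.2) h.1
    · exact ih h.2 g hg

/-! ### Completeness -/

theorem memB_mono {α : Type} [DecidableEq α] {l l' : List α} (h : ∀ g ∈ l, g ∈ l') {x : α}
    (hx : memB l x = true) : memB l' x = true := memB_iff.2 (h _ (memB_iff.1 hx))

theorem any_mono {α : Type} {l l' : List α} (h : ∀ g ∈ l, g ∈ l') {p p' : α → Bool}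
    (hp : ∀ g, p g = true → p' g = true) (hx : l.any p = true) : l'.any p' = true := by
  rw [List.any_eq_true] at *
  obtain ⟨g, hg, hpg⟩ := hx
  exact ⟨g, h g hg, hp g hpg⟩

theorem and_mono {a b b' : Bool} (h : b = true → b' = true) (hx : (a && b) = true) :
    (a && b') = true := by
  cases a <;> simp_all

theorem or_mono {a a' b b' : Bool} (ha : a = true → a' = true) (h : b = true → b' = true)
    (hx : (a || b) = true) : (a' || b') = true := by
  cases a <;> cases b <;> simp_all

theorem just_mono {ρ : Rls} {l l' : List Fact} (h : ∀ g ∈ l, g ∈ l') {f : Fact}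
    (hf : just ρ l f = true) : just ρ l' f = true := by
  obtain ⟨⟨s, s'⟩, ⟨a, b, c, d⟩, e⟩ := f
  cases e with
  | true =>
    simp only [just, cond_true] at hf ⊢
    unfold just1 at hf ⊢
    refine or_mono ?_ ?_ hf
    · rcases s with - | ⟨z | X, s⟩
      · exact fun h => h
      · exact and_mono (memB_mono h)
      · exact any_mono h fun g => and_mono (memB_mono h)
    · exact any_mono h fun g => and_mono (memB_mono h)
  | false =>
    simp only [just, cond_false] at hf ⊢
    unfold just2 at hf ⊢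
    refine or_mono ?_ (fun h => h) hf
    rcases s with - | ⟨z | X, s⟩
    · exact fun h => h
    · exact and_mono (memB_mono h)
    · exact or_mono (any_mono h fun g => and_mono (memB_mono h))
        (any_mono h fun g => and_mono (memB_mono h))

theorem JList.append {ρ : Rls} {l l' : List Fact} (h : JList ρ l) (h' : JList ρ l') :
    JList ρ (l ++ l') := by
  induction l with
  | nil => exact h'
  | cons f l ih =>
    exact ⟨just_mono (fun g hg => List.mem_append_left _ hg) h.1, ih h.2⟩

/-- Facts with a certificate. -/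
def Der (ρ : Rls) (f : Fact) : Prop := ∃ D, JList ρ D ∧ f ∈ D

theorem Der.mk {ρ : Rls} {f : Fact} (l : List Fact) (hl : ∀ g ∈ l, Der ρ g)
    (h : just ρ l f = true) : Der ρ f := by
  have : ∃ D, JList ρ D ∧ ∀ g ∈ l, g ∈ D := by
    clear h
    induction l with
    | nil => exact ⟨[], trivial, by simp⟩
    | cons g l ih =>
      obtain ⟨D1, h1, h1'⟩ := ih fun g hg => hl g (List.mem_cons_of_mem _ hg)
      obtain ⟨D2, h2, h2'⟩ := hl g List.mem_cons_self
      refine ⟨D1 ++ D2, h1.append h2, fun g' hg' => ?_⟩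
      rcases List.mem_cons.1 hg' with rfl | hg'
      · exact List.mem_append_right _ h2'
      · exact List.mem_append_left _ (h1' _ hg')
  obtain ⟨D, hD, hD'⟩ := this
  exact ⟨f :: D, ⟨just_mono hD' h, hD⟩, List.mem_cons_self⟩

theorem der_run {ρ : Rls} {s : Wd} {i o : ℕ} (h : RunC ρ s i o) :
    ∀ w, Der ρ ((s, []), (i, w, o, w), true) := by
  induction h with
  | nil i =>
    intro w
    refine Der.mk [] (by simp) ?_
    simp [just, just1]
  | @term z s i j o hz _ ih =>
    intro w
    refine Der.mk [((s, []), (j, w, o, w), true)] (by simpa using ih w) ?_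
    have e2 : i + z.toNat - (-z).toNat = j := by omega
    simp only [just, just1, jT, memB, cond_true, List.head?_cons, Option.elim_some, Sum.elim_inl,
      List.tail_cons, e2, List.any_cons, List.any_nil, Bool.or_eq_true, Bool.and_eq_true,
      decide_eq_true_eq]
    exact Or.inl ⟨by omega, Or.inl trivial⟩
  | @nt X α s i m o hr _ _ ih1 ih2 =>
    intro w
    refine Der.mk [((α, []), (i, w, m, w), true), ((s, []), (m, w, o, w), true)]
      (by simpa using ⟨ih1 w, ih2 w⟩) ?_
    have hr' : memB ρ (X, α) = true := memB_iff.2 hr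
    simp only [just, cond_true, just1, List.head?_cons, Option.elim_some, Sum.elim_inr,
      List.tail_cons, jN, List.any_cons, hr']
    simp [memB]

theorem der_ct {ρ : Rls} {s s' : Wd} {p q p' q' : ℕ} (h : CT ρ s p q s' p' q') :
    Der ρ ((s, s'), (p, q, p', q'), false) := by
  induction h with
  | refl s p q =>
    refine Der.mk [] (by simp) ?_
    simp [just, just2]
  | @tail z s s' p p1 q p' q' hz _ ih =>
    refine Der.mk [((s, s'), (p1, q, p', q'), false)] (by simpa using ih) ?_
    have e2 : p + z.toNat - (-z).toNat = p1 := by omega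
    simp only [just, just2, jT, memB, cond_false, List.head?_cons, Option.elim_some, Sum.elim_inl,
      List.tail_cons, e2, List.any_cons, List.any_nil, Bool.or_eq_true, Bool.and_eq_true,
      decide_eq_true_eq]
    exact Or.inl ⟨by omega, Or.inl trivial⟩
  | @left X α s s' p m q p' q' hr _ hs ih =>
    refine Der.mk [((α, s'), (p, m, p', q'), false), ((s, []), (m, 0, q, 0), true)]
      (by simpa using ⟨ih, der_run hs 0⟩) ?_
    have hr' : memB ρ (X, α) = true := memB_iff.2 hr
    simp only [just, cond_false, just2, List.head?_cons, Option.elim_some, Sum.elim_inr,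
      List.tail_cons, jL, List.any_cons, hr']
    simp [memB]
  | @right X α s s' p m q p' q' hr hs _ ih =>
    refine Der.mk [((α, []), (p, 0, m, 0), true), ((s, s'), (m, q, p', q'), false)]
      (by simpa using ⟨der_run hs 0, ih⟩) ?_
    have hr' : memB ρ (X, α) = true := memB_iff.2 hr
    simp only [just, cond_false, just2, List.head?_cons, Option.elim_some, Sum.elim_inr,
      List.tail_cons, jR, List.any_cons, hr']
    simp [memB]

theorem der_pf {ρ : Rls} {s : Wd} {i x o y : ℕ} (h : PF ρ s i x o y) :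
    Der ρ ((s, []), (i, x, o, y), true) := by
  induction h with
  | nil i x =>
    refine Der.mk [] (by simp) ?_
    simp [just, just1]
  | @term z s i j x o y hz _ ih =>
    refine Der.mk [((s, []), (j, x, o, y), true)] (by simpa using ih) ?_
    have e2 : i + z.toNat - (-z).toNat = j := by omega
    simp only [just, just1, jT, memB, cond_true, List.head?_cons, Option.elim_some, Sum.elim_inl,
      List.tail_cons, e2, List.any_cons, List.any_nil, Bool.or_eq_true, Bool.and_eq_true,
      decide_eq_true_eq]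
    exact Or.inl ⟨by omega, Or.inl trivial⟩
  | @nt X α s i x m w o y hr _ _ ih1 ih2 =>
    refine Der.mk [((α, []), (i, x, m, w), true), ((s, []), (m, w, o, y), true)]
      (by simpa using ⟨ih1, ih2⟩) ?_
    have hr' : memB ρ (X, α) = true := memB_iff.2 hr
    simp only [just, cond_true, just1, List.head?_cons, Option.elim_some, Sum.elim_inr,
      List.tail_cons, jN, List.any_cons, hr']
    simp [memB]
  | @ctx s i x o y h k hc _ ih =>
    refine Der.mk [((s, []), (i, h, o, k), true), ((s, s), (i + x, o + y, i + h, o + k), false)]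
      (by simpa using ⟨ih, der_ct hc⟩) ?_
    simp only [just, cond_true, just1, Bool.or_eq_true]
    right
    simp [jC, memB]

/-- The check of positive certificates. -/
def posChk (S : ℕ) (ρ : Rls) (a : ℕ) (L : List (ℕ × ℕ)) (D : List Fact) : Bool :=
  chkD ρ D && L.all fun cM => memB D (([Sum.inr S], []), (a, 0, cM.1, cM.2), true)

@[fun_prop] theorem posChk_primrec {α : Type} [Primcodable α] {S a : α → ℕ} {ρ : α → Rls}
    {L : α → List (ℕ × ℕ)} {D : α → List Fact}
    (h1 : Primrec S) (h2 : Primrec ρ) (h3 : Primrec a) (h4 : Primrec L) (h5 : Primrec D) :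
    Primrec (fun x => posChk (S x) (ρ x) (a x) (L x) (D x)) := by
  unfold posChk
  fun_prop

theorem pos_sound {S : ℕ} {ρ : Rls} {a : ℕ} {L : List (ℕ × ℕ)} {D : List Fact}
    (h : posChk S ρ a L D = true) : ∀ cM ∈ L, ∀ k, RunC ρ [.inr S] a (cM.1 + k * cM.2) := by
  simp only [posChk, Bool.and_eq_true, List.all_eq_true, memB_iff] at h
  intro cM hcM k
  have h1 := (chkD_iff.1 h.1).sound _ (h.2 cM hcM)
  have h2 := (h1.1 rfl).sem k
  simpa using h2

theorem pos_complete {S : ℕ} {ρ : Rls} {a : ℕ} {L : List (ℕ × ℕ)}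
    (h : ∀ cM ∈ L, PF ρ [.inr S] a 0 cM.1 cM.2) : ∃ D, posChk S ρ a L D = true := by
  have : ∃ D, JList ρ D ∧ ∀ cM ∈ L, (([Sum.inr S], []), (a, 0, cM.1, cM.2), true) ∈ D := by
    induction L with
    | nil => exact ⟨[], trivial, by simp⟩
    | cons cM L ih =>
      obtain ⟨D1, h1, h1'⟩ := ih fun g hg => h g (List.mem_cons_of_mem _ hg)
      obtain ⟨D2, h2, h2'⟩ := der_pf (h cM List.mem_cons_self)
      refine ⟨D1 ++ D2, h1.append h2, fun g' hg' => ?_⟩
      rcases List.mem_cons.1 hg' with rfl | hg'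
      · exact List.mem_append_right _ h2'
      · exact List.mem_append_left _ (h1' _ hg')
  obtain ⟨D, hD, hD'⟩ := this
  refine ⟨D, ?_⟩
  simp only [posChk, Bool.and_eq_true, List.all_eq_true, memB_iff]
  exact ⟨chkD_iff.2 hD, hD'⟩

end Pool.Agent.Lib.P675cc6
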