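import Mathlib
import Pool.Agent.Lib.P675cc6.Gvas

/-!
Reachability sets of one-dimensional grammar vector addition systems are semilinear
(in terms of runs).
-/

namespace Pool.Agent.Lib.P675cc6

open Set

/-- The sentential forms which occur in the labels. -/
def suff {N : Type} (R : Set (ContextFreeRule ℤ N)) (S : N) : Set (List (Symbol ℤ N)) :=
  {s | s <:+ [Symbol.nonterminal S]} ∪ ⋃ r ∈ R, {s | s <:+ r.output}

theorem suff_finite {N : Type} {R : Set (ContextFreeRule ℤ N)} (hR : R.Finite) (S : N) :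
    (suff R S).Finite := by
  have h : ∀ l : List (Symbol ℤ N), {s | s <:+ l}.Finite := by
    intro l
    refine (List.finite_toSet l.tails).subset ?_
    intro s hs
    exact (List.mem_tails s l).2 hs
  exact (h _).union (hR.biUnion fun r _ => h _)

theorem suff_tail {N : Type} {R : Set (ContextFreeRule ℤ N)} {S : N} {x : Symbol ℤ N}
    {s : List (Symbol ℤ N)} (h : x :: s ∈ suff R S) : s ∈ suff R S := by
  rcases h with h | h
  · exact Or.inl ((List.suffix_cons x s).trans h)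
  · refine Or.inr ?_
    simp only [mem_iUnion, mem_ofPred_eq] at h ⊢
    obtain ⟨r, hr, h⟩ := h
    exact ⟨r, hr, (List.suffix_cons x s).trans h⟩

theorem suff_output {N : Type} {R : Set (ContextFreeRule ℤ N)} {S : N} {r : ContextFreeRule ℤ N}
    (h : r ∈ R) : r.output ∈ suff R S := by
  refine Or.inr ?_
  simp only [mem_iUnion, mem_ofPred_eq]
  exact ⟨r, h, List.suffix_refl _⟩

/-- The labels which occur. -/
def labs {N : Type} (R : Set (ContextFreeRule ℤ N)) (S : N) : Set (Lab N) :=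
  {l | l.s ∈ suff R S ∧ l.α ∈ insert [] ((fun r => r.output) '' R)}

theorem labs_pwo {N : Type} {R : Set (ContextFreeRule ℤ N)} (hR : R.Finite) (S : N) :
    (labs R S).PartiallyWellOrderedOn LabLe := by
  have h1 : (suff R S ×ˢ (insert [] ((fun r => r.output) '' R))).PartiallyWellOrderedOn
      (fun x y => x = y) :=
    ((suff_finite hR S).prod ((hR.image _).insert _)).partiallyWellOrderedOn
  have h2 : (univ : Set ℕ).PartiallyWellOrderedOn (· ≤ ·) :=
    isPWO_of_wellQuasiOrderedLE _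
  have h3 := h1.prod (h2.prod (h2.prod h2))
  rw [partiallyWellOrderedOn_iff_exists_lt]
  intro f hf
  obtain ⟨m, n, hmn, he, h4, h5, h6⟩ := h3.exists_lt
    (f := fun n => (((f n).s, (f n).α), (f n).i, (f n).m, (f n).o))
    (fun n => ⟨⟨(hf n).1, (hf n).2⟩, mem_univ _, mem_univ _, mem_univ _⟩)
  simp only [Prod.mk.injEq] at he
  exact ⟨m, n, hmn, he.1, he.2, h4, h5, h6⟩

theorem valid_over {N : Type} {R : Set (ContextFreeRule ℤ N)} {S : N} {t : DTree N}
    {s : List (Symbol ℤ N)} {i o : ℕ} (h : Valid R t s i o) (hs : s ∈ suff R S) :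
    t.Over (labs R S) := by
  induction h with
  | nil i => exact ⟨⟨hs, mem_insert _ _⟩, trivial, trivial⟩
  | term hz _ ih => exact ⟨⟨hs, mem_insert _ _⟩, trivial, ih (suff_tail hs)⟩
  | @nt r s i m o a b hr _ _ ih1 ih2 =>
    exact ⟨⟨hs, mem_insert_of_mem _ ⟨r, hr, rfl⟩⟩, ih1 (suff_output hr), ih2 (suff_tail hs)⟩

theorem run_semilinear {N : Type} {R : Set (ContextFreeRule ℤ N)} (hR : R.Finite) (S : N)
    (a : ℕ) : IsSemilinearSet {b | Run R [Symbol.nonterminal S] a b} := by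
  classical
  set s0 : List (Symbol ℤ N) := [Symbol.nonterminal S] with hs0
  have hmem : s0 ∈ suff R S := Or.inl (List.suffix_refl _)
  have hpwo := (BTree.kruskal LabLe (labs_pwo hR S)).prod
    (show (univ : Set ℕ).PartiallyWellOrderedOn (· ≤ ·) from isPWO_of_wellQuasiOrderedLE _)
  -- a finite basis
  obtain ⟨F, hF, hbasis⟩ : ∃ F : Finset (DTree N × ℕ), (∀ x ∈ F, Valid R x.1 s0 a x.2) ∧
      ∀ y : DTree N × ℕ, Valid R y.1 s0 a y.2 →
        ∃ x ∈ F, BTree.Emb LabLe x.1 y.1 ∧ x.2 ≤ y.2 := by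
    by_contra hcon
    push Not at hcon
    obtain ⟨f, hf1, hf2⟩ := exists_seq_of_forall_finset_exists
      (fun x : DTree N × ℕ => Valid R x.1 s0 a x.2)
      (fun x y => ¬ (BTree.Emb LabLe x.1 y.1 ∧ x.2 ≤ y.2)) (by
        intro F hF
        obtain ⟨y, hy, h⟩ := hcon F hF
        refine ⟨y, hy, fun x hx hxy => ?_⟩
        exact absurd hxy.2 (not_le.2 (h x hx hxy.1)))
    obtain ⟨m, n, hmn, h⟩ := hpwo.exists_lt (f := f)
      (fun n => ⟨valid_over (hf1 n) hmem, mem_univ _⟩)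
    exact hf2 m n hmn h
  have hset : {b | Run R s0 a b} = ⋃ x ∈ F, {b | ∃ y h k : ℕ, b = x.2 + y ∧
      Ctx R s0 a (x.2 + y) s0 (a + h) (x.2 + k) ∧ Up0 R x.1 h k} := by
    ext b
    simp only [mem_ofPred_eq, mem_iUnion]
    constructor
    · intro hb
      obtain ⟨t, ht⟩ := hb.exists_valid
      obtain ⟨x, hx, he, hle⟩ := hbasis (t, b) ht
      obtain ⟨h, k, hc, hu⟩ := emb_up he (hF x hx) ht
      obtain ⟨y, rfl⟩ := Nat.exists_eq_add_of_le hle
      exact ⟨x, hx, y, h, k, rfl, hc, hu⟩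
    · rintro ⟨x, hx, y, h, k, rfl, hc, hu⟩
      simpa using hc 0 0 (by simpa using Up0.run (hF x hx) h k hu)
  rw [hset]
  refine IsSemilinearSet.biUnion_finset fun x hx => ?_
  have hval := hF x hx
  let P : AddSubmonoid ℕ :=
    { carrier := {y | ∃ h k : ℕ, Ctx R s0 a (x.2 + y) s0 (a + h) (x.2 + k) ∧ Up0 R x.1 h k}
      zero_mem' := ⟨0, 0, Ctx.refl _ _ _ _, Up0.zero hval⟩
      add_mem' := by
        rintro y1 y2 ⟨h1, k1, c1, u1⟩ ⟨h2, k2, c2, u2⟩
        refine ⟨h1 + h2, k1 + k2, ?_, Up0.add hval _ _ _ _ u1 u2⟩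
        exact Ctx.amalgam (x1 := 0) (x2 := 0) c1 c2 }
  have hP : IsSemilinearSet (P : Set ℕ) := IsSemilinearSet.of_fg (Nat.addSubmonoid_fg P)
  convert hP.vadd x.2 using 1
  ext b
  simp only [mem_ofPred_eq, mem_vadd_set, vadd_eq_add, SetLike.mem_coe]
  constructor
  · rintro ⟨y, h, k, rfl, hc, hu⟩
    exact ⟨y, ⟨h, k, hc, hu⟩, rfl⟩
  · rintro ⟨y, ⟨h, k, hc, hu⟩, rfl⟩
    exact ⟨y, h, k, rfl, hc, hu⟩

end Pool.Agent.Lib.P675cc6
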